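import Pool.Agent.MP_3ad207_lc.H46.FanB

/-! The fan case of the gate theorem. -/

set_option autoImplicit false

namespace Pool.Agent.Ehf

variable {V : Type*} {G : SimpleGraph V} {S I : Set V}

namespace Setup

/-- the data of a fan: geometry, legs, and the position of the door -/
structure FanDat (h : Setup G S I) (p : V) (A B : Set V) (w x g z o : V) (C : Finset V)
    (F : ℕ → Ear V) (al be lg : ℕ → V) : Prop where
  q : h.FanGeo p A B w x g z o C
  c : h.Clean p A B 200 F al be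
  sp : h.Spread p 200 (fun i => (F i).set) be
  st : h.Star 200 (fun i => (F i).a) al
  leg : ∀ j, j < 200 → h.Child p x (lg j) ∧ (F j).a ∈ h.Sub p (lg j)
  inj : ∀ i j, i < 200 → j < 200 → i ≠ j → lg i ≠ lg j
  up : z ∈ h.Sub p (be 3)
  low : be 4 ∈ h.Sub p o

namespace FanDat

variable {h : Setup G S I} {p w x g z o : V} {A B : Set V} {C : Finset V} {F : ℕ → Ear V}
  {al be lg : ℕ → V} (d : h.FanDat p A B w x g z o C F al be lg)
include d

theorem be_low {j : ℕ} (h1 : 5 ≤ j) (h2 : j < 200) : be j ∈ h.SubO p o :=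
  h.subO_subset_subO d.q.pH d.low (d.sp.fan_lt d.c.nr (by omega) h2)

theorem b_low {j : ℕ} (h1 : 5 ≤ j) (h2 : j < 200) : h.Sub p (F j).b ⊆ h.SubO p o :=
  (h.sub_trans d.q.pH (d.c.nr.top j h2)).trans (h.sub_subset_subO d.q.pH (d.be_low h1 h2))

theorem a_leg {j : ℕ} (h2 : j < 200) : h.Sub p (F j).a ⊆ h.Sub p (lg j) :=
  h.sub_trans d.q.pH (d.leg j h2).2

theorem a_self {j : ℕ} (h2 : j < 200) : (F j).a ∈ h.Sub p (F j).a :=
  h.self_mem_sub d.q.pH (d.c.isEar h2).aH

theorem b_self {j : ℕ} (h2 : j < 200) : (F j).b ∈ h.Sub p (F j).b :=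
  h.self_mem_sub d.q.pH (d.c.isEar h2).bH

theorem leg_A {j : ℕ} (h2 : j < 200) : h.Sub p (lg j) ⊆ A :=
  ((d.leg j h2).1.sub_subset d.q.pH).trans (d.q.s.subO_subset d.q.xA)

/-- a lower ear joins anything above its first top with the low part -/
theorem joins_low {j : ℕ} (h1 : 5 ≤ j) (h2 : j < 200) {P : Set V} (hP : h.Sub p (lg j) ⊆ P) :
    h.Joins (F j).set P (h.SubO p o) :=
  (d.c.isEar h2).fan_joins d.q.s (d.c.fan_a d.q.s h2) (d.c.fan_b d.q.s h2)
    (hP (d.leg j h2).2) (d.b_low h1 h2 (d.b_self h2))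
    (fun _ a b => (b (hP (d.a_leg h2 a))).elim) fun _ a b => (b (d.b_low h1 h2 a)).elim

theorem joins_up {j : ℕ} (h1 : j < 3) {P : Set V} (hP : h.Sub p (lg j) ⊆ P) :
    h.Joins (F j).set P (B \ h.Sub p o) := by
  have h2 : j < 200 := by omega
  have ha : Anti G (F j).set (h.Sub p o) := (d.sp j 3 h1 (by omega)).2.mono le_rfl
    ((d.q.oz.trans h.subO_subset_sub).trans (h.sub_trans d.q.pH d.up))
  refine (d.c.isEar h2).fan_joins d.q.s (d.c.fan_a d.q.s h2) (d.c.fan_b d.q.s h2)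
    (hP (d.leg j h2).2) ⟨d.c.fan_b d.q.s h2, (d.c.isEar h2).b_notMem ha⟩
    (fun _ a b => (b (hP (d.a_leg h2 a))).elim) fun v a b => ha.mono le_rfl ?_
  rw [Set.singleton_subset_iff]
  by_contra c
  exact b ⟨d.q.s.symm.sub_subset (d.c.fan_b d.q.s h2) a, c⟩

theorem anti_leg {i j : ℕ} (h1 : 5 ≤ i) (hi : i < 200) (hj : j < 200) (hne : i ≠ j) :
    Anti G (F i).set (h.Sub p (lg j)) :=
  (d.joins_low h1 hi le_rfl).anti_of h.sub_subset_H
    (fun _ a b => ((d.leg i hi).1.anti d.q.pH (d.leg j hj).1 (d.inj i j hi hj hne)).notMem b a)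
    fun _ a b => d.q.s.symm.not_mem_sub d.q.oB (d.leg_A hj a) b.1

/-- three lower legs avoid the outside of the wall -/
theorem three_legs [Finite V] {K : Set V} (cK : Conn G K) (kx : Anti G K {x})
    (kl : Anti G K (h.SubO p o)) :
    ∃ r : Fin 3 → ℕ, Function.Injective r ∧ ∀ t, 5 ≤ r t ∧ r t < 200 ∧
      Anti G ((F (r t)).set ∪ h.Sub p (lg (r t))) K := by
  have hb : ∀ j ∈ Finset.Ico 5 25, 5 ≤ j ∧ j < 200 := fun j hj => by
    rw [Finset.mem_Ico] at hj; omega
  have xl : Anti G {x} (h.SubO p o) :=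
    d.q.s.anti.mono (by simpa using d.q.xA) (d.q.s.symm.subO_subset d.q.oB)
  obtain ⟨s', hs', hc, ha⟩ := h.ehf.pure (conn_singleton x)
    (h.conn_subO d.q.pH d.q.ow (d.q.s.symm.ne d.q.oB)) cK xl kx.symm kl.symm
    (s := Finset.Ico 5 25) (F := fun j => (F j).set ∪ h.Sub p (lg j)) ⟨fun j hj =>
      (d.c.isEar (hb j hj).2).conn.un (h.conn_sub d.q.pH (d.leg j (hb j hj).2).1.mem_H)
        ((d.c.isEar (hb j hj).2).touch_a (d.leg j (hb j hj).2).2), fun i hi j hj hne => by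
      obtain ⟨i1, i2⟩ := hb i hi
      obtain ⟨j1, j2⟩ := hb j hj
      exact ((d.c.anti i2 j2 hne).union_right (d.anti_leg i1 i2 j2 hne)).union_left
        ((d.anti_leg j1 j2 i2 hne.symm).symm.union_right
          ((d.leg i i2).1.anti d.q.pH (d.leg j j2).1 (d.inj i j i2 j2 hne)))⟩
    (fun j hj => ⟨Touch.of_adj (Or.inr (h.self_mem_sub d.q.pH (d.leg j (hb j hj).2).1.mem_H)) rfl
      (d.leg j (hb j hj).2).1.adj.symm,
      (d.joins_low (hb j hj).1 (hb j hj).2 le_rfl).tQ.mono Set.subset_union_left le_rfl⟩)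
  have h3 : 3 ≤ s'.card := by
    rw [Nat.card_Ico] at hc; omega
  refine ⟨fun t => s'.orderEmbOfCardLe h3 t, (s'.orderEmbOfCardLe h3).injective, fun t => ?_⟩
  have hm := s'.orderEmbOfCardLe_mem h3 t
  exact ⟨(hb _ (hs' hm)).1, (hb _ (hs' hm)).2, ha _ hm⟩

end FanDat

end Setup

open Setup

/-- the class of ears that avoid the gate has no large good family -/
theorem fan_noGood (hCl : CleanStmt) (hBr : BranchStmt) : ∃ K : ℕ,
    ∀ (V : Type) [Finite V] (G : SimpleGraph V) (S I : Set V) (h : Setup G S I)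
      (p w x g z o y y' : V) (A B : Set V) (C : Finset V) (F : ℕ → Ear V) (al be lg : ℕ → V),
      h.FanDat p A B w x g z o C F al be lg → al 199 = x → y ∈ A → y' ∈ B →
      h.MinFam p A B y y' F al be →
      h.NoGood (fun E => E.a ∈ h.Sub p y ∧ E.b ∈ h.Sub p y' ∧ E.b ∉ h.Sub p o) K := by
  classical
  obtain ⟨E, hBr⟩ := hBr
  obtain ⟨N, hCl⟩ := hCl (200 + E)
  refine ⟨N, fun V _ G S I h p w x g z o y y' A B C F al be lg d hx yA yB m ι s F₀ hg hs => ?_⟩
  by_contra hc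
  have sd := d.q.s
  have pH := d.q.pH
  obtain ⟨φ, al', be', hφ, c'⟩ := hCl V G S I h p A B ι s F₀ sd hg (fun i hi =>
    ⟨sd.sub_subset yA (hs i hi).1, sd.symm.sub_subset yB (hs i hi).2.1⟩) (not_lt.1 hc)
  have hmin := m.2.2 _ al' be' (c'.mono (Nat.le_add_right 200 E)) fun i hi =>
    ⟨(hs _ (hφ i (by omega))).1, (hs _ (hφ i (by omega))).2.1⟩
  have hJ : ∀ j ∈ Finset.Ico 199 (199 + E), 199 ≤ j ∧ j < 200 + E := fun j hj => by
    rw [Finset.mem_Ico] at hj; omega
  have hJc : E ≤ (Finset.Ico 199 (199 + E)).card := by rw [Nat.card_Ico]; omega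
  have l199 : 199 < 200 + E := by omega
  have bo : ∀ j, j < 200 + E → (F₀ (φ j)).b ∉ h.Sub p o := fun j hj => (hs _ (hφ j hj)).2.2
  have ht : ∀ k ∈ Finset.Ico 5 20, 5 ≤ k ∧ k < 200 := fun j hj => by
    rw [Finset.mem_Ico] at hj; omega
  have c1 : x ∈ h.Sub p (al' 199) := by
    by_contra hn
    have : ∃ t ∈ A, t ∈ S \ I ∧ al' 199 ∈ h.Sub p t ∧ ∀ k, k < 200 → lg k ≠ t →
        Disjoint (h.Sub p t) (h.Sub p (F k).a) := by
      by_cases h1 : al' 199 ∈ h.Sub p x
      · obtain ⟨t, ct, mt⟩ := h.exists_child pH (x := al' 199) (v := x)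
          ⟨h1, fun e => hn (by rw [Set.mem_singleton_iff.1 e]; exact h.self_mem_sub pH d.q.xH)⟩
        exact ⟨t, sd.sub_subset d.q.xA ct.mem_sub, ct.white_of_black d.q.xb, mt, fun k hk e =>
          ((ct.anti pH (d.leg k hk).1 e.symm).mono le_rfl (d.a_leg hk)).disjoint⟩
      · obtain ⟨t, t1, t2, t3, t4, -⟩ := sd.off_path (c'.nl.mem 199 l199) d.q.xA hn h1
        exact ⟨t, t1, t2, t3, fun k hk _ => (t4.mono le_rfl ((d.a_leg hk).trans
          (h.sub_trans pH (d.leg k hk).1.mem_sub))).disjoint⟩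
    obtain ⟨t, t1, t2, t3, t4⟩ := this
    have hcard : 14 ≤ ((Finset.Ico 5 20).filter fun k => lg k ≠ t).card := by
      have h1 : ((Finset.Ico 5 20).filter fun k => ¬ lg k ≠ t).card ≤ 1 := by
        refine Finset.card_le_one.2 fun i hi j hj => ?_
        obtain ⟨i1, i2⟩ := Finset.mem_filter.1 hi
        obtain ⟨j1, j2⟩ := Finset.mem_filter.1 hj
        by_contra hne
        exact d.inj i j (ht i i1).2 (ht j j1).2 hne ((not_not.1 i2).trans (not_not.1 j2).symm)
      have h2 := Finset.card_filter_add_card_filter_not (s := Finset.Ico 5 20) fun k => lg k ≠ t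
      rw [Nat.card_Ico] at h2
      omega
    refine hBr V G S I h p t A B (200 + E) _ al' be' _ _ F sd c' t1 t2 (fun j hj => (hJ j hj).2) hJc
      (fun j hj => h.sub_trans pH (h.sub_trans pH t3 (c'.nl.fan_le sd (hJ j hj).1 (hJ j hj).2))
        (c'.nl.top j (hJ j hj).2))
      (d.c.apart fun k hk => (ht k (Finset.mem_filter.1 hk).1).2) hcard (fun k hk => ?_)
      (Or.inl ⟨o, d.q.oH, fun k hk => ?_, fun j hj => bo j (hJ j hj).2⟩)
    · obtain ⟨k1, k2⟩ := Finset.mem_filter.1 hk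
      exact ⟨d.c.fan_a sd (ht k k1).2, d.c.fan_b sd (ht k k1).2, t4 k (ht k k1).2 k2⟩
    · obtain ⟨k1, -⟩ := Finset.mem_filter.1 hk
      exact (d.b_low (ht k k1).1 (ht k k1).2 (d.b_self (ht k k1).2)).1
  have c2 : o ∈ h.Sub p (be' 199) := by
    by_contra hn
    have h1 : be' 199 ∉ h.Sub p o := fun e => bo 199 l199 (h.sub_trans pH e (c'.nr.top 199 l199))
    obtain ⟨t, t1, t2, t3, t4, -⟩ := sd.symm.off_path (c'.nr.mem 199 l199) d.q.oB hn h1
    refine hBr V G S I h p t B A (200 + E) _ be' al' _ (Finset.Ico 5 20) (fun k => (F k).rev)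
      sd.symm c'.rev t1 t2 (fun j hj => (hJ j hj).2) hJc
      (fun j hj => h.sub_trans pH
        (h.sub_trans pH t3 (c'.nr.fan_le sd.symm (hJ j hj).1 (hJ j hj).2))
        (c'.nr.top j (hJ j hj).2))
      (d.c.apart fun k hk => (ht k hk).2).rev (by simp) (fun k hk => ?_)
      (Or.inr fun k hk k' hk' hne => ?_)
    · exact ⟨d.c.fan_b sd (ht k hk).2, d.c.fan_a sd (ht k hk).2,
        (t4.mono le_rfl ((d.b_low (ht k hk).1 (ht k hk).2).trans h.subO_subset_sub)).disjoint⟩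
    · exact d.st.fan_incomp d.c.nl sd (ht k' hk').2 (ht k hk).2 hne.symm
  have e1 := h.depth_le pH c1
  have e2 := h.depth_le pH c2
  have e3 := h.depth_lt pH (d.be_low (j := 199) (by omega) (by omega))
  rw [hx] at hmin
  omega

theorem fanStmt (hCmp : CmpStmt) (hTri : TriStmt) (hBase : BaseStmt) (hWall : WallStmt)
    (hT1 : TeethStmt) (hT2 : Teeth2Stmt) (hX : CrossStmt) (hCl : CleanStmt) (hBr : BranchStmt) :
    FanStmt := by
  classical
  obtain ⟨k₁, hT1⟩ := hT1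
  obtain ⟨k₂, hT2⟩ := hT2
  obtain ⟨K₀, hK₀⟩ := fan_noGood hCl hBr
  refine ⟨6, k₁ + k₂ + 51 + 68, K₀, fun V _ G S I h Wo hW p y y' A B F al be sd yA yB m st => ?_⟩
  have c := m.1
  have pH := sd.uH
  have sp := c.fan_spread (fun F F' => hCmp V G S I h p A B F F' sd) sd (by omega) st
  -- the door
  obtain ⟨y₀, hy₀⟩ : ∃ y₀, h.BaseAt p (F 3).rev (F 5).b y₀ := by
    rcases hTri V G S I h p A B 200 F al be 3 5 sd c (by omega) (by omega) with ⟨y₀, e⟩ | e
    · exact ((hBase V G S I h p A B 200 F al be 3 y₀ sd c (by omega) e).1.not_star (by omega)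
        st).elim
    · exact e
  obtain ⟨-, g, z, o, dr, zB, hb, zg, oz, low, nu⟩ :=
    hBase V G S I h p B A 200 _ be al 3 y₀ sd.symm c.rev (by omega) hy₀
  have up : z ∈ h.Sub p (be 3) := by
    have := c.nr.top 3 (by omega)
    rcases hb with e | e
    · exact h.sub_trans pH (e ▸ this) zg
    · exact e ▸ this
  have d1 := h.depth_lt pH (sp.fan_lt c.nr (show 1 < 3 by omega) (by omega))
  have d2 := h.depth_le pH up
  have d0 := h.hlen_pos pH (sd.symm.subset_H (c.nr.mem 1 (by omega)))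
    (sd.symm.ne (c.nr.mem 1 (by omega))).symm
  have gz : h.Child p g z := ⟨dr.a1.symm, zg⟩
  have gp : g ≠ p := by
    rintro rfl
    have := gz.depth pH
    rw [h.hlen_self pH] at this
    omega
  -- the centre
  obtain ⟨lg, leg, inj⟩ := st.fan_legs c.nl sd (by omega)
  have xA := c.nl.mem 0 (by omega)
  have xb : al 0 ∈ I \ S := h.black_of_two_children pH (sd.ne xA) (leg 0 (by omega)).1
    (leg 1 (by omega)).1 (inj 0 1 (by omega) (by omega) (by omega))
  obtain ⟨w, wx⟩ : ∃ w, h.Child p w (al 0) := ⟨_, h.par_child pH (sd.subset_H xA) (sd.ne xA)⟩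
  obtain ⟨x, hx⟩ : ∃ x, x = al 0 := ⟨_, rfl⟩
  rw [← hx] at leg xA xb wx
  have ax : ∀ j, j < 200 → al j = x := fun j hj => hx ▸ (st j 0 hj (by omega)).1
  obtain ⟨C, hC⟩ : ∃ C : Finset V, C = {p, w, x, g, z, o} := ⟨_, rfl⟩
  have q : h.FanGeo p A B w x g z o C := ⟨sd, xA, xb, wx, sd.symm.anc_mem zB zg gp, dr.w1, gz,
    ⟨dr.a2, oz⟩, fun v => by rw [hC]; simp⟩
  have d : h.FanDat p A B w x g z o C F al be lg := ⟨q, c, sp, st, leg, inj, up, low⟩
  obtain ⟨K, cK, cen, kl, kb, -, ko, ka, kT, kw⟩ := hWall V G S I C (h.SubO p o)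
    (h.SubO x w \ h.Sub p g) h q.CH q.low_HC q.anti_low q.conn_cen (fun _ hv => hv.1.1.1)
    q.cen_low q.cen_black
  have kx : Anti G K {x} := kb.mono le_rfl (by simpa using ⟨q.xC, xb⟩)
  have kz : Anti G K {z} := kb.mono le_rfl (by simpa using ⟨q.zC, q.zb⟩)
  have ko' : ∀ v ∈ K, v ∉ HH S I → ∀ t ∈ C, ¬ G.Adj v t := fun v hv hH t ht e =>
    ko v hv hH ⟨t, ht, e⟩
  obtain ⟨r, rinj, hr⟩ := d.three_legs cK kx kl
  obtain ⟨c₀, hc₀⟩ := q.conn_cen.nonempty
  have fr : ∀ {X : Set V}, (∀ v ∈ X, v ∈ C) → (HH S I ∪ Wo C)ᶜ ⊆ Free G S I X := fun hX =>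
    hW.compl_subset_free hX
  have legx : ∀ j, j < 200 → h.Sub p (lg j) ⊆ h.Sub p x := fun j hj =>
    h.sub_trans pH (leg j hj).1.mem_sub
  have Aup : A ⊆ h.SubO z g := fun v hv =>
    ⟨q.mem_upz.2 ⟨sd.subset_H hv, sd.symm.not_mem_sub q.zB hv⟩,
      fun e => sd.not_mem_right hv ((Set.mem_singleton_iff.1 e) ▸ q.gB)⟩
  refine ⟨C, C, HC G S I C \ K, HC G S I C ∩ K, x, z, ⟨q.pC, le_rfl, q.CH, ?_, xA, zB,
    Set.sdiff_union_inter _ _, ka, fun v hv hvC hvO => ?_, ?_⟩, ?_, ?_⟩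
  · rw [hC]
    exact Finset.card_le_six
  · by_contra hn
    have hm := q.mem_cen hv hvC (fun e => hn (Or.inl e)) fun e => hn (Or.inr e)
    exact hvO ⟨q.mem_HC hv hvC (q.cen_x.not_adj hm rfl) (q.cen_z.not_adj hm rfl), cen hm⟩
  · refine NuLe.cover4 (fun Y cY hY => kw Y cY (hY.trans (fr fun _ hv => hv))) (q.kinds kl)
      ?_ ?_ ?_ ?_
    · have := hT1 V G S I h g z o K (fun t => (F (r t)).set) dr cK kz (q.root_zoO ▸ kl)
        (Touch.of_mem (cen hc₀) ⟨q.mem_upz.2 ⟨hc₀.1.1.1, fun e => hc₀.2 (h.sub_trans pH zg e)⟩,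
          fun e => hc₀.2 (by rw [Set.mem_singleton_iff.1 e]; exact h.self_mem_sub pH q.gH)⟩)
        (fun v hv hH => ⟨ko' v hv hH g q.gC, ko' v hv hH o q.oC⟩)
        (fun t ht e h1 h2 => kT _ (h.conn_subO q.zH ht e.ne') (q.tooth_z ht e h1 h2))
        (fun t => ⟨by
          rw [q.root_zoO]
          exact (d.joins_low (hr t).1 (hr t).2.1 ((d.leg_A (hr t).2.1).trans Aup)).symm,
          (hr t).2.2.mono Set.subset_union_left le_rfl⟩)
        (fun t t' hne => c.anti (hr t).2.1 (hr t').2.1 (rinj.ne hne))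
      rw [q.root_zoO] at this
      refine this.mono (fr ?_) le_rfl le_rfl le_rfl
      rintro v (rfl | rfl | rfl)
      exacts [q.gC, q.zC, q.oC]
    · have rt : ∀ t, h.Sub x (lg (r t)) = h.Sub p (lg (r t)) := fun t =>
        (leg _ (hr t).2.1).1.sub_eq_root pH
      have := hT2 V G S I h w x o K (fun t => lg (r t)) (fun t => (F (r t)).set) xb q.ww
        wx.adj.symm q.ow (q.B_up q.oB) cK kx (by rw [q.root_xO q.oB]; exact kl)
        (Touch.of_mem (cen hc₀) ⟨hc₀.1, fun e => hc₀.2 (q.og (q.root_x q.oB ▸ e))⟩)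
        (fun v hv hH => ⟨ko' v hv hH w q.wC, ko' v hv hH o q.oC⟩)
        (fun t ht e h1 => kT _ (h.conn_subO q.xH ht e.ne') (q.tooth_x ht e h1))
        (fun t => ⟨(leg _ (hr t).2.1).1.white_of_black xb, (leg _ (hr t).2.1).1.adj,
          fun e => wx.not_mem pH (e ▸ (leg _ (hr t).2.1).1.mem_sub), by
            rw [q.root_xO q.oB, rt t]
            exact d.joins_low (hr t).1 (hr t).2.1 le_rfl, by
            rw [rt t]
            exact (hr t).2.2⟩)
        (fun t t' hne => ⟨inj _ _ (hr t).2.1 (hr t').2.1 (rinj.ne hne),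
          c.anti (hr t).2.1 (hr t').2.1 (rinj.ne hne)⟩)
      rw [q.root_xO q.oB] at this
      refine this.mono (fr ?_) le_rfl le_rfl le_rfl
      rintro v (rfl | rfl | rfl)
      exacts [q.wC, q.xC, q.oC]
    · have := nu p sd.white (Or.inl rfl) gp.symm
        (by rw [← sd.eq_subO zB]; exact c.nl.mem 3 (by omega))
      refine this.symm.mono (fr ?_) le_rfl le_rfl le_rfl
      rintro v (rfl | rfl | rfl | rfl)
      exacts [q.gC, q.zC, q.oC, q.pC]
    · by_cases e : w = p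
      · have : A \ h.Sub p w = ∅ := by
          rw [e, h.sub_root pH]
          exact Set.sdiff_eq_empty.2 sd.subset_H
        rw [this]
        exact (nuLe_zero.2 fun Y _ _ ht => (not_touch.2 anti_empty_right ht).elim).mono le_rfl
          le_rfl le_rfl (Nat.zero_le _)
      · have wA : w ∈ A := sd.anc_mem xA wx.mem_sub e
        have sw : h.SubO p w = h.Sub p x := h.white_subO_eq pH q.ww e wx
        have := hX V G S I h p w o A B (fun t => (F t).set) (fun t => (F (5 + t)).set) sd wA q.ww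
          q.oB q.ow (fun t => d.joins_up t.2 (sw ▸ legx t (by omega)))
          (fun t => d.joins_low (by omega) (by omega) (sw ▸ legx _ (by omega)))
          (fun t t' hne => c.anti (by omega) (by omega) (by omega))
          (fun t t' hne => c.anti (by omega) (by omega) (by omega))
          (fun t t' => c.anti (by omega) (by omega) (by omega))
        refine this.mono (fr ?_) le_rfl le_rfl le_rfl
        rintro v (rfl | rfl | rfl)
        exacts [q.pC, q.wC, q.oC]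
  · have e1 := h.depth_le pH (c.fan_deep sd (by omega) (m.2.1 0 (by omega)).1
      (m.2.1 1 (by omega)).1)
    have e2 := h.depth_le pH (c.rev.fan_deep sd.symm (by omega) (m.2.1 0 (by omega)).2
      (m.2.1 1 (by omega)).2)
    rw [ax 1 (by omega)] at e1
    omega
  · refine (hK₀ V G S I h p w x g z o y y' A B C F al be lg d (ax 199 (by omega)) yA yB m).mono
      (fun E hE a => ⟨a.1, a.2.1, fun e => hE.b_notMem a.2.2 ?_⟩) le_rfl
    by_cases e' : E.b = o
    · exact Or.inl (e' ▸ q.oC)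
    · exact Or.inr ⟨q.low_HC ⟨e, e'⟩, kl.symm.notMem ⟨e, e'⟩⟩

end Pool.Agent.Ehf
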