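import Pool.Agent.MP_3ad207_lc.H46.K3b

/-! K(3,18): the end of the proof. -/

set_option autoImplicit false

namespace Pool.Agent.Ehf

variable {V : Type*} {G : SimpleGraph V}

theorem Conn.not_subset_singleton_of {Y : Set V} {x y : V} (hy : y ∈ Y) (hne : y ≠ x) :
    ¬ Y ⊆ {x} := fun h => hne (h hy)

/-- in a minimal connected set touching all sets of a family, a non-cut vertex is a unique toucher -/
theorem min_ut {ι : Type*} {s : Finset ι} {U : ι → Set V} {Y : Set V}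
    (hT : ∀ i ∈ s, Touch G Y (U i))
    (hmin : ∀ Z, Z ⊆ Y → (Conn G Z ∧ ∀ i ∈ s, Touch G Z (U i)) → Y ⊆ Z) {x : V} (hx : x ∈ Y)
    (hc : Conn G (Y \ {x})) : ∃ i ∈ s, UT G Y (U i) x := by
  by_contra hcon
  push Not at hcon
  have := hmin (Y \ {x}) Set.sdiff_subset ⟨hc, fun i hi => by
    by_contra h
    exact hcon i hi (ut_of_not_touch hx (hT i hi) h)⟩
  exact (this hx).2 rfl

/-- six rows between the same two columns, all touched by a third column -/
theorem EHF.path6 [Finite V] (hG : EHF G) {A B M : Set V} (cA : Conn G A) (cB : Conn G B)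
    (cM : Conn G M) (hAB : Anti G A B) (hMA : Anti G M A) (hMB : Anti G M B) {ι : Type*}
    {s : Finset ι} {f : ι → ℕ → V} {n : ι → ℕ} (hr : ∀ i ∈ s, Row G A B (f i) (n i))
    (hpos : ∀ i ∈ s, 0 < n i)
    (ha : ∀ i ∈ s, ∀ j ∈ s, i ≠ j → Anti G (seg (f i) 0 (n i)) (seg (f j) 0 (n j)))
    (ht : ∀ i ∈ s, Touch G M (seg (f i) 0 (n i))) : s.card ≤ 5 := by
  classical
  by_contra hcard
  set U : ι → Set V := fun i => seg (f i) 0 (n i) with hU
  have two : ∀ x ∈ M, ∀ i ∈ s, ∀ j ∈ s, ∀ k ∈ s, i ≠ j → i ≠ k → j ≠ k → x ∈ cN G (U i) →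
      x ∈ cN G (U j) → x ∈ cN G (U k) → False := fun x hx i hi j hj k hk h1 h2 h3 x1 x2 x3 =>
    hG.not_three_rows cA cB hAB (hr i hi) (hr j hj) (hr k hk) (ha i hi j hj h1) (ha i hi k hk h2)
      (ha j hj k hk h3) (hMA.mono (by simpa using hx) le_rfl) (hMB.mono (by simpa using hx) le_rfl)
      x1 x2 x3
  have few : ∀ x ∈ M, ∀ t ⊆ s, (∀ i ∈ t, x ∈ cN G (U i)) → t.card ≤ 2 := by
    intro x hx t hts h
    by_contra hc
    obtain ⟨i, hi, j, hj, k, hk, h1, h2, h3⟩ := Finset.two_lt_card.1 (not_le.1 hc)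
    exact two x hx i (hts hi) j (hts hj) k (hts hk) h1 h2 h3 (h i hi) (h j hj) (h k hk)
  have big : ∀ Y ⊆ M, ∀ t ⊆ s, 2 < t.card → (∀ i ∈ t, Touch G Y (U i)) → ∀ x ∈ Y, ¬ Y ⊆ {x} := by
    intro Y hY t hts hc h x hx hsub
    have := few x (hY hx) t hts fun i hi => by
      obtain ⟨y, hy, hy'⟩ := touch_iff.1 (h i hi)
      exact (hsub hy : y = x) ▸ hy'
    omega
  obtain ⟨Y₀, hY₀, ⟨c₀, t₀⟩, min₀⟩ := exists_min_subset
    (p := fun Z => Conn G Z ∧ ∀ i ∈ s, Touch G Z (U i)) ⟨cM, ht⟩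
  obtain ⟨y₀, hy₀⟩ := c₀.nonempty
  obtain ⟨e₀, he₀, -, ce₀⟩ := c₀.exists_noncut (conn_singleton y₀) (by simpa using hy₀)
    (big Y₀ hY₀ s le_rfl (by omega) t₀ y₀ hy₀)
  obtain ⟨z, hz, uz⟩ := min_ut t₀ min₀ he₀ ce₀
  set s' := s.filter fun i => Touch G (Y₀ \ {e₀}) (U i) with hs'
  have hs's : s' ⊆ s := Finset.filter_subset _ _
  have hcard' : 4 ≤ s'.card := by
    have h1 := few e₀ (hY₀ he₀) (s.filter fun i => ¬ Touch G (Y₀ \ {e₀}) (U i))
      (Finset.filter_subset _ _) fun i hi => by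
        rw [Finset.mem_filter] at hi
        exact (ut_of_not_touch he₀ (t₀ i hi.1) hi.2).2.1
    have h2 : s'.card + (s.filter fun i => ¬ Touch G (Y₀ \ {e₀}) (U i)).card = s.card :=
      Finset.card_filter_add_card_filter_not (s := s) (fun i => Touch G (Y₀ \ {e₀}) (U i))
    omega
  obtain ⟨Y, hY, ⟨cY, tY⟩, minY⟩ := exists_min_subset
    (p := fun Z => Conn G Z ∧ ∀ i ∈ s', Touch G Z (U i))
    ⟨ce₀, fun i hi => (Finset.mem_filter.1 hi).2⟩
  have hYM : Y ⊆ M := hY.trans (Set.sdiff_subset.trans hY₀)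
  have hYz : Anti G Y (U z) := (uz.anti.symm).mono hY le_rfl
  have hzs : ∀ i ∈ s', i ≠ z := by
    rintro i hi rfl
    exact not_touch.2 hYz (tY i hi)
  obtain ⟨y, hy⟩ := cY.nonempty
  obtain ⟨e, he, -, ce⟩ := cY.exists_noncut (conn_singleton y) (by simpa using hy)
    (big Y hYM s' hs's (by omega) tY y hy)
  obtain ⟨e', he', hne, ce'⟩ := cY.exists_noncut (conn_singleton e) (by simpa using he)
    (big Y hYM s' hs's (by omega) tY e he)
  have hne' : e' ≠ e := hne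
  obtain ⟨h, hh, uh⟩ := min_ut tY minY he ce
  obtain ⟨p, hp, up⟩ := min_ut tY minY he' ce'
  have hhp : h ≠ p := by
    rintro rfl
    exact hne' (uh.2.2 e' he' up.2.1)
  have par : ∀ {i j : ι} {x x' : V}, i ∈ s' → j ∈ s' → x ≠ x' → UT G Y (U i) x → UT G Y (U j) x' →
      ∀ {a b c d : ℕ}, FL G x (f i) (n i) a b → FL G x' (f j) (n j) c d →
      Odd (b - a + (d - c)) := by
    intro i j x x' hi hj hxx ui uj a b c d l1 l2
    have hij : i ≠ j := by
      rintro rfl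
      exact hxx (uj.2.2 x ui.1 ui.2.1)
    obtain ⟨l, hl⟩ := cY.exists_ipc ui.1 uj.1
    exact hG.delta cA cB hAB (hr i (hs's hi)) (hr j (hs's hj)) (ha i (hs's hi) j (hs's hj) hij) hl
      (hMA.mono hYM le_rfl) (hMB.mono hYM le_rfl) (ui.disjoint cY uj.1 hxx.symm)
      (uj.disjoint cY ui.1 hxx) ui.anti uj.anti l1 l2
  obtain ⟨a, b, l1⟩ := (uh.sees cY he' hne').exists_fl
  obtain ⟨c, d, l2⟩ := (up.sees cY he hne'.symm).exists_fl
  have o1 := par hh hp hne'.symm uh up l1 l2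
  obtain ⟨t, g, hg, g0, gt, gY⟩ := cY.exists_ipc he he'
  have tp : 0 < t := by
    rcases Nat.eq_zero_or_pos t with rfl | h'
    · exact (hne' (gt.symm.trans g0)).elim
    · exact h'
  have sJ : seg g 0 t ⊆ Y := seg_subset fun k _ hk => gY k hk
  have hYJ : Y ⊆ seg g 0 t := by
    by_contra hc
    obtain ⟨x, hx, hxJ, cx⟩ := cY.exists_noncut (hg.conn_seg (Nat.zero_le _) le_rfl) sJ hc
    obtain ⟨k, hk, uk⟩ := min_ut tY minY hx cx
    have n1 : e ≠ x := fun h' => hxJ (h' ▸ g0 ▸ apply_mem_seg le_rfl (Nat.zero_le _))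
    have n2 : e' ≠ x := fun h' => hxJ (h' ▸ gt ▸ apply_mem_seg (Nat.zero_le _) le_rfl)
    obtain ⟨a', b', l3⟩ := (uk.sees cY he n1).exists_fl
    have o2 := par hh hk n1 uh uk l1 l3
    have o3 := par hp hk n2 up uk l2 l3
    rw [Nat.odd_iff] at o1 o2 o3
    omega
  -- a middle row not touched by a given end
  have mid : ∀ x ∈ Y, ∀ i ∈ s', x ∈ cN G (U i) → (i = h ∨ i = p) →
      ∃ q ∈ s', q ≠ h ∧ q ≠ p ∧ x ∉ cN G (U q) := by
    intro x hx i hi hxi hi'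
    by_contra hc
    push Not at hc
    have h1 := few x (hYM hx) (insert i ((s'.erase h).erase p))
      (Finset.insert_subset (hs's hi) ((Finset.erase_subset _ _).trans
        ((Finset.erase_subset _ _).trans hs's))) (by
        intro j hj
        rcases Finset.mem_insert.1 hj with rfl | hj
        · exact hxi
        · simp only [Finset.mem_erase] at hj
          exact hc j hj.2.2 hj.2.1 hj.1)
    rw [Finset.card_insert_of_notMem (by
      simp only [Finset.mem_erase]; rcases hi' with rfl | rfl <;> simp),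
      Finset.card_erase_of_mem (Finset.mem_erase.2 ⟨hhp.symm, hp⟩),
      Finset.card_erase_of_mem hh] at h1
    omega
  have core : ∀ {i j q : ι} {g : ℕ → V}, i ∈ s' → j ∈ s' → q ∈ s' → i ≠ j → q ≠ i → q ≠ j →
      IsIP G g t → seg g 0 t = Y → UT G Y (U i) (g 0) → UT G Y (U j) (g t) →
      g 0 ∉ cN G (U q) →
      Core G A B (f i) (f j) (f q) (f z) g (n i) (n j) (n q) (n z) t := by
    intro i j q g hi hj hq hij hqi hqj hg hJ ui uj hq0
    refine ⟨cA, cB, hAB, hr i (hs's hi), hr j (hs's hj), hr q (hs's hq), hr z hz,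
      hpos j (hs's hj), ha i (hs's hi) j (hs's hj) hij, ha i (hs's hi) q (hs's hq) hqi.symm,
      ha i (hs's hi) z hz (hzs i hi), ha j (hs's hj) q (hs's hq) hqj.symm,
      ha j (hs's hj) z hz (hzs j hj), ha q (hs's hq) z hz (hzs q hq), hg, tp,
      hMA.mono (hJ ▸ hYM) le_rfl, hMB.mono (hJ ▸ hYM) le_rfl, hJ ▸ hYz, ?_, ?_, ?_, hq0⟩
    · refine ui.anti.symm.mono ?_ le_rfl
      rintro x ⟨k, k1, k2, rfl⟩
      exact ⟨hJ ▸ apply_mem_seg (Nat.zero_le _) k2, hg.ne k2 (Nat.zero_le _) (by omega)⟩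
    · refine uj.anti.symm.mono ?_ le_rfl
      rintro x ⟨k, k1, k2, rfl⟩
      exact ⟨hJ ▸ apply_mem_seg (Nat.zero_le _) (by omega), hg.ne (by omega) le_rfl (by omega)⟩
    · obtain ⟨x, hx, hx'⟩ := touch_iff.1 (tY q hq)
      rw [← hJ] at hx
      obtain ⟨k, -, k2, rfl⟩ := hx
      refine touch_iff.2 ⟨g k, apply_mem_seg ?_ k2, hx'⟩
      by_contra hk
      have : k = 0 := by omega
      exact hq0 (this ▸ hx')
  have hJ : seg g 0 t = Y := Set.Subset.antisymm sJ hYJ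
  by_cases hab : a < b
  · obtain ⟨q, hq, q1, q2, q3⟩ := mid e he h hh uh.2.1 (Or.inl rfl)
    exact (core hh hp hq hhp q1 q2 hg hJ (g0 ▸ uh) (gt ▸ up) (g0 ▸ q3)).false hG (g0 ▸ l1) hab
      (gt ▸ l2)
  · have hcd : c < d := by
      have := l1.le
      have := l2.le
      rw [Nat.odd_iff] at o1
      omega
    obtain ⟨q, hq, q1, q2, q3⟩ := mid e' he' p hp up.2.1 (Or.inr rfl)
    have r0 : g (t - 0) = e' := by simpa using gt
    have rt : g (t - t) = e := by simpa using g0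
    exact (core (g := fun i => g (t - i)) hp hh hq hhp.symm q2 q1 hg.rev ((seg_rev g t).trans hJ)
      (by rw [r0]; exact up) (by rw [rt]; exact uh) (by rw [r0]; exact q3)).false hG
      (by show FL G (g (t - 0)) _ _ _ _; rw [r0]; exact l2) hcd
      (by show FL G (g (t - t)) _ _ _ _; rw [rt]; exact l1)

/-- a row containing a path between two columns that touches the third one -/
def PathRow (G : SimpleGraph V) (A B M Y : Set V) : Prop :=
  ∃ (f : ℕ → V) (n : ℕ), seg f 0 n ⊆ Y ∧ Row G A B f n ∧ 0 < n ∧ Touch G M (seg f 0 n)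

theorem PathRow.symm {A B M Y : Set V} (h : PathRow G A B M Y) : PathRow G B A M Y := by
  obtain ⟨f, n, h1, h2, h3, h4⟩ := h
  exact ⟨fun i => f (n - i), n, by rwa [seg_rev], h2.rev, h3, by rwa [seg_rev]⟩

/-- a row containing a connected set with unique touchers for all three columns -/
def StarRow (G : SimpleGraph V) (X₁ X₂ X₃ Y : Set V) : Prop :=
  ∃ Z u v w, Z ⊆ Y ∧ Conn G Z ∧ UT G Z X₁ u ∧ UT G Z X₂ v ∧ UT G Z X₃ w

theorem row_types [Finite V] {X : Fin 3 → Set V} {Y : Set V} (cY : Conn G Y)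
    (t : ∀ a, Touch G Y (X a)) :
    StarRow G (X 0) (X 1) (X 2) Y ∨ PathRow G (X 0) (X 2) (X 1) Y ∨ PathRow G (X 0) (X 1) (X 2) Y ∨
      PathRow G (X 1) (X 2) (X 0) Y := by
  obtain ⟨Z, hZ, ⟨cZ, tZ⟩, minZ⟩ := exists_min_subset
    (p := fun Z => Conn G Z ∧ ∀ i ∈ (Finset.univ : Finset (Fin 3)), Touch G Z (X i))
    ⟨cY, fun i _ => t i⟩
  obtain ⟨y, hy⟩ := cZ.nonempty
  have star : (∀ a, ∃ u, UT G Z (X a) u) → StarRow G (X 0) (X 1) (X 2) Y := by
    intro h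
    obtain ⟨u, hu⟩ := h 0
    obtain ⟨v, hv⟩ := h 1
    obtain ⟨w, hw⟩ := h 2
    exact ⟨Z, u, v, w, hZ, cZ, hu, hv, hw⟩
  by_cases h1 : Z ⊆ {y}
  · left
    refine star fun a => ⟨y, hy, ?_, fun x hx _ => h1 hx⟩
    obtain ⟨x, hx, hx'⟩ := touch_iff.1 (tZ a (Finset.mem_univ _))
    exact (h1 hx : x = y) ▸ hx'
  obtain ⟨e, he, hey, ce⟩ := cZ.exists_noncut (conn_singleton y) (by simpa using hy) h1
  obtain ⟨e', he', hne, ce'⟩ := cZ.exists_noncut (conn_singleton e) (by simpa using he)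
    (fun h => hey (h hy).symm)
  have hne' : e' ≠ e := hne
  obtain ⟨a, -, ua⟩ := min_ut tZ minZ he ce
  obtain ⟨b, -, ub⟩ := min_ut tZ minZ he' ce'
  have hab : a ≠ b := by
    rintro rfl
    exact hne' (ua.2.2 e' he' ub.2.1)
  obtain ⟨n, g, hg, g0, gn, gZ⟩ := cZ.exists_ipc he he'
  have np : 0 < n := by
    rcases Nat.eq_zero_or_pos n with rfl | h'
    · exact (hne' (gn.symm.trans g0)).elim
    · exact h'
  have sJ : seg g 0 n ⊆ Z := seg_subset fun k _ hk => gZ k hk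
  by_cases hJ : Z ⊆ seg g 0 n
  · right
    have pr : ∀ c, PathRow G (X a) (X b) (X c) Y := fun c =>
      ⟨g, n, sJ.trans hZ, ⟨hg, g0 ▸ ua.2.1, gn ▸ ub.2.1,
        fun i i0 hi h => hg.ne hi (Nat.zero_le _) (by omega) ((ua.2.2 _ (gZ i hi) h).trans g0.symm),
        fun i hi h => hg.ne hi.le le_rfl (by omega) ((ub.2.2 _ (gZ i hi.le) h).trans gn.symm)⟩,
        np, ((tZ c (Finset.mem_univ _)).mono hJ le_rfl).symm⟩
    fin_cases a <;> fin_cases b
    · exact (hab rfl).elim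
    · exact Or.inr (Or.inl (pr 2))
    · exact Or.inl (pr 1)
    · exact Or.inr (Or.inl (pr 2).symm)
    · exact (hab rfl).elim
    · exact Or.inr (Or.inr (pr 0))
    · exact Or.inl (pr 1).symm
    · exact Or.inr (Or.inr (pr 0).symm)
    · exact (hab rfl).elim
  · left
    obtain ⟨x, hx, hxJ, cx⟩ := cZ.exists_noncut (hg.conn_seg (Nat.zero_le _) le_rfl) sJ hJ
    obtain ⟨c, -, uc⟩ := min_ut tZ minZ hx cx
    have n1 : a ≠ c := by
      rintro rfl
      exact hxJ ((ua.2.2 x hx uc.2.1) ▸ g0 ▸ apply_mem_seg le_rfl (Nat.zero_le _))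
    have n2 : b ≠ c := by
      rintro rfl
      exact hxJ ((ub.2.2 x hx uc.2.1) ▸ gn ▸ apply_mem_seg (Nat.zero_le _) le_rfl)
    refine star fun d => ?_
    have : d = a ∨ d = b ∨ d = c := by omega
    rcases this with rfl | rfl | rfl
    exacts [⟨e, ua⟩, ⟨e', ub⟩, ⟨x, uc⟩]

/-- K(3,18) -/
theorem EHF.k3 [Finite V] (hG : EHF G) {X₁ X₂ X₃ : Set V} (c1 : Conn G X₁) (c2 : Conn G X₂)
    (c3 : Conn G X₃) (a12 : Anti G X₁ X₂) (a13 : Anti G X₁ X₃) (a23 : Anti G X₂ X₃) {ι : Type*}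
    {s : Finset ι} {F : ι → Set V} (hF : AFam G s F)
    (ht : ∀ i ∈ s, Touch G (F i) X₁ ∧ Touch G (F i) X₂ ∧ Touch G (F i) X₃) : s.card ≤ 17 := by
  classical
  have : Nonempty V := ⟨c1.nonempty.some⟩
  have path : ∀ {A B M : Set V}, Conn G A → Conn G B → Conn G M → Anti G A B → Anti G M A →
      Anti G M B → (s.filter fun i => PathRow G A B M (F i)).card ≤ 5 := by
    intro A B M cA cB cM h1 h2 h3
    have : ∀ i ∈ s.filter fun i => PathRow G A B M (F i), ∃ (f : ℕ → V) (n : ℕ),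
        seg f 0 n ⊆ F i ∧ Row G A B f n ∧ 0 < n ∧ Touch G M (seg f 0 n) :=
      fun i hi => (Finset.mem_filter.1 hi).2
    choose! f n hf using this
    exact hG.path6 cA cB cM h1 h2 h3 (f := f) (n := n) (fun i hi => (hf i hi).2.1)
      (fun i hi => (hf i hi).2.2.1) (fun i hi j hj hij => (hF.2 i (Finset.mem_filter.1 hi).1 j
        (Finset.mem_filter.1 hj).1 hij).mono (hf i hi).1 (hf j hj).1) (fun i hi => (hf i hi).2.2.2)
  have star : (s.filter fun i => StarRow G X₁ X₂ X₃ (F i)).card ≤ 2 := by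
    by_contra hc
    obtain ⟨i, hi, j, hj, k, hk, h1, h2, h3⟩ := Finset.two_lt_card.1 (not_le.1 hc)
    rw [Finset.mem_filter] at hi hj hk
    obtain ⟨Z₁, u₁, v₁, w₁, s1, y1, hu1, hv1, hw1⟩ := hi.2
    obtain ⟨Z₂, u₂, v₂, w₂, s2, y2, hu2, hv2, hw2⟩ := hj.2
    obtain ⟨Z₃, u₃, v₃, w₃, s3, y3, hu3, hv3, hw3⟩ := hk.2
    exact hG.star3 c1 c2 c3 a12 a13 a23 y1 y2 y3 ((hF.2 i hi.1 j hj.1 h1).mono s1 s2)
      ((hF.2 i hi.1 k hk.1 h2).mono s1 s3) ((hF.2 j hj.1 k hk.1 h3).mono s2 s3)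
      hu1 hv1 hw1 hu2 hv2 hw2 hu3 hv3 hw3
  have p1 := path c1 c3 c2 a13 a12.symm a23
  have p2 := path c1 c2 c3 a12 a13.symm a23.symm
  have p3 := path c2 c3 c1 a23 a12 a13
  have cover : s ⊆ (s.filter fun i => StarRow G X₁ X₂ X₃ (F i)) ∪
      ((s.filter fun i => PathRow G X₁ X₃ X₂ (F i)) ∪ ((s.filter fun i => PathRow G X₁ X₂ X₃ (F i)) ∪
        (s.filter fun i => PathRow G X₂ X₃ X₁ (F i)))) := by
    intro i hi
    have := row_types (X := ![X₁, X₂, X₃]) (hF.1 i hi) (fun a => by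
      fin_cases a
      exacts [(ht i hi).1, (ht i hi).2.1, (ht i hi).2.2])
    simp only [Finset.mem_union, Finset.mem_filter, hi, true_and]
    exact this
  have := Finset.card_le_card cover
  have u1 := Finset.card_union_le (s.filter fun i => StarRow G X₁ X₂ X₃ (F i))
    ((s.filter fun i => PathRow G X₁ X₃ X₂ (F i)) ∪ ((s.filter fun i => PathRow G X₁ X₂ X₃ (F i)) ∪
        (s.filter fun i => PathRow G X₂ X₃ X₁ (F i))))
  have u2 := Finset.card_union_le (s.filter fun i => PathRow G X₁ X₃ X₂ (F i))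
    ((s.filter fun i => PathRow G X₁ X₂ X₃ (F i)) ∪ (s.filter fun i => PathRow G X₂ X₃ X₁ (F i)))
  have u3 := Finset.card_union_le (s.filter fun i => PathRow G X₁ X₂ X₃ (F i))
    (s.filter fun i => PathRow G X₂ X₃ X₁ (F i))
  omega

theorem k3Stmt : K3Stmt := fun _ _ _ hG _ _ _ c1 c2 c3 a12 a13 a23 _ _ _ hF ht =>
  hG.k3 c1 c2 c3 a12 a13 a23 hF ht

end Pool.Agent.Ehf
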