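import Pool.Agent.MP_3ad207_lc.H6.Spec4

/-! The last interfaces: star cutsets of proper wheels, what the spine needs from the deleted
sets, the star case, the spine case, and the guard system. -/

set_option autoImplicit false

namespace Pool.Agent.Ehf

variable {V : Type*}

/-- A proper wheel seen from a long sector: `r 0, ..., r m` is an induced path, `X` a connected set
(the inside of the sector) that sees exactly its two ends, the centre `z` is adjacent to both ends
and to a third vertex that is adjacent to neither end, and is anticomplete to `X`. -/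
structure Wheel (G : SimpleGraph V) (r : ℕ → V) (m : ℕ) (X : Set V) (z : V) : Prop where
  ip : IsIP G r m
  conn : Conn G X
  anti : Anti G X (seg r 1 (m - 1))
  n0 : r 0 ∉ X
  nm : r m ∉ X
  s0 : Sees G (r 0) X
  sm : Sees G (r m) X
  off : ∀ i, i ≤ m → r i ≠ z
  zX : Anti G {z} X
  z0 : G.Adj z (r 0)
  zm : G.Adj z (r m)
  mid : ∃ s, 2 ≤ s ∧ s + 2 ≤ m ∧ G.Adj z (r s)

/-- (SC) the closed neighbourhood of the centre separates the sector from the rest of the rim -/
def SC1Stmt : Prop :=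
  ∀ (V : Type) [Finite V] (G : SimpleGraph V), EHF G →
    ∀ (r : ℕ → V) (m : ℕ) (X : Set V) (z : V), Wheel G r m X z →
      ∀ Y : Set V, Conn G Y → Anti G {z} Y → Touch G Y X → ∀ i, i ≤ m → r i ∉ Y

/-- (SC) for the other sectors of the same wheel -/
def SC2Stmt : Prop :=
  ∀ (V : Type) [Finite V] (G : SimpleGraph V), EHF G →
    ∀ (r : ℕ → V) (m : ℕ) (X : Set V) (z : V), Wheel G r m X z →
      ∀ Y : Set V, Conn G Y → Anti G {z} Y →
        ∀ i k j, i < k → k < j → j ≤ m → G.Adj z (r k) → r i ∈ Y → r j ∉ Y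

/-- (HUB) `p 0, ..., p n` is a path of the tree with both ends in `D`, closed to a hole between the
positions `a < b` by a connected set `L`; a vertex `z` outside the tree that is anticomplete to
`L`, has all its neighbours on the path strictly between `a` and `b`, three of them pairwise
nonadjacent, and jumps over a white member `p j` of `D`, is deleted. -/
def HubProp (G : SimpleGraph V) (S I : Set V) (Wo : Finset V → Set V) : Prop :=
  ∀ (D : Finset V) (p : ℕ → V) (n a b j : ℕ) (L : Set V) (z : V), (D : Set V) ⊆ HH S I →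
    IsIP G p n → (∀ i, i ≤ n → p i ∈ HH S I) → p 0 ∈ D → p n ∈ D → a < b → b ≤ n →
    Conn G L → Anti G L (seg p (a + 1) (b - 1)) → p a ∉ L → p b ∉ L →
    Sees G (p a) L → Sees G (p b) L → z ∉ HH S I → Anti G {z} L →
    (∀ i, i ≤ n → G.Adj z (p i) → a < i ∧ i < b) →
    (∃ i₁ i₂ i₃, i₁ + 2 ≤ i₂ ∧ i₂ + 2 ≤ i₃ ∧ i₃ ≤ n ∧ G.Adj z (p i₁) ∧ G.Adj z (p i₂) ∧
      G.Adj z (p i₃)) →
    j ≤ n → p j ∈ D → p j ∈ S \ I → ¬ G.Adj z (p j) → (∃ i, i < j ∧ G.Adj z (p i)) →
    (∃ i, j < i ∧ i ≤ n ∧ G.Adj z (p i)) → z ∈ Wo D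

/-- what the star case and the spine case may use about the deleted sets -/
structure WoOK (G : SimpleGraph V) (S I : Set V) (Wo : Finset V → Set V) : Prop where
  out : ∀ D : Finset V, Disjoint (Wo D) (HH S I)
  nb : ∀ (D : Finset V) (z : V), z ∉ HH S I → Sees G z (D : Set V) → z ∈ Wo D
  mono : ∀ {D D' : Finset V}, D ⊆ D' → Wo D ⊆ Wo D'
  hub : HubProp G S I Wo

/-- the conclusion of WIDTH for the marks `M` -/
def CutOf (G : SimpleGraph V) (S I : Set V) (Wo : Finset V → Set V) (M : Finset V) (m c k : ℕ) :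
    Prop :=
  ∃ (D MA MB : Finset V) (A B : Set V), D.card ≤ c ∧ MA ⊆ M ∧ MB ⊆ M ∧ m ≤ MA.card ∧
    m ≤ MB.card ∧ Cut G S I (HH S I ∪ Wo D)ᶜ D A B MA MB k

/-- STAR: the marks lie in different branches at a black vertex `x`; `w p` is the white neighbour
of `x` in the branch of `p` -/
def StarStmt : Prop :=
  ∃ (N : ℕ → ℕ) (c k : ℕ), ∀ (V : Type) [Fintype V] (G : SimpleGraph V) (S I : Set V),
    Setup G S I → ∀ (m : ℕ) (M : Finset V) (x : V) (w : V → V), x ∈ I \ S →
      (∀ p ∈ M, w p ∈ S \ I ∧ G.Adj x (w p) ∧ p ∈ comp G (HH S I \ {x}) (w p)) →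
      Set.InjOn w (M : Set V) → N m ≤ M.card →
      CutOf G S I (fun D => {z | Sees G z (D : Set V)}) M m c k

/-- SPINE: the marks hang at different vertices (stations) `P (st p)` of a path `P` of the tree:
`p` is the station itself or lies in a branch that leaves the path there -/
def SpineStmt : Prop :=
  ∃ (N : ℕ → ℕ) (c k : ℕ), ∀ (V : Type) [Fintype V] (G : SimpleGraph V) (S I : Set V),
    Setup G S I → ∀ Wo : Finset V → Set V, WoOK G S I Wo →
      ∀ (m : ℕ) (M : Finset V) (P : ℕ → V) (n : ℕ) (st : V → ℕ), IsIP G P n →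
        (∀ i, i ≤ n → P i ∈ HH S I) →
        (∀ p ∈ M, st p ≤ n ∧
          p ∈ comp G ((HH S I \ seg P 0 n) ∪ {P (st p)}) (P (st p))) →
        Set.InjOn st (M : Set V) → N m ≤ M.card → CutOf G S I Wo M m c k

/-- WIDTH for every admissible family of deleted sets -/
def WidthStmt : Prop :=
  ∃ (N : ℕ → ℕ) (c k : ℕ), 1 ≤ c ∧ ∀ (V : Type) [Fintype V] (G : SimpleGraph V) (S I : Set V),
    Setup G S I → ∀ Wo : Finset V → Set V, WoOK G S I Wo → Width G S I Wo N c k

/-- guard systems with the hub property exist for every size `c` of cuts -/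
def GuardStmt : Prop :=
  ∀ c : ℕ, ∃ (h q : ℕ → ℕ) (c' J : ℕ), ∀ (V : Type) [Fintype V] (G : SimpleGraph V)
    (S I : Set V), Setup G S I → ∀ C : CanSys G S,
      ∃ g : GSys G S I C h q c c' J, HubProp G S I g.Wo

theorem structStmt_of (hW : WidthStmt) (hG : GuardStmt) : StructStmt := by
  obtain ⟨N, c, k, hc, hW⟩ := hW
  obtain ⟨h, q, c', J, hG⟩ := hG c
  refine ⟨h, q, N, c, c', J, k, hc, fun V _ G S I hS C => ?_⟩
  obtain ⟨g, hg⟩ := hG V G S I hS C
  exact ⟨g, hW V G S I hS g.Wo ⟨g.out, g.nb, g.mono, hg⟩⟩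

end Pool.Agent.Ehf
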