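import Pool.Agent.MP_3ad207_lc.H46.Spec

/-! Rows between two columns, the delta lemma and a K4 configuration. -/

set_option autoImplicit false

namespace Pool.Agent.Ehf

variable {V : Type*} {G : SimpleGraph V}

/-- `u` is the unique vertex of `Y` touching `X` -/
def UT (G : SimpleGraph V) (Y X : Set V) (u : V) : Prop :=
  u ∈ Y ∧ u ∈ cN G X ∧ ∀ y ∈ Y, y ∈ cN G X → y = u

theorem UT.anti {Y X : Set V} {u : V} (h : UT G Y X u) : Anti G X (Y \ {u}) :=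
  Anti.symm (anti_iff.2 fun y hy hc => hy.2 (h.2.2 y hy.1 hc))

theorem Conn.exists_adj {Y : Set V} (hY : Conn G Y) {u v : V} (hu : u ∈ Y) (hv : v ∈ Y)
    (hne : v ≠ u) : ∃ x ∈ Y, G.Adj u x := by
  obtain ⟨n, f, hf, f0, fn, fY⟩ := hY.exists_ipc hu hv
  have hn : 0 < n := by
    rcases Nat.eq_zero_or_pos n with rfl | h
    · exact (hne (fn.symm.trans f0)).elim
    · exact h
  exact ⟨f 1, fY 1 hn, f0 ▸ hf.adj_succ hn⟩

theorem UT.notMem {Y X : Set V} {u v : V} (h : UT G Y X u) (hY : Conn G Y) (hv : v ∈ Y)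
    (hne : v ≠ u) : u ∉ X := by
  intro hu
  obtain ⟨x, hx, e⟩ := hY.exists_adj h.1 hv hne
  exact e.ne (h.2.2 x hx (Or.inr ⟨u, hu, e.symm⟩)).symm

theorem UT.disjoint {Y X : Set V} {u v : V} (h : UT G Y X u) (hY : Conn G Y) (hv : v ∈ Y)
    (hne : v ≠ u) : Disjoint Y X := by
  rw [Set.disjoint_left]
  intro y hy hX
  have := h.2.2 y hy (Or.inl hX)
  exact h.notMem hY hv hne (this ▸ hX)

theorem UT.sees {Y X : Set V} {u v : V} (h : UT G Y X u) (hY : Conn G Y) (hv : v ∈ Y)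
    (hne : v ≠ u) : Sees G u X := h.2.1.resolve_left (h.notMem hY hv hne)

theorem ut_of_not_touch {Y X : Set V} {u : V} (hu : u ∈ Y) (h : Touch G Y X)
    (h' : ¬ Touch G (Y \ {u}) X) : UT G Y X u := by
  have key : ∀ y ∈ Y, y ∈ cN G X → y = u := by
    intro y hy hc
    by_contra hne
    exact h' (touch_iff.2 ⟨y, ⟨hy, hne⟩, hc⟩)
  obtain ⟨y, hy, hc⟩ := touch_iff.1 h
  exact ⟨hu, key y hy hc ▸ hc, key⟩

/-- an induced path whose first vertex alone touches `A` and whose last vertex alone touches `B` -/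
structure Row (G : SimpleGraph V) (A B : Set V) (f : ℕ → V) (n : ℕ) : Prop where
  ip : IsIP G f n
  first : f 0 ∈ cN G A
  last : f n ∈ cN G B
  notA : ∀ i, 0 < i → i ≤ n → f i ∉ cN G A
  notB : ∀ i, i < n → f i ∉ cN G B

theorem seg_rev (f : ℕ → V) (n : ℕ) : seg (fun i => f (n - i)) 0 n = seg f 0 n := by
  ext x
  constructor
  · rintro ⟨k, -, hk, rfl⟩
    exact ⟨n - k, Nat.zero_le _, by omega, rfl⟩
  · rintro ⟨k, -, hk, rfl⟩
    exact ⟨n - k, Nat.zero_le _, by omega, by show f (n - (n - k)) = f k; congr 1; omega⟩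

theorem Row.rev {A B : Set V} {f : ℕ → V} {n : ℕ} (h : Row G A B f n) :
    Row G B A (fun i => f (n - i)) n :=
  ⟨h.ip.rev, by simpa using h.last, by simpa using h.first,
    fun i _ _ => h.notB _ (by omega), fun i _ => h.notA _ (by omega) (by omega)⟩

theorem Row.antiA {A B : Set V} {f : ℕ → V} {n i j : ℕ} (h : Row G A B f n) (hi : 0 < i)
    (hj : j ≤ n) : Anti G A (seg f i j) := by
  refine Anti.symm (anti_iff.2 ?_)
  rintro x ⟨k, a, b, rfl⟩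
  exact h.notA k (by omega) (by omega)

theorem Row.antiB {A B : Set V} {f : ℕ → V} {n i j : ℕ} (h : Row G A B f n) (hj : j < n) :
    Anti G B (seg f i j) := by
  refine Anti.symm (anti_iff.2 ?_)
  rintro x ⟨k, a, b, rfl⟩
  exact h.notB k (by omega)

theorem seg_diff_first (f : ℕ → V) (i j : ℕ) : seg f i j \ {f i} ⊆ seg f (i + 1) j := by
  rintro x ⟨⟨k, a, b, rfl⟩, hx⟩
  refine apply_mem_seg ?_ b
  by_contra hc
  have : k = i := by omega
  exact hx (by rw [this]; rfl)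

theorem seg_diff_last (f : ℕ → V) (i j : ℕ) :
    seg f i j \ {f j} ⊆ {x | ∃ k, i ≤ k ∧ k < j ∧ f k = x} := by
  rintro x ⟨⟨k, a, b, rfl⟩, hx⟩
  refine ⟨k, a, ?_, rfl⟩
  by_contra hc
  have : k = j := by omega
  exact hx (by rw [this]; rfl)

/-- the vertices `f 0, ..., f (a-1)` -/
def ini (f : ℕ → V) (a : ℕ) : Set V := {x | ∃ k, k < a ∧ f k = x}

theorem ini_subset_seg (f : ℕ → V) {a n : ℕ} (h : a ≤ n + 1) : ini f a ⊆ seg f 0 n := by
  rintro x ⟨k, hk, rfl⟩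
  exact apply_mem_seg (Nat.zero_le _) (by omega)

theorem Row.conn_ini {A B Z : Set V} {f : ℕ → V} {n a : ℕ} (h : Row G A B f n) (ha : a ≤ n)
    (hZ : Conn G Z) (hA : A ⊆ Z) : Conn G (Z ∪ ini f a) ∧ f a ∈ cN G (Z ∪ ini f a) := by
  rcases Nat.eq_zero_or_pos a with rfl | h0
  · have : ini f 0 = ∅ := by ext x; simp [ini]
    rw [this, Set.union_empty]
    exact ⟨hZ, cN_mono hA h.first⟩
  · have e : ini f a = seg f 0 (a - 1) := by
      ext x
      constructor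
      · rintro ⟨k, hk, rfl⟩; exact apply_mem_seg (Nat.zero_le _) (by omega)
      · rintro ⟨k, -, hk, rfl⟩; exact ⟨k, by omega, rfl⟩
    rw [e]
    refine ⟨hZ.un (h.ip.conn_seg (Nat.zero_le _) (by omega)) (Touch.symm (touch_iff.2
      ⟨f 0, apply_mem_seg le_rfl (Nat.zero_le _), cN_mono hA h.first⟩)), ?_⟩
    exact Or.inr ⟨f (a - 1), Or.inr (apply_mem_seg (Nat.zero_le _) le_rfl), h.ip.adj_pred h0 ha⟩

theorem Row.conn_fin {A B Z : Set V} {f : ℕ → V} {n b : ℕ} (h : Row G A B f n) (hb : b ≤ n)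
    (hZ : Conn G Z) (hB : B ⊆ Z) :
    Conn G (Z ∪ seg f (b + 1) n) ∧ f b ∈ cN G (Z ∪ seg f (b + 1) n) := by
  rcases Nat.lt_or_eq_of_le hb with h0 | rfl
  · refine ⟨hZ.un (h.ip.conn_seg (by omega) le_rfl) (Touch.symm (touch_iff.2
      ⟨f n, apply_mem_seg (by omega) le_rfl, cN_mono hB h.last⟩)), ?_⟩
    exact Or.inr ⟨f (b + 1), Or.inr (apply_mem_seg le_rfl (by omega)), h.ip.adj_succ h0⟩
  · rw [seg_eq_empty (Nat.lt_succ_self b), Set.union_empty]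
    exact ⟨hZ, cN_mono hB h.last⟩

/-- `a` and `b` are the first and the last index of a neighbour of `e` on the path -/
structure FL (G : SimpleGraph V) (e : V) (f : ℕ → V) (n a b : ℕ) : Prop where
  le : a ≤ b
  le' : b ≤ n
  adjA : G.Adj e (f a)
  adjB : G.Adj e (f b)
  before : ∀ i, i < a → ¬ G.Adj e (f i)
  after : ∀ i, b < i → i ≤ n → ¬ G.Adj e (f i)

theorem Sees.exists_fl {e : V} {f : ℕ → V} {n : ℕ} (h : Sees G e (seg f 0 n)) :
    ∃ a b, FL G e f n a b := by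
  obtain ⟨x, ⟨k, -, hk, rfl⟩, hx⟩ := h
  obtain ⟨a, b, h1, h2, h3, h4, h5, h6⟩ :=
    exists_first_last (p := fun i => G.Adj e (f i)) ⟨k, hk, hx⟩
  exact ⟨a, b, h1, h2, h3, h4, h5, h6⟩

theorem FL.rev {e : V} {f : ℕ → V} {n a b : ℕ} (h : FL G e f n a b) :
    FL G e (fun i => f (n - i)) n (n - b) (n - a) := by
  have h1 := h.le
  have h2 := h.le'
  refine ⟨by omega, by omega, ?_, ?_, fun i hi => h.after _ (by omega) (by omega),
    fun i hi hi' => h.before _ (by omega)⟩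
  · show G.Adj e (f (n - (n - b)))
    rw [show n - (n - b) = b by omega]; exact h.adjB
  · show G.Adj e (f (n - (n - a)))
    rw [show n - (n - a) = a by omega]; exact h.adjA

/-- an induced path `x, e, ..., e', y` through a closed path -/
theorem IPc.extend {e e' x y : V} {s : ℕ} {T : Set V} (h : IPc G e e' s T) (ex : G.Adj x e)
    (ey : G.Adj e' y) (hx : Anti G {x} (T \ {e})) (hy : Anti G {y} (T \ {e'})) (_hxT : x ∉ T)
    (_hyT : y ∉ T) (hxy : Anti G {x} {y}) : IP G x y (s + 2) T := by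
  have h1 : IPc G x e' (0 + 1 + s) ({x} ∪ T) :=
    (IPc.refl (X := {x}) rfl).concat_adj h ex (by simpa using anti_empty_left) hx
  have h2 : IPc G x y (0 + 1 + s + 1 + 0) (({x} ∪ T) ∪ {y}) := by
    refine h1.concat_adj (IPc.refl (X := {y}) rfl) ey ?_ (by simpa using anti_empty_right)
    refine (hxy.union_left hy.symm).mono ?_ le_rfl
    rintro z ⟨hz | hz, hz'⟩
    · exact Or.inl hz
    · exact Or.inr ⟨hz, hz'⟩
  have h3 := h2.toIP
  rw [show 0 + 1 + s + 1 + 0 = s + 2 by omega] at h3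
  refine h3.mono ?_
  rintro z ⟨(hz | hz) | hz, hz'⟩
  · exact (hz' (Or.inl hz)).elim
  · exact hz
  · exact (hz' (Or.inr hz)).elim

/-- (DELTA) -/
theorem EHF.delta (hG : EHF G) {A B T : Set V} {f g : ℕ → V} {n m a b c d s : ℕ} {e e' : V}
    (cA : Conn G A) (cB : Conn G B) (hAB : Anti G A B) (hf : Row G A B f n) (hg : Row G A B g m)
    (hfg : Anti G (seg f 0 n) (seg g 0 m)) (hT : IPc G e e' s T) (tA : Anti G T A)
    (tB : Anti G T B) (df : Disjoint T (seg f 0 n)) (dg : Disjoint T (seg g 0 m))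
    (uf : Anti G (seg f 0 n) (T \ {e})) (ug : Anti G (seg g 0 m) (T \ {e'}))
    (h1 : FL G e f n a b) (h2 : FL G e' g m c d) : Odd (b - a + (d - c)) := by
  have l1 := h1.le
  have l2 := h1.le'
  have l3 := h2.le
  have l4 := h2.le'
  have mf : ∀ i, i ≤ n → f i ∈ seg f 0 n := fun i hi => apply_mem_seg (Nat.zero_le _) hi
  have mg : ∀ i, i ≤ m → g i ∈ seg g 0 m := fun i hi => apply_mem_seg (Nat.zero_le _) hi
  have ext : ∀ i j, i ≤ n → j ≤ m → G.Adj e (f i) → G.Adj e' (g j) →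
      IP G (f i) (g j) (s + 2) T := fun i j hi hj e1 e2 =>
    hT.extend e1.symm e2 (uf.mono (by simpa using mf i hi) le_rfl)
      (ug.mono (by simpa using mg j hj) le_rfl)
      (fun h => Set.disjoint_left.1 df h (mf i hi)) (fun h => Set.disjoint_left.1 dg h (mg j hj))
      (hfg.mono (by simpa using mf i hi) (by simpa using mg j hj))
  have aT : ∀ {p : ℕ → V} {k : ℕ} {x : V} (Q : Set V), Disjoint T (seg p 0 k) →
      Anti G (seg p 0 k) (T \ {x}) → Q ⊆ seg p 0 k → (∀ y ∈ Q, ¬ G.Adj x y) → Anti G T Q := by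
    intro p k x Q hd hu hQ hx y hy z hz
    refine ⟨fun e => Set.disjoint_left.1 hd hy (e ▸ hQ hz), fun e => ?_⟩
    by_cases c : y = x
    · exact hx z hz (c ▸ e)
    · exact hu.not_adj (hQ hz) ⟨hy, c⟩ e.symm
  obtain ⟨d1, z1⟩ := cA.exists_ip hf.first hg.first
  obtain ⟨d3, z3⟩ := cB.exists_ip hf.last hg.last
  have p1 := z1.two_le (hfg.ne (mf 0 (by omega)) (mg 0 (by omega)))
    (hfg.not_adj (mf 0 (by omega)) (mg 0 (by omega)))
  have p3 := z3.two_le (hfg.ne (mf n le_rfl) (mg m le_rfl)) (hfg.not_adj (mf n le_rfl) (mg m le_rfl))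
  have lkI : ∀ {p : ℕ → V} {k i j : ℕ} {x : V}, Row G A B p k → Disjoint T (seg p 0 k) →
      Anti G (seg p 0 k) (T \ {x}) → FL G x p k i j → Lk G A T (p 0) (p i) (i - 0) (seg p 0 i) := by
    intro p k i j x hp hd hu hl
    have := hl.le
    have := hl.le'
    refine ⟨hp.ip.ipc_seg (Nat.zero_le _) (by omega),
      (hp.antiA (i := 1) (j := i) (by omega) (by omega)).mono le_rfl (seg_diff_first p 0 i), ?_⟩
    refine aT _ hd hu (Set.sdiff_subset.trans (seg_mono le_rfl (by omega))) ?_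
    intro y hy
    obtain ⟨l, -, hl', rfl⟩ := seg_diff_last p 0 i hy
    exact hl.before l hl'
  have lkF : ∀ {p : ℕ → V} {k i j : ℕ} {x : V}, Row G A B p k → Disjoint T (seg p 0 k) →
      Anti G (seg p 0 k) (T \ {x}) → FL G x p k i j → Lk G T B (p j) (p k) (k - j) (seg p j k) := by
    intro p k i j x hp hd hu hl
    have := hl.le
    have := hl.le'
    refine ⟨hp.ip.ipc_seg (by omega) le_rfl, ?_, ?_⟩
    · refine aT _ hd hu (Set.sdiff_subset.trans (seg_mono (Nat.zero_le _) le_rfl)) ?_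
      intro y hy
      obtain ⟨l, l1, l2, rfl⟩ := seg_diff_first p j k hy
      exact hl.after l (by omega) l2
    · refine Anti.symm (anti_iff.2 ?_)
      intro y hy
      obtain ⟨l, -, hl', rfl⟩ := seg_diff_last p j k hy
      exact hp.notB l hl'
  have lkW : ∀ {p : ℕ → V} {k : ℕ}, Row G A B p k → Lk G A B (p 0) (p k) (k - 0) (seg p 0 k) := by
    intro p k hp
    refine ⟨hp.ip.ipc_seg (Nat.zero_le _) le_rfl,
      (hp.antiA (i := 1) (j := k) (by omega) le_rfl).mono le_rfl (seg_diff_first p 0 k), ?_⟩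
    refine Anti.symm (anti_iff.2 ?_)
    intro y hy
    obtain ⟨l, -, hl', rfl⟩ := seg_diff_last p 0 k hy
    exact hp.notB l hl'
  have o1 := hG.hole2 (lkI hf df uf h1) (lkI hg dg ug h2)
    (Sep2.of_anti (hfg.mono (seg_mono le_rfl (by omega)) (seg_mono le_rfl (by omega))) _ _ _ _)
    tA.symm z1 (ext a c (by omega) (by omega) h1.adjA h2.adjA) (by omega)
  have o2 := hG.hole2 (lkF hf df uf h1) (lkF hg dg ug h2)
    (Sep2.of_anti (hfg.mono (seg_mono (Nat.zero_le _) le_rfl) (seg_mono (Nat.zero_le _) le_rfl))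
      _ _ _ _) tB (ext b d l2 l4 h1.adjB h2.adjB) z3 (by omega)
  have o3 := hG.hole2 (lkW hf) (lkW hg) (Sep2.of_anti hfg _ _ _ _) hAB z1 z3 (by omega)
  rw [Nat.odd_iff] at o1 o2 o3 ⊢
  omega

/-- the K4 used twice in the proof of K(3,18) -/
theorem EHF.k4_rows (hG : EHF G) {A B Z A₁ A₃ : Set V} {f r : ℕ → V} {n n₀ a b : ℕ}
    {e u₁ u₃ : V} (_cA : Conn G A) (_cB : Conn G B) (hAB : Anti G A B) (hf : Row G A B f n)
    (hr : Row G A B r n₀) (hfr : Anti G (seg f 0 n) (seg r 0 n₀))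
    (hl : FL G e f n a b) (hab : a < b) (ef : e ∉ seg f 0 n)
    (eA : Anti G {e} (A ∪ B ∪ seg r 0 n₀ ∪ A₁ ∪ A₃))
    (cZ : Conn G Z) (eZ : e ∈ cN G Z) (u1Z : u₁ ∈ cN G Z) (u3Z : u₃ ∈ cN G Z)
    (aZ : Anti G Z (A ∪ B ∪ seg f 0 n ∪ seg r 0 n₀ ∪ A₁ ∪ A₃))
    (c1 : Conn G (A ∪ A₁)) (s1 : u₁ ∈ cN G (A ∪ A₁)) (c3 : Conn G (B ∪ A₃))
    (s3 : u₃ ∈ cN G (B ∪ A₃))
    (p1 : Anti G (insert u₁ A₁) (B ∪ A₃ ∪ seg f 0 n ∪ seg r 0 n₀))
    (p3 : Anti G (insert u₃ A₃) (A ∪ A₁ ∪ seg f 0 n ∪ seg r 0 n₀))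
    (n13 : u₁ ≠ u₃) (n1 : u₁ ≠ e) (n3 : u₃ ≠ e) : False := by
  have l2 := hl.le'
  simp only [anti_union_right] at eA aZ p1 p3
  obtain ⟨⟨⟨⟨eA, eB⟩, er⟩, e1⟩, e3⟩ := eA
  obtain ⟨⟨⟨⟨⟨zA, zB⟩, zf⟩, zr⟩, z1⟩, z3⟩ := aZ
  obtain ⟨⟨⟨pB, p13⟩, p1f⟩, p1r⟩ := p1
  obtain ⟨⟨⟨pA, p31⟩, p3f⟩, p3r⟩ := p3
  have i1 : A₁ ⊆ insert u₁ A₁ := Set.subset_insert _ _
  have i3 : A₃ ⊆ insert u₃ A₃ := Set.subset_insert _ _
  have j1 : ({u₁} : Set V) ⊆ insert u₁ A₁ := by simp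
  have j3 : ({u₃} : Set V) ⊆ insert u₃ A₃ := by simp
  obtain ⟨d1, t1⟩ := hf.conn_ini (a := a) (by omega) c1 Set.subset_union_left
  obtain ⟨d2, t2⟩ := hr.conn_ini (a := n₀) le_rfl d1
    (Set.subset_union_left.trans Set.subset_union_left)
  obtain ⟨d3, t3⟩ := hf.conn_fin (b := b) l2 c3 Set.subset_union_left
  have sI : ini f a ⊆ seg f 0 n := ini_subset_seg f (by omega)
  have sR : ini r n₀ ⊆ seg r 0 n₀ := ini_subset_seg r (by omega)
  have sF : seg f (b + 1) n ⊆ seg f 0 n := seg_mono (Nat.zero_le _) le_rfl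
  have sM : seg f (a + 1) (b - 1) ⊆ seg f 0 n := seg_mono (Nat.zero_le _) (by omega)
  have ma : ({f a} : Set V) ⊆ seg f 0 n := by
    simpa using apply_mem_seg (Nat.zero_le _) (by omega)
  have mb : ({f b} : Set V) ⊆ seg f 0 n := by simpa using apply_mem_seg (Nat.zero_le _) l2
  have mr : ({r n₀} : Set V) ⊆ seg r 0 n₀ := by simpa using apply_mem_seg (Nat.zero_le _) le_rfl
  have iniseg : ∀ i j, a < i → j ≤ n → Anti G (ini f a) (seg f i j) := by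
    rintro i j hi hj x ⟨k, hk, rfl⟩ y ⟨l, l1, l2, rfl⟩
    exact ⟨hf.ip.ne (by omega) (by omega) (by omega), hf.ip.not_adj (by omega) (by omega)⟩
  have iniB : ∀ {p : ℕ → V} {k i : ℕ}, Row G A B p k → i ≤ k → Anti G (ini p i) B := by
    intro p k i hp hi
    refine anti_iff.2 ?_
    rintro x ⟨l, hl', rfl⟩
    exact hp.notB l (by omega)
  refine hG.k4 (B₁ := A ∪ A₁ ∪ ini f a ∪ ini r n₀) (B₂ := B ∪ A₃ ∪ seg f (b + 1) n)
    (B₃ := seg f (a + 1) (b - 1)) (B₄ := Z) (u₁₂ := r n₀) (u₁₃ := f a) (u₁₄ := u₁) (u₂₃ := f b)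
    (u₂₄ := u₃) (u₃₄ := e) ?_ ?_ ?_ ?_ ?_ ?_ ?_ ?_ ?_ ?_ ?_ ?_ ?_ ?_ ?_ ?_ ?_ ?_ ?_ ?_ ?_ ?_ ?_
  · simp only [anti_union_left, anti_union_right]
    refine ⟨⟨⟨⟨⟨hAB, (pB.mono i1 le_rfl)⟩, iniB hf (by omega)⟩, iniB hr le_rfl⟩,
      ⟨⟨(pA.mono i3 le_rfl).symm, p13.mono i1 le_rfl⟩, (p3f.mono i3 sI).symm⟩,
        (p3r.mono i3 sR).symm⟩,
      ⟨⟨hf.antiA (by omega) le_rfl, p1f.mono i1 sF⟩, iniseg _ _ (by omega) le_rfl⟩,
        (hfr.mono sF sR).symm⟩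
  · simp only [anti_union_left]
    exact ⟨⟨⟨hf.antiA (by omega) (by omega), p1f.mono i1 sM⟩, iniseg _ _ (by omega) (by omega)⟩,
      (hfr.mono sM sR).symm⟩
  · simp only [anti_union_left]
    exact ⟨⟨⟨zA.symm, z1.symm⟩, (zf.mono le_rfl sI).symm⟩, (zr.mono le_rfl sR).symm⟩
  · simp only [anti_union_left]
    exact ⟨⟨hf.antiB (by omega), p3f.mono i3 sM⟩,
      (hf.ip.anti_seg (by omega) le_rfl).symm⟩
  · simp only [anti_union_left]
    exact ⟨⟨zB.symm, z3.symm⟩, (zf.mono le_rfl sF).symm⟩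
  · exact (zf.mono le_rfl sM).symm
  · exact ((hfr.mono sM mr).symm).union_right (zr.mono le_rfl mr).symm
  · simp only [anti_union_right]
    refine ⟨⟨⟨?_, (p3f.mono i3 ma).symm⟩, ?_⟩, (zf.mono le_rfl ma).symm⟩
    · rw [← seg_self f a]; exact (hf.antiB (by omega)).symm
    · rw [← seg_self f a]; exact hf.ip.anti_seg (by omega) le_rfl
  · simp only [anti_union_right]
    exact ⟨⟨⟨pB.mono j1 le_rfl, p13.mono j1 le_rfl⟩, p1f.mono j1 sF⟩, p1f.mono j1 sM⟩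
  · simp only [anti_union_right]
    refine ⟨⟨⟨⟨?_, (p1f.mono i1 mb).symm⟩, ?_⟩, hfr.mono mb sR⟩, (zf.mono le_rfl mb).symm⟩
    · rw [← seg_self f b]; exact (hf.antiA (by omega) l2).symm
    · rw [← seg_self f b]; exact (iniseg _ _ hab l2).symm
  · simp only [anti_union_right]
    exact ⟨⟨⟨⟨pA.mono j3 le_rfl, p31.mono j3 le_rfl⟩, p3f.mono j3 sI⟩, p3r.mono j3 sR⟩,
      p3f.mono j3 sM⟩
  · simp only [anti_union_right]
    refine ⟨⟨⟨⟨eA, e1⟩, ?_⟩, er.mono le_rfl sR⟩, ⟨eB, e3⟩, ?_⟩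
    · rintro x rfl y ⟨k, hk, rfl⟩
      exact ⟨fun h => ef (h ▸ sI ⟨k, hk, rfl⟩), hl.before k hk⟩
    · rintro x rfl y ⟨k, k1, k2, rfl⟩
      exact ⟨fun h => ef (h ▸ sF ⟨k, k1, k2, rfl⟩), hl.after k (by omega) k2⟩
  · exact (er.mono le_rfl mr).symm
  · exact (p3f.mono j3 ma).symm
  · exact p1f.mono j1 mb
  · exact ⟨(hfr.ne (ma rfl) (mr rfl)).symm, (p1r.ne (j1 rfl) (mr rfl)).symm,
      (p1f.ne (j1 rfl) (ma rfl)).symm⟩
  · exact ⟨(hfr.ne (mb rfl) (mr rfl)).symm, (p3r.ne (j3 rfl) (mr rfl)).symm,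
      (p3f.ne (j3 rfl) (mb rfl)).symm⟩
  · exact ⟨hf.ip.ne (by omega) l2 (by omega), hl.adjA.ne.symm, hl.adjB.ne.symm⟩
  · exact ⟨n13, n1, n3⟩
  · exact Zone.of_conn d2 t2 (cN_mono Set.subset_union_left t1)
      (cN_mono (Set.subset_union_left.trans Set.subset_union_left) s1)
  · exact Zone.of_conn d3 (cN_mono (Set.subset_union_left.trans Set.subset_union_left) hr.last) t3
      (cN_mono Set.subset_union_left s3)
  · exact ⟨⟨_, hf.ip.ip_seg hab.le l2⟩, ⟨1, IP.of_adj hl.adjA.symm _⟩, ⟨1, IP.of_adj hl.adjB.symm _⟩⟩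
  · exact Zone.of_conn cZ u1Z u3Z eZ

end Pool.Agent.Ehf
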