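import Mathlib

/-! Basic vocabulary for even-hole-free graphs: touching sets, connected sets, induced paths. -/

set_option autoImplicit false

namespace Pool.Agent.Ehf

variable {V : Type*}

/-- `f 0, ..., f n` is an induced path with `n` edges. -/
def IsIP (G : SimpleGraph V) (f : ℕ → V) (n : ℕ) : Prop :=
  ∀ i j, i < j → j ≤ n → f i ≠ f j ∧ (G.Adj (f i) (f j) ↔ j = i + 1)

/-- `f 0, ..., f (n-1)` is an induced cycle with `n` vertices. -/
def IsCyc (G : SimpleGraph V) (f : ℕ → V) (n : ℕ) : Prop :=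
  ∀ i j, i < j → j < n → f i ≠ f j ∧ (G.Adj (f i) (f j) ↔ (j = i + 1 ∨ (i = 0 ∧ j + 1 = n)))

/-- every induced cycle with at least four vertices is odd -/
def EHF (G : SimpleGraph V) : Prop :=
  ∀ (f : ℕ → V) (n : ℕ), 4 ≤ n → IsCyc G f n → Odd n

/-- the sets meet or are joined by an edge -/
def Touch (G : SimpleGraph V) (X Y : Set V) : Prop :=
  ∃ x ∈ X, ∃ y ∈ Y, x = y ∨ G.Adj x y

/-- disjoint and no edge in between -/
def Anti (G : SimpleGraph V) (X Y : Set V) : Prop :=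
  ∀ x ∈ X, ∀ y ∈ Y, x ≠ y ∧ ¬ G.Adj x y

/-- the vertex has a neighbour in the set -/
def Sees (G : SimpleGraph V) (v : V) (X : Set V) : Prop := ∃ x ∈ X, G.Adj v x

/-- closed neighbourhood -/
def cN (G : SimpleGraph V) (X : Set V) : Set V := {v | v ∈ X ∨ Sees G v X}

/-- reachability by steps that land in `X` -/
def RIn (G : SimpleGraph V) (X : Set V) (u v : V) : Prop :=
  Relation.ReflTransGen (fun a b => G.Adj a b ∧ b ∈ X) u v

/-- nonempty and connected -/
def Conn (G : SimpleGraph V) (X : Set V) : Prop :=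
  X.Nonempty ∧ ∀ u ∈ X, ∀ v ∈ X, RIn G X u v

/-- the component of `v` in the subgraph induced on `U` (empty if `v` is not in `U`) -/
def comp (G : SimpleGraph V) (U : Set V) (v : V) : Set V := {x | v ∈ U ∧ RIn G U v x}

/-- induced path from `u` to `v` with `n` edges and interior in `X` -/
def IP (G : SimpleGraph V) (u v : V) (n : ℕ) (X : Set V) : Prop :=
  ∃ f : ℕ → V, IsIP G f n ∧ f 0 = u ∧ f n = v ∧ ∀ i, 0 < i → i < n → f i ∈ X

/-- induced path from `u` to `v` with `n` edges and all vertices in `X` -/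
def IPc (G : SimpleGraph V) (u v : V) (n : ℕ) (X : Set V) : Prop :=
  ∃ f : ℕ → V, IsIP G f n ∧ f 0 = u ∧ f n = v ∧ ∀ i, i ≤ n → f i ∈ X

/-- the vertices `f i, ..., f j` -/
def seg (f : ℕ → V) (i j : ℕ) : Set V := {x | ∃ k, i ≤ k ∧ k ≤ j ∧ f k = x}

/-- stable set -/
def Stable (G : SimpleGraph V) (X : Set V) : Prop := ∀ x ∈ X, ∀ y ∈ X, ¬ G.Adj x y

/-- clique -/
def Clq (G : SimpleGraph V) (X : Set V) : Prop := ∀ x ∈ X, ∀ y ∈ X, x ≠ y → G.Adj x y

variable {G : SimpleGraph V}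

/-! ### touching -/

theorem not_touch {X Y : Set V} : ¬ Touch G X Y ↔ Anti G X Y := by
  unfold Touch Anti
  constructor
  · intro h x hx y hy
    refine ⟨fun e => h ⟨x, hx, y, hy, Or.inl e⟩, fun e => h ⟨x, hx, y, hy, Or.inr e⟩⟩
  · rintro h ⟨x, hx, y, hy, e | e⟩
    · exact (h x hx y hy).1 e
    · exact (h x hx y hy).2 e

theorem not_anti {X Y : Set V} : ¬ Anti G X Y ↔ Touch G X Y := by
  rw [← not_touch, not_not]

theorem Touch.symm {X Y : Set V} (h : Touch G X Y) : Touch G Y X := by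
  obtain ⟨x, hx, y, hy, e | e⟩ := h
  · exact ⟨y, hy, x, hx, Or.inl e.symm⟩
  · exact ⟨y, hy, x, hx, Or.inr e.symm⟩

theorem Anti.symm {X Y : Set V} (h : Anti G X Y) : Anti G Y X :=
  fun y hy x hx => ⟨(h x hx y hy).1.symm, fun e => (h x hx y hy).2 e.symm⟩

theorem Touch.mono {X Y X' Y' : Set V} (h : Touch G X Y) (hX : X ⊆ X') (hY : Y ⊆ Y') :
    Touch G X' Y' := by
  obtain ⟨x, hx, y, hy, e⟩ := h
  exact ⟨x, hX hx, y, hY hy, e⟩

theorem Anti.mono {X Y X' Y' : Set V} (h : Anti G X Y) (hX : X' ⊆ X) (hY : Y' ⊆ Y) :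
    Anti G X' Y' := fun x hx y hy => h x (hX hx) y (hY hy)

theorem Anti.ne {X Y : Set V} (h : Anti G X Y) {x y : V} (hx : x ∈ X) (hy : y ∈ Y) : x ≠ y :=
  (h x hx y hy).1

theorem Anti.not_adj {X Y : Set V} (h : Anti G X Y) {x y : V} (hx : x ∈ X) (hy : y ∈ Y) :
    ¬ G.Adj x y := (h x hx y hy).2

theorem Anti.notMem {X Y : Set V} (h : Anti G X Y) {x : V} (hx : x ∈ X) : x ∉ Y :=
  fun hy => (h x hx x hy).1 rfl

theorem Anti.not_sees {X Y : Set V} (h : Anti G X Y) {x : V} (hx : x ∈ X) : ¬ Sees G x Y := by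
  rintro ⟨y, hy, e⟩
  exact (h x hx y hy).2 e

theorem Anti.disjoint {X Y : Set V} (h : Anti G X Y) : Disjoint X Y :=
  Set.disjoint_left.2 fun _ hx => h.notMem hx

theorem anti_union_left {X X' Y : Set V} : Anti G (X ∪ X') Y ↔ Anti G X Y ∧ Anti G X' Y := by
  constructor
  · intro h
    exact ⟨h.mono Set.subset_union_left le_rfl, h.mono Set.subset_union_right le_rfl⟩
  · rintro ⟨h1, h2⟩ x (hx | hx) y hy
    · exact h1 x hx y hy
    · exact h2 x hx y hy

theorem anti_union_right {X Y Y' : Set V} : Anti G X (Y ∪ Y') ↔ Anti G X Y ∧ Anti G X Y' := by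
  constructor
  · intro h
    exact ⟨h.mono le_rfl Set.subset_union_left, h.mono le_rfl Set.subset_union_right⟩
  · rintro ⟨h1, h2⟩ x hx y (hy | hy)
    · exact h1 x hx y hy
    · exact h2 x hx y hy

theorem Anti.union_left {X X' Y : Set V} (h : Anti G X Y) (h' : Anti G X' Y) :
    Anti G (X ∪ X') Y := anti_union_left.2 ⟨h, h'⟩

theorem Anti.union_right {X Y Y' : Set V} (h : Anti G X Y) (h' : Anti G X Y') :
    Anti G X (Y ∪ Y') := anti_union_right.2 ⟨h, h'⟩

theorem anti_singleton_left {x : V} {Y : Set V} : Anti G {x} Y ↔ x ∉ Y ∧ ¬ Sees G x Y := by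
  constructor
  · intro h
    exact ⟨h.notMem rfl, h.not_sees rfl⟩
  · rintro ⟨h1, h2⟩ a ha y hy
    rw [Set.mem_singleton_iff] at ha
    subst ha
    exact ⟨fun e => h1 (e ▸ hy), fun e => h2 ⟨y, hy, e⟩⟩

theorem anti_singleton_singleton {x y : V} : Anti G {x} {y} ↔ x ≠ y ∧ ¬ G.Adj x y := by
  simp [Anti]

theorem anti_empty_left {Y : Set V} : Anti G ∅ Y := fun _ hx => hx.elim

theorem anti_empty_right {Y : Set V} : Anti G Y ∅ := fun _ _ _ hy => hy.elim

theorem mem_cN {X : Set V} {v : V} : v ∈ cN G X ↔ v ∈ X ∨ Sees G v X := Iff.rfl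

theorem subset_cN (X : Set V) : X ⊆ cN G X := fun _ h => Or.inl h

theorem cN_mono {X Y : Set V} (h : X ⊆ Y) : cN G X ⊆ cN G Y := by
  rintro v (hv | ⟨x, hx, e⟩)
  · exact Or.inl (h hv)
  · exact Or.inr ⟨x, h hx, e⟩

theorem Sees.mono {X Y : Set V} {v : V} (h : Sees G v X) (hXY : X ⊆ Y) : Sees G v Y := by
  obtain ⟨x, hx, e⟩ := h
  exact ⟨x, hXY hx, e⟩

theorem sees_union {X Y : Set V} {v : V} : Sees G v (X ∪ Y) ↔ Sees G v X ∨ Sees G v Y := by
  constructor
  · rintro ⟨x, hx | hx, e⟩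
    · exact Or.inl ⟨x, hx, e⟩
    · exact Or.inr ⟨x, hx, e⟩
  · rintro (h | h)
    · exact h.mono Set.subset_union_left
    · exact h.mono Set.subset_union_right

theorem sees_singleton {x v : V} : Sees G v {x} ↔ G.Adj v x := by simp [Sees]

theorem cN_union (X Y : Set V) : cN G (X ∪ Y) = cN G X ∪ cN G Y := by
  ext v
  simp only [mem_cN, Set.mem_union, sees_union]
  tauto

theorem mem_cN_singleton {x v : V} : v ∈ cN G {x} ↔ v = x ∨ G.Adj v x := by
  simp [mem_cN, sees_singleton]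

theorem touch_iff {X Y : Set V} : Touch G X Y ↔ ∃ x ∈ X, x ∈ cN G Y := by
  constructor
  · rintro ⟨x, hx, y, hy, e | e⟩
    · exact ⟨x, hx, Or.inl (e ▸ hy)⟩
    · exact ⟨x, hx, Or.inr ⟨y, hy, e⟩⟩
  · rintro ⟨x, hx, h | ⟨y, hy, e⟩⟩
    · exact ⟨x, hx, x, h, Or.inl rfl⟩
    · exact ⟨x, hx, y, hy, Or.inr e⟩

theorem anti_iff {X Y : Set V} : Anti G X Y ↔ ∀ x ∈ X, x ∉ cN G Y := by
  rw [← not_touch, touch_iff]
  push Not
  rfl

theorem touch_singleton_left {x : V} {Y : Set V} : Touch G {x} Y ↔ x ∈ cN G Y := by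
  simp [touch_iff]

theorem touch_union_left {X X' Y : Set V} : Touch G (X ∪ X') Y ↔ Touch G X Y ∨ Touch G X' Y := by
  rw [← not_iff_not, not_or, not_touch, not_touch, not_touch, anti_union_left]

theorem touch_union_right {X Y Y' : Set V} : Touch G X (Y ∪ Y') ↔ Touch G X Y ∨ Touch G X Y' := by
  rw [← not_iff_not, not_or, not_touch, not_touch, not_touch, anti_union_right]

theorem Touch.of_mem {X Y : Set V} {x : V} (hx : x ∈ X) (hy : x ∈ Y) : Touch G X Y :=
  ⟨x, hx, x, hy, Or.inl rfl⟩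

theorem Touch.of_adj {X Y : Set V} {x y : V} (hx : x ∈ X) (hy : y ∈ Y) (e : G.Adj x y) :
    Touch G X Y := ⟨x, hx, y, hy, Or.inr e⟩

theorem Touch.of_sees {X Y : Set V} {x : V} (hx : x ∈ X) (hy : Sees G x Y) : Touch G X Y :=
  touch_iff.2 ⟨x, hx, Or.inr hy⟩

/-! ### reachability and connected sets -/

theorem RIn.refl (X : Set V) (u : V) : RIn G X u u := Relation.ReflTransGen.refl

theorem RIn.trans {X : Set V} {u v w : V} (h : RIn G X u v) (h' : RIn G X v w) : RIn G X u w :=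
  Relation.ReflTransGen.trans h h'

theorem RIn.single {X : Set V} {u v : V} (e : G.Adj u v) (hv : v ∈ X) : RIn G X u v :=
  Relation.ReflTransGen.single ⟨e, hv⟩

theorem RIn.tail {X : Set V} {u v w : V} (h : RIn G X u v) (e : G.Adj v w) (hw : w ∈ X) :
    RIn G X u w := Relation.ReflTransGen.tail h ⟨e, hw⟩

theorem RIn.head {X : Set V} {u v w : V} (e : G.Adj u v) (hv : v ∈ X) (h : RIn G X v w) :
    RIn G X u w := Relation.ReflTransGen.head ⟨e, hv⟩ h

theorem RIn.mono {X Y : Set V} {u v : V} (h : RIn G X u v) (hXY : X ⊆ Y) : RIn G Y u v := by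
  induction h with
  | refl => exact RIn.refl _ _
  | tail _ hb ih => exact ih.tail hb.1 (hXY hb.2)

theorem RIn.mem {X : Set V} {u v : V} (h : RIn G X u v) (hu : u ∈ X) : v ∈ X := by
  induction h with
  | refl => exact hu
  | tail _ hb _ => exact hb.2

theorem RIn.symm {X : Set V} {u v : V} (h : RIn G X u v) (hu : u ∈ X) : RIn G X v u := by
  induction h with
  | refl => exact RIn.refl _ _
  | tail hab hb ih => exact RIn.head hb.1.symm (RIn.mem hab hu) ih

/-- induction principle: a property closed under steps into `X` -/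
theorem RIn.closed {X : Set V} {u v : V} (h : RIn G X u v) {p : V → Prop} (hu : p u)
    (hp : ∀ a b, p a → G.Adj a b → b ∈ X → p b) : p v := by
  induction h with
  | refl => exact hu
  | tail _ hb ih => exact hp _ _ ih hb.1 hb.2

theorem Conn.nonempty {X : Set V} (h : Conn G X) : X.Nonempty := h.1

theorem Conn.rin {X : Set V} (h : Conn G X) {u v : V} (hu : u ∈ X) (hv : v ∈ X) : RIn G X u v :=
  h.2 u hu v hv

theorem conn_of_root {X : Set V} {r : V} (hr : r ∈ X) (h : ∀ v ∈ X, RIn G X r v) : Conn G X :=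
  ⟨⟨r, hr⟩, fun u hu v hv => ((h u hu).symm hr).trans (h v hv)⟩

theorem conn_singleton (x : V) : Conn G {x} :=
  conn_of_root rfl fun v hv => by rw [Set.mem_singleton_iff] at hv; subst hv; exact RIn.refl _ _

theorem Conn.un {X Y : Set V} (hX : Conn G X) (hY : Conn G Y) (h : Touch G X Y) :
    Conn G (X ∪ Y) := by
  obtain ⟨x, hx, y, hy, e⟩ := h
  have hxy : RIn G (X ∪ Y) x y := by
    rcases e with e | e
    · subst e; exact RIn.refl _ _
    · exact RIn.single e (Or.inr hy)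
  refine conn_of_root (r := x) (Or.inl hx) ?_
  rintro v (hv | hv)
  · exact (hX.rin hx hv).mono Set.subset_union_left
  · exact hxy.trans ((hY.rin hy hv).mono Set.subset_union_right)

theorem Conn.ins {X : Set V} (hX : Conn G X) {v : V} (h : v ∈ cN G X) :
    Conn G (insert v X) := by
  have := (conn_singleton (G := G) v).un hX (touch_singleton_left.2 h)
  simpa using this

theorem mem_comp {U : Set V} {v x : V} : x ∈ comp G U v ↔ v ∈ U ∧ RIn G U v x := Iff.rfl

theorem comp_subset (U : Set V) (v : V) : comp G U v ⊆ U := fun _ h => h.2.mem h.1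

theorem mem_comp_self {U : Set V} {v : V} (h : v ∈ U) : v ∈ comp G U v := ⟨h, RIn.refl _ _⟩

theorem mem_comp_of_adj {U : Set V} {v x y : V} (hx : x ∈ comp G U v) (e : G.Adj x y)
    (hy : y ∈ U) : y ∈ comp G U v := ⟨hx.1, hx.2.tail e hy⟩

theorem mem_comp_of_sees {U : Set V} {v y : V} (hy : y ∈ U) (h : Sees G y (comp G U v)) :
    y ∈ comp G U v := by
  obtain ⟨x, hx, e⟩ := h
  exact mem_comp_of_adj hx e.symm hy

theorem mem_comp_of_cN {U : Set V} {v y : V} (hy : y ∈ U) (h : y ∈ cN G (comp G U v)) :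
    y ∈ comp G U v := by
  rcases h with h | h
  · exact h
  · exact mem_comp_of_sees hy h

theorem conn_comp {U : Set V} {v : V} (h : v ∈ U) : Conn G (comp G U v) := by
  refine conn_of_root (mem_comp_self h) ?_
  rintro x ⟨-, hx⟩
  induction hx with
  | refl => exact RIn.refl _ _
  | tail hab hb ih => exact ih.tail hb.1 ⟨h, RIn.tail hab hb.1 hb.2⟩

theorem Conn.subset_comp {U X : Set V} (hX : Conn G X) (hXU : X ⊆ U) {v : V}
    (h : Touch G X (comp G U v)) : X ⊆ comp G U v := by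
  obtain ⟨x, hx, hx'⟩ := touch_iff.1 h
  have hxc := mem_comp_of_cN (hXU hx) hx'
  intro y hy
  exact ⟨hxc.1, hxc.2.trans ((hX.rin hx hy).mono hXU)⟩

theorem Conn.subset_comp_of_mem {U X : Set V} (hX : Conn G X) (hXU : X ⊆ U) {v : V}
    (hv : v ∈ X) : X ⊆ comp G U v :=
  hX.subset_comp hXU (Touch.of_mem hv (mem_comp_self (hXU hv)))

theorem comp_eq_of_mem {U : Set V} {v x : V} (hx : x ∈ comp G U v) : comp G U x = comp G U v := by
  have hxU := comp_subset U v hx
  ext y
  constructor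
  · rintro ⟨-, h⟩
    exact ⟨hx.1, hx.2.trans h⟩
  · rintro ⟨-, h⟩
    exact ⟨hxU, (hx.2.symm hx.1).trans h⟩

theorem comp_eq_of_touch {U : Set V} {v x : V} (h : Touch G (comp G U x) (comp G U v)) :
    comp G U x = comp G U v := by
  obtain ⟨y, hy, hy'⟩ := touch_iff.1 h
  have h1 := mem_comp_of_cN (comp_subset U x hy) hy'
  rw [← comp_eq_of_mem hy, comp_eq_of_mem h1]

theorem comp_anti_of_ne {U : Set V} {v x : V} (h : comp G U x ≠ comp G U v) :
    Anti G (comp G U x) (comp G U v) := by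
  rw [← not_touch]
  exact fun ht => h (comp_eq_of_touch ht)

theorem comp_anti_of_notMem {U : Set V} {v x : V} (hx : x ∈ U) (h : x ∉ comp G U v) :
    Anti G (comp G U x) (comp G U v) :=
  comp_anti_of_ne fun e => h (e ▸ mem_comp_self hx)

/-- a connected set inside `A ∪ B` with `A`, `B` anticomplete lies in one of them -/
theorem Conn.subset_or {X A B : Set V} (hX : Conn G X) (hAB : Anti G A B) (h : X ⊆ A ∪ B) :
    X ⊆ A ∨ X ⊆ B := by
  obtain ⟨r, hr⟩ := hX.nonempty
  rcases h hr with hA | hB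
  · left
    intro v hv
    refine (hX.rin hr hv).closed hA ?_
    intro a b ha e hb
    rcases h hb with h' | h'
    · exact h'
    · exact (hAB.not_adj ha h' e).elim
  · right
    intro v hv
    refine (hX.rin hr hv).closed hB ?_
    intro a b ha e hb
    rcases h hb with h' | h'
    · exact (hAB.not_adj h' ha e.symm).elim
    · exact h'

end Pool.Agent.Ehf
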