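import Pool.Agent.MP_3ad207_lc.H43.LinRev
import Pool.Agent.MP_3ad207_lc.H24.Zone

/-! The fan case of the gate theorem: facts about ears and clean families. -/

set_option autoImplicit false

namespace Pool.Agent.Ehf

variable {V : Type*} {G : SimpleGraph V} {S I : Set V}

namespace Setup

variable {h : Setup G S I} {u : V} {L R : Set V}

theorem IsEar.fan_nbr {F : Ear V} (e : h.IsEar F) (s : h.Sides u L R) (ha : F.a ∈ L)
    (hb : F.b ∈ R) {v x : V} (hv : v ∈ F.set) (hx : x ∈ HH S I) (a : G.Adj v x) :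
    x ∈ h.Sub u F.a ∨ x ∈ h.Sub u F.b := by
  obtain ⟨i, hi, rfl⟩ := Ear.mem_set.1 hv
  rcases e.nbr i hi x hx a with ⟨-, h1⟩ | ⟨-, h1⟩
  · exact Or.inl (s.sub_root_eq ha hb ▸ h1)
  · exact Or.inr (s.symm.sub_root_eq hb ha ▸ h1)

theorem IsEar.fan_anti {F : Ear V} (e : h.IsEar F) (s : h.Sides u L R) (ha : F.a ∈ L)
    (hb : F.b ∈ R) {X : Set V} (hX : X ⊆ HH S I)
    (h1 : ∀ x ∈ X, x ∉ h.Sub u F.a ∧ x ∉ h.Sub u F.b) : Anti G F.set X :=
  fun v hv x hx => ⟨fun a => e.notMem v hv (a ▸ hX hx), fun a =>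
    (e.fan_nbr s ha hb hv (hX hx) a).elim (h1 x hx).1 (h1 x hx).2⟩

theorem IsEar.fan_joins {F : Ear V} (e : h.IsEar F) (s : h.Sides u L R) (ha : F.a ∈ L)
    (hb : F.b ∈ R) {P Q : Set V} (pa : F.a ∈ P) (qb : F.b ∈ Q)
    (h1 : ∀ x ∈ h.Sub u F.a, x ∉ P → Anti G F.set {x})
    (h2 : ∀ x ∈ h.Sub u F.b, x ∉ Q → Anti G F.set {x}) : h.Joins F.set P Q := by
  refine ⟨e.conn, e.notMem, e.touch_a pa, e.touch_b qb, fun v hv x hx =>
    ⟨fun a => e.notMem v hv (a ▸ hx.1), fun a => ?_⟩⟩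
  rcases e.fan_nbr s ha hb hv hx.1 a with h3 | h3
  · exact (h1 x h3 fun c => hx.2 (Or.inl c)).not_adj hv rfl a
  · exact (h2 x h3 fun c => hx.2 (Or.inr c)).not_adj hv rfl a

variable {n : ℕ} {F : ℕ → Ear V} {al be : ℕ → V}

theorem Clean.fan_a (c : h.Clean u L R n F al be) (s : h.Sides u L R) {i : ℕ} (hi : i < n) :
    (F i).a ∈ L := s.sub_subset (c.nl.mem i hi) (c.nl.top i hi)

theorem Clean.fan_b (c : h.Clean u L R n F al be) (s : h.Sides u L R) {i : ℕ} (hi : i < n) :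
    (F i).b ∈ R := c.rev.fan_a s.symm hi

theorem Nodes.fan_le {a : ℕ → V} (N : h.Nodes u L n a al) (s : h.Sides u L R) {i j : ℕ}
    (hij : i ≤ j) (hj : j < n) : al j ∈ h.Sub u (al i) := by
  rcases hij.lt_or_eq with h1 | rfl
  · exact N.desc i j h1 hj
  · exact h.self_mem_sub s.uH (s.subset_H (N.mem _ hj))

/-- the tops of a star are incomparable -/
theorem Star.fan_incomp {a : ℕ → V} (t : h.Star n a al) (N : h.Nodes u L n a al)
    (s : h.Sides u L R) {i j : ℕ} (hi : i < n) (hj : j < n) (hne : i ≠ j) :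
    a j ∉ h.Sub u (a i) := by
  intro hc
  obtain ⟨-, e2, e3⟩ := t i j hi hj
  have h1 := N.top i hi
  have h2 : al i ∈ h.Sub u (a i) := h.hseg_subset_sub s.uH hc (e3 hne)
  exact e2 (h.sub_antisymm s.uH h1 h2)

/-- the white above the top number `j` of a star -/
theorem Star.fan_legs {a : ℕ → V} (t : h.Star n a al) (N : h.Nodes u L n a al)
    (s : h.Sides u L R) (h0 : 0 < n) :
    ∃ w : ℕ → V, (∀ j, j < n → h.Child u (al 0) (w j) ∧ a j ∈ h.Sub u (w j)) ∧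
      ∀ i j, i < n → j < n → i ≠ j → w i ≠ w j := by
  have key : ∀ j, j < n → a j ∈ h.SubO u (al 0) := fun j hj =>
    (t j 0 hj h0).1 ▸ ⟨N.top j hj, (t j 0 hj h0).2.1⟩
  refine ⟨fun j => h.hpath (al 0) (a j) 1, fun j hj => h.child_hpath s.uH (key j hj), ?_⟩
  intro i j hi hj hne e
  obtain ⟨c1, m1⟩ := h.child_hpath s.uH (key i hi)
  obtain ⟨-, m2⟩ := h.child_hpath s.uH (key j hj)
  simp only at e
  rw [← e] at m2
  have := h.hseg_subset_sub' s.uH m1 m2 ((t i j hi hj).2.2 hne)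
  rw [(t i 0 hi h0).1] at this
  exact c1.not_mem s.uH this

/-- (DEEP) -/
theorem Clean.fan_deep (c : h.Clean u L R n F al be) (s : h.Sides u L R) (hn : 2 ≤ n) {v : V}
    (h0 : (F 0).a ∈ h.Sub u v) (h1 : (F 1).a ∈ h.Sub u v) : al 1 ∈ h.Sub u v := by
  rcases h.sub_total s.uH h1 (c.nl.top 1 hn) with h2 | h2
  · exact h2
  · rcases c.kl with k | k
    · exact ((c.isEar (by omega)).a_notMem (k 0 1 Nat.zero_lt_one hn).2
        (h.sub_trans s.uH h2 h0)).elim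
    · have := h.hseg_subset_sub' s.uH h0 h1 ((k 0 1 (by omega) hn).2.2 Nat.zero_ne_one)
      rwa [(k 0 1 (by omega) hn).1] at this

theorem Clean.fan_spread (hC : ∀ F F' : Ear V, h.IsEar F → h.IsEar F' → F.a ∈ L → F.b ∈ R →
      F'.a ∈ L → F'.b ∈ R → Anti G F.set F'.set →
      (F.a ∈ h.Sub u F'.a ∨ F'.a ∈ h.Sub u F.a) ∨ (F.b ∈ h.Sub u F'.b ∨ F'.b ∈ h.Sub u F.b))
    (c : h.Clean u L R n F al be) (s : h.Sides u L R) (hn : 2 ≤ n)
    (t : h.Star n (fun i => (F i).a) al) : h.Spread u n (fun i => (F i).set) be := by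
  refine c.kr.resolve_right fun t' => ?_
  have h0 : 0 < n := by omega
  rcases hC (F 0) (F 1) (c.isEar h0) (c.isEar hn) (c.fan_a s h0) (c.fan_b s h0) (c.fan_a s hn)
    (c.fan_b s hn) (c.anti h0 hn Nat.zero_ne_one) with (e | e) | (e | e)
  · exact t.fan_incomp c.nl s hn h0 Nat.one_ne_zero e
  · exact t.fan_incomp c.nl s h0 hn Nat.zero_ne_one e
  · exact t'.fan_incomp c.nr s.symm hn h0 Nat.one_ne_zero e
  · exact t'.fan_incomp c.nr s.symm h0 hn Nat.zero_ne_one e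

theorem Spread.fan_lt {X a : ℕ → _} (k : h.Spread u n X al) (N : h.Nodes u L n a al) {i j : ℕ}
    (hij : i < j) (hj : j < n) : al j ∈ h.SubO u (al i) :=
  ⟨N.desc i j hij hj, (k i j hij hj).1⟩

end Setup

/-- links that touch a union of four sets -/
theorem NuLe.cover4 {U P Q Lo Q₁ Q₂ Q₃ Q₄ : Set V} {k₁ k₂ k₃ k₄ : ℕ}
    (hw : ∀ Y, Conn G Y → Y ⊆ U → Touch G Y P → Touch G Y Q → Touch G Y Lo)
    (hQ : Q ⊆ Q₁ ∪ Q₂ ∪ Q₃ ∪ Q₄) (n1 : NuLe G U Q₁ Lo k₁) (n2 : NuLe G U Q₂ Lo k₂)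
    (n3 : NuLe G U Q₃ Lo k₃) (n4 : NuLe G U Q₄ Lo k₄) : NuLe G U P Q (k₁ + k₂ + k₃ + k₄) := by
  classical
  intro s hs hT
  have key : ∀ {X : Set V} {k : ℕ}, NuLe G U X Lo k →
      (s.filter fun Y => Touch G Y X).card ≤ k := by
    intro X k hn
    refine hn _ (hs.mono (Finset.filter_subset _ _)) fun Y hY => ?_
    obtain ⟨a, b⟩ := Finset.mem_filter.1 hY
    exact ⟨(hT Y a).1, b, hw Y (hs.1 Y a) (hT Y a).1 (hT Y a).2.1 (hT Y a).2.2⟩
  have hsub : s ⊆ (s.filter fun Y => Touch G Y Q₁) ∪ (s.filter fun Y => Touch G Y Q₂) ∪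
      (s.filter fun Y => Touch G Y Q₃) ∪ (s.filter fun Y => Touch G Y Q₄) := by
    intro Y hY
    have := (hT Y hY).2.2.mono le_rfl hQ
    simp only [touch_union_right] at this
    simpa only [Finset.mem_union, Finset.mem_filter, hY, true_and] using this
  have h0 := Finset.card_le_card hsub
  have h1 := Finset.card_union_le ((s.filter fun Y => Touch G Y Q₁) ∪
    (s.filter fun Y => Touch G Y Q₂) ∪ (s.filter fun Y => Touch G Y Q₃))
    (s.filter fun Y => Touch G Y Q₄)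
  have h2 := Finset.card_union_le ((s.filter fun Y => Touch G Y Q₁) ∪
    (s.filter fun Y => Touch G Y Q₂)) (s.filter fun Y => Touch G Y Q₃)
  have h3 := Finset.card_union_le (s.filter fun Y => Touch G Y Q₁)
    (s.filter fun Y => Touch G Y Q₂)
  have := key n1
  have := key n2
  have := key n3
  have := key n4
  omega

end Pool.Agent.Ehf
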