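import Pool.Agent.MP_3ad207_lc.H46.FanA

/-! The fan case of the gate theorem: the six members and the pieces of the tree. -/

set_option autoImplicit false

namespace Pool.Agent.Ehf

variable {V : Type*} {G : SimpleGraph V} {S I : Set V}

namespace Setup

/-- the centre `x` of the fan with its parent `w`, and the door `g, z, o` on the other side -/
structure FanGeo (h : Setup G S I) (p : V) (A B : Set V) (w x g z o : V) (C : Finset V) :
    Prop where
  s : h.Sides p A B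
  xA : x ∈ A
  xb : x ∈ I \ S
  wx : h.Child p w x
  gB : g ∈ B
  gw : g ∈ S \ I
  gz : h.Child p g z
  zo : h.Child p z o
  mem : ∀ v, v ∈ C ↔ v = p ∨ v = w ∨ v = x ∨ v = g ∨ v = z ∨ v = o

namespace FanGeo

variable {h : Setup G S I} {p w x g z o : V} {A B : Set V} {C : Finset V}
  (q : h.FanGeo p A B w x g z o C)
include q

theorem pH : p ∈ HH S I := q.s.uH
theorem xH : x ∈ HH S I := black_mem_HH q.xb
theorem wH : w ∈ HH S I := h.top_mem_H q.pH q.wx.mem_sub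
theorem ww : w ∈ S \ I := h.white_of_adj_black q.xb q.wH q.wx.adj.symm
theorem gH : g ∈ HH S I := white_mem_HH q.gw
theorem zb : z ∈ I \ S := q.gz.black_of_white q.gw
theorem zH : z ∈ HH S I := black_mem_HH q.zb
theorem ow : o ∈ S \ I := q.zo.white_of_black q.zb
theorem oH : o ∈ HH S I := white_mem_HH q.ow
theorem zB : z ∈ B := q.s.symm.sub_subset q.gB q.gz.mem_sub
theorem oB : o ∈ B := q.s.symm.sub_subset q.zB q.zo.mem_sub
theorem wnB : w ∉ B := fun c =>
  q.s.not_mem_right q.xA (q.s.symm.sub_subset c q.wx.mem_sub)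
theorem oz : h.Sub p o ⊆ h.SubO p z := q.zo.sub_subset q.pH
theorem zg : h.SubO p g = h.Sub p z :=
  h.white_subO_eq q.pH q.gw (q.s.symm.ne q.gB) q.gz
theorem og : h.Sub p o ⊆ h.Sub p g :=
  h.sub_trans q.pH (h.sub_trans q.pH q.gz.mem_sub q.zo.mem_sub)

theorem CH : (C : Set V) ⊆ HH S I := by
  intro v hv
  rcases (q.mem v).1 hv with rfl | rfl | rfl | rfl | rfl | rfl
  exacts [q.pH, q.wH, q.xH, q.gH, q.zH, q.oH]

theorem black_C {v : V} (hv : v ∈ C) (hb : v ∈ I \ S) : v = x ∨ v = z := by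
  rcases (q.mem v).1 hv with rfl | rfl | rfl | rfl | rfl | rfl
  · exact (not_white_of_black hb q.s.white).elim
  · exact (not_white_of_black hb q.ww).elim
  · exact Or.inl rfl
  · exact (not_white_of_black hb q.gw).elim
  · exact Or.inr rfl
  · exact (not_white_of_black hb q.ow).elim

theorem mem_HC {v : V} (hv : v ∈ HH S I) (hC : v ∉ C) (h1 : ¬ G.Adj v x) (h2 : ¬ G.Adj v z) :
    v ∈ HC G S I C :=
  ⟨hv, hC, fun y hy hb => by rcases q.black_C hy hb with rfl | rfl <;> assumption⟩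

theorem mem_up {v : V} : v ∈ h.Sub x w ↔ v ∈ HH S I ∧ v ∉ h.Sub p x := by
  rw [← q.wx.compl_sub q.pH]; rfl

theorem mem_upz {v : V} : v ∈ h.Sub z g ↔ v ∈ HH S I ∧ v ∉ h.Sub p z := by
  rw [← q.gz.compl_sub q.pH]; rfl

theorem root_x {v : V} (hv : v ∈ B) : h.Sub x v = h.Sub p v := q.s.symm.sub_root_eq hv q.xA

theorem root_xO {v : V} (hv : v ∈ B) : h.SubO x v = h.SubO p v := q.s.symm.subO_root_eq hv q.xA

theorem root_zo : h.Sub z o = h.Sub p o := q.zo.sub_eq_root q.pH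

theorem root_zoO : h.SubO z o = h.SubO p o := by rw [SubO, SubO, q.root_zo]

theorem B_up {v : V} (hv : v ∈ B) : v ∈ h.SubO x w :=
  ⟨q.mem_up.2 ⟨q.s.symm.subset_H hv, q.s.not_mem_sub q.xA hv⟩, fun e => q.wnB (e ▸ hv)⟩

/-- a vertex of `B` below `z` that is not `z`, `o` and not adjacent to `z` survives -/
theorem HC_of_below_z {v : V} (hv : v ∈ h.SubO p z) (ho : v ≠ o) (hz : ¬ G.Adj v z) :
    v ∈ HC G S I C := by
  have hB : v ∈ B := q.s.symm.subO_subset q.zB hv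
  refine q.mem_HC hv.1.1 (fun c => ?_) (fun e => q.s.anti.not_adj q.xA hB e.symm) hz
  rcases (q.mem v).1 c with rfl | rfl | rfl | rfl | rfl | rfl
  · exact q.s.symm.not_mem hB
  · exact q.wnB hB
  · exact q.s.not_mem_right q.xA hB
  · exact q.gz.not_mem q.pH hv.1
  · exact hv.2 rfl
  · exact ho rfl

theorem low_HC : h.SubO p o ⊆ HC G S I C := fun _ hv =>
  q.HC_of_below_z (q.oz hv.1) hv.2 fun e =>
    (h.anti_single_subO q.pH q.zH (q.zo.not_mem q.pH)).not_adj rfl hv e.symm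

theorem oC : o ∈ C := (q.mem o).2 (by simp)
theorem pC : p ∈ C := (q.mem p).2 (by simp)
theorem xC : x ∈ C := (q.mem x).2 (by simp)
theorem zC : z ∈ C := (q.mem z).2 (by simp)
theorem gC : g ∈ C := (q.mem g).2 (by simp)
theorem wC : w ∈ C := (q.mem w).2 (by simp)

theorem anti_low : Anti G (HC G S I C \ h.SubO p o) (h.SubO p o) :=
  (h.anti_subO_compl q.pH).symm.mono (fun _ hv => ⟨hv.1.1, fun c =>
    hv.2 ⟨c, fun e => hv.1.2.1 ((Set.mem_singleton_iff.1 e) ▸ q.oC)⟩⟩) le_rfl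

theorem conn_cen : Conn G (h.SubO x w \ h.Sub p g) := by
  rw [← q.root_x q.gB]
  exact h.conn_subO_diff_white q.xH q.ww q.wx.adj.ne (q.B_up q.gB) q.gw

theorem cen_low : Anti G (h.SubO x w \ h.Sub p g) (h.SubO p o) :=
  (h.anti_subO_compl q.pH).symm.mono (fun _ hv => ⟨hv.1.1.1, fun c => hv.2 (q.og c)⟩) le_rfl

theorem cen_x : Anti G (h.SubO x w \ h.Sub p g) {x} :=
  (h.anti_single_subO q.xH q.xH (h.root_not_mem_sub q.xH q.wx.adj.ne)).symm.mono
    Set.sdiff_subset le_rfl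

theorem cen_z : Anti G (h.SubO x w \ h.Sub p g) {z} :=
  (h.anti_subO_compl q.pH).symm.mono (fun _ hv => ⟨hv.1.1.1, hv.2⟩)
    (by simpa using q.gz.mem_subO)

theorem cen_black : Anti G (h.SubO x w \ h.Sub p g) ((C : Set V) ∩ (I \ S)) :=
  (q.cen_x.union_right q.cen_z).mono le_rfl fun _ hv => q.black_C hv.1 hv.2

/-- everything that is not a member and not below `x` or `z` is central -/
theorem mem_cen {v : V} (hv : v ∈ HH S I) (hC : v ∉ C) (h1 : v ∉ h.Sub p x)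
    (h2 : v ∉ h.Sub p z) : v ∈ h.SubO x w \ h.Sub p g := by
  refine ⟨⟨q.mem_up.2 ⟨hv, h1⟩, fun e => hC ((Set.mem_singleton_iff.1 e) ▸ q.wC)⟩, fun c => h2 ?_⟩
  rw [← q.zg]
  exact ⟨c, fun e => hC ((Set.mem_singleton_iff.1 e) ▸ q.gC)⟩

theorem child_z {t : V} (ht : t ∈ S \ I) (e : G.Adj z t) (hne : t ≠ g) : h.Child p z t := by
  rcases h.nbr_cases q.pH q.zH (white_mem_HH ht) e with c | ⟨-, c⟩
  · exact c
  · exact (hne (c.trans (q.gz.par_eq q.pH))).elim

theorem child_x {t : V} (ht : t ∈ S \ I) (e : G.Adj x t) (hne : t ≠ w) : h.Child p x t := by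
  rcases h.nbr_cases q.pH q.xH (white_mem_HH ht) e with c | ⟨-, c⟩
  · exact c
  · exact (hne (c.trans (q.wx.par_eq q.pH))).elim

theorem tooth_z {t : V} (ht : t ∈ S \ I) (e : G.Adj z t) (h1 : t ≠ g) (h2 : t ≠ o) :
    h.SubO z t ⊆ HC G S I C \ h.SubO p o := by
  have c := q.child_z ht e h1
  intro v hv
  have hv' : v ∈ h.SubO p t := by rwa [SubO, c.sub_eq_root q.pH] at hv
  have hn : v ∉ h.Sub p o := (c.anti q.pH q.zo h2).notMem hv'.1
  exact ⟨q.HC_of_below_z (c.sub_subset q.pH hv'.1) (fun e => hn (by rw [e]; exact h.self_mem_sub q.pH q.oH))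
    fun a => (h.anti_single_subO q.pH q.zH (c.not_mem q.pH)).not_adj rfl hv' a.symm,
    fun c' => hn c'.1⟩

theorem tooth_x {t : V} (ht : t ∈ S \ I) (e : G.Adj x t) (h1 : t ≠ w) :
    h.SubO x t ⊆ HC G S I C \ h.SubO p o := by
  have c := q.child_x ht e h1
  intro v hv
  have hv' : v ∈ h.SubO p t := by rwa [SubO, c.sub_eq_root q.pH] at hv
  have hx : v ∈ h.SubO p x := c.sub_subset q.pH hv'.1
  have hA : v ∈ A := q.s.subO_subset q.xA hx
  refine ⟨q.mem_HC hv'.1.1 (fun c' => ?_)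
    (fun a => (h.anti_single_subO q.pH q.xH (c.not_mem q.pH)).not_adj rfl hv' a.symm)
    (q.s.anti.not_adj hA q.zB), fun c' => q.s.symm.not_mem_sub q.oB hA c'.1⟩
  rcases (q.mem v).1 c' with rfl | rfl | rfl | rfl | rfl | rfl
  · exact q.s.not_mem hA
  · exact q.wx.not_mem q.pH hx.1
  · exact hx.2 rfl
  · exact q.s.not_mem_right hA q.gB
  · exact q.s.not_mem_right hA q.zB
  · exact q.s.not_mem_right hA q.oB

/-- the four kinds of vertices outside the wall -/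
theorem kinds {K : Set V} (hK : Anti G K (h.SubO p o)) :
    HC G S I C ∩ K ⊆ (K ∩ (HH S I \ (h.Sub z g ∪ h.Sub z o))) ∪ (K ∩ (HH S I \ h.Sub x w)) ∪
      (h.SubO z g \ h.Sub z p) ∪ (A \ h.Sub p w) := by
  rintro v ⟨⟨hv, hC, -⟩, hvK⟩
  by_cases h1 : v ∈ h.Sub p x
  · exact Or.inl (Or.inl (Or.inr ⟨hvK, hv, fun c => (q.mem_up.1 c).2 h1⟩))
  by_cases h2 : v ∈ h.Sub p z
  · refine Or.inl (Or.inl (Or.inl ⟨hvK, hv, ?_⟩))
    rintro (c | c)
    · exact (q.mem_upz.1 c).2 h2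
    · rw [q.root_zo] at c
      exact hK.notMem hvK ⟨c, fun e => hC ((Set.mem_singleton_iff.1 e) ▸ q.oC)⟩
  rcases q.s.mem_cases hv with rfl | hA | hB
  · exact (hC q.pC).elim
  · refine Or.inr ⟨hA, fun c => ?_⟩
    by_cases e : w = p
    · obtain rfl := e
      exact h1 (q.s.eq_sub_of_adj q.xA q.wx.adj ▸ hA)
    · rw [← h.white_subO_eq q.pH q.ww e q.wx] at h1
      exact h1 ⟨c, fun e => hC ((Set.mem_singleton_iff.1 e) ▸ q.wC)⟩
  · refine Or.inl (Or.inr ⟨⟨q.mem_upz.2 ⟨hv, h2⟩,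
      fun e => hC ((Set.mem_singleton_iff.1 e) ▸ q.gC)⟩, ?_⟩)
    have := q.s.compl_sub_eq q.zB
    rw [← this] at hB
    exact hB.2

end FanGeo

end Setup

end Pool.Agent.Ehf
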