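import Pool.Agent.MP_3ad207_lc.H46.K3a

/-! K(3,18): three anticomplete connected sets are not all touched by 18 anticomplete ones. -/

set_option autoImplicit false

namespace Pool.Agent.Ehf

variable {V : Type*} {G : SimpleGraph V}

/-- three rows with unique touchers for all three columns are impossible -/
theorem EHF.star3 (hG : EHF G) {X₁ X₂ X₃ Y₁ Y₂ Y₃ : Set V} (c1 : Conn G X₁) (c2 : Conn G X₂)
    (c3 : Conn G X₃) (a12 : Anti G X₁ X₂) (a13 : Anti G X₁ X₃) (a23 : Anti G X₂ X₃)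
    (y1 : Conn G Y₁) (y2 : Conn G Y₂) (y3 : Conn G Y₃) (b12 : Anti G Y₁ Y₂) (b13 : Anti G Y₁ Y₃)
    (b23 : Anti G Y₂ Y₃) {u₁ u₂ u₃ v₁ v₂ v₃ w₁ w₂ w₃ : V}
    (hu1 : UT G Y₁ X₁ u₁) (hv1 : UT G Y₁ X₂ v₁) (hw1 : UT G Y₁ X₃ w₁)
    (hu2 : UT G Y₂ X₁ u₂) (hv2 : UT G Y₂ X₂ v₂) (hw2 : UT G Y₂ X₃ w₂)
    (hu3 : UT G Y₃ X₁ u₃) (hv3 : UT G Y₃ X₂ v₃) (hw3 : UT G Y₃ X₃ w₃) : False := by
  have zone : ∀ {X Y Y' : Set V} {p q : V}, Conn G X → Anti G Y Y' → UT G Y X p → UT G Y' X q →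
      ∃ d, 2 ≤ d ∧ IP G p q d X := by
    intro X Y Y' p q cX hA hp hq
    obtain ⟨d, hd⟩ := cX.exists_ip hp.2.1 hq.2.1
    exact ⟨d, hd.two_le (hA.ne hp.1 hq.1) (hA.not_adj hp.1 hq.1), hd⟩
  have link : ∀ {X X' Y : Set V} {p q : V}, Conn G Y → UT G Y X p → UT G Y X' q →
      ∃ l, Lk G X X' p q l Y := by
    intro X X' Y p q cY hp hq
    obtain ⟨l, hl⟩ := cY.exists_ipc hp.1 hq.1
    exact ⟨l, hl, hp.anti, hq.anti⟩
  obtain ⟨d1, g1, z1⟩ := zone c1 b12 hu1 hu2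
  obtain ⟨d2, g2, z2⟩ := zone c1 b13 hu1 hu3
  obtain ⟨d3, g3, z3⟩ := zone c1 b23 hu2 hu3
  obtain ⟨e1, g4, z4⟩ := zone c2 b12 hv1 hv2
  obtain ⟨e2, g5, z5⟩ := zone c2 b13 hv1 hv3
  obtain ⟨e3, g6, z6⟩ := zone c2 b23 hv2 hv3
  obtain ⟨f1, g7, z7⟩ := zone c3 b12 hw1 hw2
  obtain ⟨f2, g8, z8⟩ := zone c3 b13 hw1 hw3
  obtain ⟨f3, g9, z9⟩ := zone c3 b23 hw2 hw3
  obtain ⟨_, l1⟩ := link y1 hu1 hv1
  obtain ⟨_, l2⟩ := link y2 hu2 hv2
  obtain ⟨_, l3⟩ := link y3 hu3 hv3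
  obtain ⟨_, l4⟩ := link y1 hu1 hw1
  obtain ⟨_, l5⟩ := link y2 hu2 hw2
  obtain ⟨_, l6⟩ := link y3 hu3 hw3
  obtain ⟨_, l7⟩ := link y1 hv1 hw1
  obtain ⟨_, l8⟩ := link y2 hv2 hw2
  obtain ⟨_, l9⟩ := link y3 hv3 hw3
  have o1 := hG.t2 l1 l2 l3 (Sep2.of_anti b12 _ _ _ _) (Sep2.of_anti b13 _ _ _ _)
    (Sep2.of_anti b23 _ _ _ _) a12 z1 z2 z3 z4 z5 z6 (by omega) (by omega) (by omega)
  have o2 := hG.t2 l4 l5 l6 (Sep2.of_anti b12 _ _ _ _) (Sep2.of_anti b13 _ _ _ _)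
    (Sep2.of_anti b23 _ _ _ _) a13 z1 z2 z3 z7 z8 z9 (by omega) (by omega) (by omega)
  have o3 := hG.t2 l7 l8 l9 (Sep2.of_anti b12 _ _ _ _) (Sep2.of_anti b13 _ _ _ _)
    (Sep2.of_anti b23 _ _ _ _) a23 z4 z5 z6 z7 z8 z9 (by omega) (by omega) (by omega)
  rw [Nat.odd_iff] at o1 o2 o3
  omega

/-- a vertex anticomplete to both end columns touches at most two rows -/
theorem EHF.not_three_rows (hG : EHF G) {A B : Set V} {f g h : ℕ → V} {n m k : ℕ} {x : V}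
    (cA : Conn G A) (cB : Conn G B) (hAB : Anti G A B) (hf : Row G A B f n) (hg : Row G A B g m)
    (hh : Row G A B h k) (a1 : Anti G (seg f 0 n) (seg g 0 m)) (a2 : Anti G (seg f 0 n) (seg h 0 k))
    (a3 : Anti G (seg g 0 m) (seg h 0 k)) (xA : Anti G {x} A) (xB : Anti G {x} B)
    (x1 : x ∈ cN G (seg f 0 n)) (x2 : x ∈ cN G (seg g 0 m)) (x3 : x ∈ cN G (seg h 0 k)) :
    False := by
  have n1 : x ∉ seg f 0 n := fun e => anti_iff.1 a1 x e x2
  have n2 : x ∉ seg g 0 m := fun e => anti_iff.1 a3 x e x3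
  have n3 : x ∉ seg h 0 k := fun e => anti_iff.1 a2.symm x e x1
  obtain ⟨a, b, l1⟩ := (x1.resolve_left n1).exists_fl
  obtain ⟨c, d, l2⟩ := (x2.resolve_left n2).exists_fl
  obtain ⟨p, q, l3⟩ := (x3.resolve_left n3).exists_fl
  have t : IPc G x x 0 {x} := IPc.refl rfl
  have u : ∀ Y : Set V, Anti G Y ({x} \ {x}) := fun Y => by simpa using anti_empty_right
  have o1 := hG.delta cA cB hAB hf hg a1 t xA xB (by simpa using n1) (by simpa using n2) (u _) (u _)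
    l1 l2
  have o2 := hG.delta cA cB hAB hf hh a2 t xA xB (by simpa using n1) (by simpa using n3) (u _) (u _)
    l1 l3
  have o3 := hG.delta cA cB hAB hg hh a3 t xA xB (by simpa using n2) (by simpa using n3) (u _) (u _)
    l2 l3
  rw [Nat.odd_iff] at o1 o2 o3
  omega

/-- common data of the last step: rows `f` (hat side), `p` (other end), `q` (middle), `r` (free)
and the path `g` in the middle column -/
structure Core (G : SimpleGraph V) (A B : Set V) (f p q r g : ℕ → V) (n m k n₀ t : ℕ) : Prop where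
  cA : Conn G A
  cB : Conn G B
  hAB : Anti G A B
  rf : Row G A B f n
  rp : Row G A B p m
  rq : Row G A B q k
  rr : Row G A B r n₀
  pos : 0 < m
  fp : Anti G (seg f 0 n) (seg p 0 m)
  fq : Anti G (seg f 0 n) (seg q 0 k)
  fr : Anti G (seg f 0 n) (seg r 0 n₀)
  pq : Anti G (seg p 0 m) (seg q 0 k)
  pr : Anti G (seg p 0 m) (seg r 0 n₀)
  qr : Anti G (seg q 0 k) (seg r 0 n₀)
  ip : IsIP G g t
  tpos : 0 < t
  gA : Anti G (seg g 0 t) A
  gB : Anti G (seg g 0 t) B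
  gr : Anti G (seg g 0 t) (seg r 0 n₀)
  gf : Anti G (seg g 1 t) (seg f 0 n)
  gp : Anti G (seg g 0 (t - 1)) (seg p 0 m)
  gq : Touch G (seg g 1 t) (seg q 0 k)
  g0q : g 0 ∉ cN G (seg q 0 k)

theorem Core.rev {A B : Set V} {f p q r g : ℕ → V} {n m k n₀ t : ℕ}
    (h : Core G A B f p q r g n m k n₀ t) :
    Core G B A (fun i => f (n - i)) (fun i => p (m - i)) (fun i => q (k - i))
      (fun i => r (n₀ - i)) g n m k n₀ t := by
  refine ⟨h.cB, h.cA, h.hAB.symm, h.rf.rev, h.rp.rev, h.rq.rev, h.rr.rev, h.pos, ?_, ?_, ?_, ?_,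
    ?_, ?_, h.ip, h.tpos, h.gB, h.gA, ?_, ?_, ?_, ?_, ?_⟩ <;> simp only [seg_rev]
  exacts [h.fp, h.fq, h.fr, h.pq, h.pr, h.qr, h.gr, h.gf, h.gp, h.gq, h.g0q]

theorem Core.e_notMem {A B : Set V} {f p q r g : ℕ → V} {n m k n₀ t : ℕ}
    (h : Core G A B f p q r g n m k n₀ t) : g 0 ∉ seg f 0 n := fun e =>
  h.gf.not_adj (apply_mem_seg le_rfl h.tpos) e (h.ip.adj_succ h.tpos).symm

theorem Core.e'_notMem {A B : Set V} {f p q r g : ℕ → V} {n m k n₀ t : ℕ}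
    (h : Core G A B f p q r g n m k n₀ t) : g t ∉ seg p 0 m := fun e =>
  h.gp.not_adj (apply_mem_seg (Nat.zero_le _) le_rfl) e (h.ip.adj_pred h.tpos le_rfl).symm

/-- the far end of the path sees its row in two vertices or in one inner vertex -/
theorem Core.inner (hG : EHF G) {A B : Set V} {f p q r g : ℕ → V} {n m k n₀ t a b c d : ℕ}
    (h : Core G A B f p q r g n m k n₀ t) (h1 : FL G (g 0) f n a b) (hab : a < b)
    (hcd : c < d) (hd : d ≤ m) (Z' : Set V) (hZ' : Z' ⊆ seg p (c + 1) (d - 1))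
    (cZ : Conn G (seg g 1 t ∪ Z')) (hc : p c ∈ cN G (seg g 1 t ∪ Z'))
    (hd' : p d ∈ cN G (seg g 1 t ∪ Z')) (before : ∀ i, i < c → ¬ G.Adj (g t) (p i))
    (after : ∀ i, d < i → i ≤ m → ¬ G.Adj (g t) (p i)) : False := by
  have tp := h.tpos
  have sI : ini p c ⊆ seg p 0 m := ini_subset_seg p (by omega)
  have sF : seg p (d + 1) m ⊆ seg p 0 m := seg_mono (Nat.zero_le _) le_rfl
  have sZ : Z' ⊆ seg p 0 m := hZ'.trans (seg_mono (Nat.zero_le _) (by omega))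
  have s1 : seg g 1 t ⊆ seg g 0 t := seg_mono (Nat.zero_le _) le_rfl
  have s0 : ({g 0} : Set V) ⊆ seg g 0 t := by simpa using apply_mem_seg le_rfl (Nat.zero_le _)
  have s0' : ({g 0} : Set V) ⊆ seg g 0 (t - 1) := by
    simpa using apply_mem_seg le_rfl (Nat.zero_le _)
  have gout : ∀ Q : Set V, Q ⊆ seg p 0 m → (∀ y ∈ Q, ¬ G.Adj (g t) y) → Anti G (seg g 1 t) Q := by
    rintro Q hQ hy x ⟨i, i1, i2, rfl⟩ y hy'
    rcases Nat.lt_or_eq_of_le i2 with hi | rfl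
    · exact h.gp _ (apply_mem_seg (Nat.zero_le _) (by omega)) _ (hQ hy')
    · exact ⟨fun e => h.e'_notMem (e ▸ hQ hy'), hy y hy'⟩
  obtain ⟨c1, t1⟩ := h.rp.conn_ini (a := c) (by omega) h.cA le_rfl
  obtain ⟨c3, t3⟩ := h.rp.conn_fin (b := d) hd h.cB le_rfl
  have e1 : insert (p c) (ini p c) ⊆ seg p 0 c := by
    rintro x (rfl | ⟨i, hi, rfl⟩)
    · exact apply_mem_seg (Nat.zero_le _) le_rfl
    · exact apply_mem_seg (Nat.zero_le _) hi.le
  have e3 : insert (p d) (seg p (d + 1) m) ⊆ seg p d m := by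
    rintro x (rfl | hx)
    · exact apply_mem_seg le_rfl hd
    · exact seg_mono (by omega) le_rfl hx
  have iniseg : ∀ i j, c < i → j ≤ m → Anti G (ini p c) (seg p i j) := by
    rintro i j hi hj x ⟨k, hk, rfl⟩ y ⟨l, l1, l2, rfl⟩
    exact ⟨h.rp.ip.ne (by omega) (by omega) (by omega), h.rp.ip.not_adj (by omega) (by omega)⟩
  refine hG.k4_rows (Z := seg g 1 t ∪ Z') (A₁ := ini p c) (A₃ := seg p (d + 1) m) (u₁ := p c)
    (u₃ := p d) h.cA h.cB h.hAB h.rf h.rr h.fr h1 hab h.e_notMem ?_ cZ ?_ hc hd' ?_ c1 t1 c3 t3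
    ?_ ?_ (h.rp.ip.ne (by omega) hd (by omega)) ?_ ?_
  · simp only [anti_union_right]
    exact ⟨⟨⟨⟨h.gA.mono s0 le_rfl, h.gB.mono s0 le_rfl⟩, h.gr.mono s0 le_rfl⟩, h.gp.mono s0' sI⟩,
      h.gp.mono s0' sF⟩
  · exact Or.inr ⟨g 1, Or.inl (apply_mem_seg le_rfl tp), h.ip.adj_succ tp⟩
  · simp only [anti_union_left, anti_union_right]
    refine ⟨⟨⟨⟨⟨⟨h.gA.mono s1 le_rfl, ?_⟩, h.gB.mono s1 le_rfl, ?_⟩, h.gf,
      (h.fp.mono le_rfl sZ).symm⟩, h.gr.mono s1 le_rfl, h.pr.mono sZ le_rfl⟩, gout _ sI ?_, ?_⟩,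
      gout _ sF ?_, ?_⟩
    · exact ((h.rp.antiA (by omega) (by omega)).mono le_rfl hZ').symm
    · exact ((h.rp.antiB (by omega)).mono le_rfl hZ').symm
    · rintro y ⟨i, hi, rfl⟩; exact before i hi
    · exact ((iniseg _ _ (by omega) (by omega)).mono le_rfl hZ').symm
    · rintro y ⟨i, i1, i2, rfl⟩; exact after i (by omega) i2
    · exact (h.rp.ip.anti_seg (by omega) le_rfl).mono hZ' le_rfl
  · simp only [anti_union_right]
    refine ⟨⟨⟨((h.rp.antiB (by omega)).mono le_rfl e1).symm,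
      (h.rp.ip.anti_seg (by omega) le_rfl).mono e1 le_rfl⟩, ?_⟩, ?_⟩
    · exact (h.fp.mono le_rfl (e1.trans (seg_mono le_rfl (by omega)))).symm
    · exact h.pr.mono (e1.trans (seg_mono le_rfl (by omega))) le_rfl
  · simp only [anti_union_right]
    refine ⟨⟨⟨((h.rp.antiA (by omega) le_rfl).mono le_rfl e3).symm,
      ((iniseg _ _ hcd le_rfl).mono le_rfl e3).symm⟩, ?_⟩, ?_⟩
    · exact (h.fp.mono le_rfl (e3.trans (seg_mono (Nat.zero_le _) le_rfl))).symm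
    · exact h.pr.mono (e3.trans (seg_mono (Nat.zero_le _) le_rfl)) le_rfl
  · exact (h.gp.ne (s0' rfl) (apply_mem_seg (Nat.zero_le _) (by omega))).symm
  · exact (h.gp.ne (s0' rfl) (apply_mem_seg (Nat.zero_le _) hd)).symm

/-- the far end of the path sees only the last vertex of its row -/
theorem Core.last (hG : EHF G) {A B : Set V} {f p q r g : ℕ → V} {n m k n₀ t a b : ℕ}
    (h : Core G A B f p q r g n m k n₀ t) (h1 : FL G (g 0) f n a b) (hab : a < b)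
    (h2 : FL G (g t) p m m m) : False := by
  classical
  have tp := h.tpos
  have mp := h.pos
  have s1 : seg g 1 t ⊆ seg g 0 t := seg_mono (Nat.zero_le _) le_rfl
  have s0 : ({g 0} : Set V) ⊆ seg g 0 t := by simpa using apply_mem_seg le_rfl (Nat.zero_le _)
  have s0' : ({g 0} : Set V) ⊆ seg g 0 (t - 1) := by
    simpa using apply_mem_seg le_rfl (Nat.zero_le _)
  have mm : p m ∈ seg p 0 m := apply_mem_seg (Nat.zero_le _) le_rfl
  -- the last vertex of the path touching the middle row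
  obtain ⟨x, ⟨j, j1, j2, rfl⟩, hx⟩ := touch_iff.1 h.gq
  obtain ⟨-, l, -, l2, -, hl, -, lmax⟩ :=
    exists_first_last (p := fun i => g i ∈ cN G (seg q 0 k)) ⟨j, j2, hx⟩
  have lj : j ≤ l := by
    by_contra hc
    exact lmax j (by omega) j2 hx
  have ln : g l ∉ seg q 0 k := by
    intro e
    rcases Nat.lt_or_eq_of_le l2 with hl' | rfl
    · exact lmax (l + 1) (by omega) hl' (Or.inr ⟨g l, e, (h.ip.adj_succ hl').symm⟩)
    · exact h.pq.not_adj mm e h2.adjA.symm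
  obtain ⟨c, d, h3⟩ := (hl.resolve_left ln).exists_fl
  have sl : seg g l t ⊆ seg g 0 t := seg_mono (Nat.zero_le _) le_rfl
  have uq : Anti G (seg q 0 k) (seg g l t \ {g l}) := by
    refine Anti.symm (anti_iff.2 fun y hy => ?_)
    obtain ⟨i, i1, i2, rfl⟩ := seg_diff_first g l t hy
    exact lmax i (by omega) i2
  have up : Anti G (seg p 0 m) (seg g l t \ {g t}) := by
    refine h.gp.symm.mono le_rfl fun y hy => ?_
    obtain ⟨i, -, i2, rfl⟩ := seg_diff_last g l t hy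
    exact apply_mem_seg (Nat.zero_le _) (by omega)
  have o := hG.delta h.cA h.cB h.hAB h.rq h.rp h.pq.symm (h.ip.ipc_seg l2 le_rfl)
    (h.gA.mono sl le_rfl) (h.gB.mono sl le_rfl) (by
      rw [Set.disjoint_left]
      intro y hy hy'
      by_cases e : y = g l
      · exact ln (e ▸ hy')
      · exact uq.notMem hy' ⟨hy, e⟩) (by
      rw [Set.disjoint_left]
      intro y hy hy'
      by_cases e : y = g t
      · exact h.e'_notMem (e ▸ hy')
      · exact up.notMem hy' ⟨hy, e⟩) uq up h3 h2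
  have hcd : c < d := by
    have := h3.le
    rw [Nat.odd_iff] at o
    omega
  have hdk := h3.le'
  -- the first vertex of the middle row touching the path
  have hex : ∃ i, q i ∈ cN G (seg g 1 t) :=
    ⟨c, Or.inr ⟨g l, apply_mem_seg (by omega) l2, h3.adjA.symm⟩⟩
  have τ1 := Nat.find_spec hex
  have τ2 : ∀ i, i < Nat.find hex → q i ∉ cN G (seg g 1 t) := fun i hi => Nat.find_min hex hi
  have τ3 : Nat.find hex ≤ c :=
    Nat.find_min' hex (Or.inr ⟨g l, apply_mem_seg (by omega) l2, h3.adjA.symm⟩)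
  generalize Nat.find hex = τ at τ1 τ2 τ3
  obtain ⟨c1, t1⟩ := h.rq.conn_ini (a := τ) (by omega) h.cA le_rfl
  have sI : ini q τ ⊆ seg q 0 k := ini_subset_seg q (by omega)
  have e1 : insert (q τ) (ini q τ) ⊆ seg q 0 τ := by
    rintro x (rfl | ⟨i, hi, rfl⟩)
    · exact apply_mem_seg (Nat.zero_le _) le_rfl
    · exact apply_mem_seg (Nat.zero_le _) hi.le
  have e1' : insert (q τ) (ini q τ) ⊆ seg q 0 k := e1.trans (seg_mono le_rfl (by omega))
  have e3 : insert (p m) (∅ : Set V) ⊆ seg p m m := by simp [seg_self]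
  have e3' : insert (p m) (∅ : Set V) ⊆ seg p 0 m := by simpa using mm
  have g0q : Anti G {g 0} (seg q 0 k) := anti_iff.2 (by simpa using h.g0q)
  refine hG.k4_rows (Z := seg g 1 t) (A₁ := ini q τ) (A₃ := ∅) (u₁ := q τ) (u₃ := p m) h.cA h.cB
    h.hAB h.rf h.rr h.fr h1 hab h.e_notMem ?_ (h.ip.conn_seg tp le_rfl) ?_ τ1 ?_ ?_ c1 t1
    (by simpa using h.cB) (by simpa using h.rp.last) ?_ ?_ ?_ ?_ ?_
  · simp only [anti_union_right]
    exact ⟨⟨⟨⟨h.gA.mono s0 le_rfl, h.gB.mono s0 le_rfl⟩, h.gr.mono s0 le_rfl⟩, g0q.mono le_rfl sI⟩,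
      anti_empty_right⟩
  · exact Or.inr ⟨g 1, apply_mem_seg le_rfl tp, h.ip.adj_succ tp⟩
  · exact Or.inr ⟨g t, apply_mem_seg tp le_rfl, h2.adjA.symm⟩
  · simp only [anti_union_right]
    refine ⟨⟨⟨⟨⟨h.gA.mono s1 le_rfl, h.gB.mono s1 le_rfl⟩, h.gf⟩, h.gr.mono s1 le_rfl⟩, ?_⟩,
      anti_empty_right⟩
    refine Anti.symm (anti_iff.2 ?_)
    rintro y ⟨i, hi, rfl⟩
    exact τ2 i hi
  · simp only [anti_union_right]
    exact ⟨⟨⟨((h.rq.antiB (by omega)).mono le_rfl e1).symm, anti_empty_right⟩,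
      (h.fq.mono le_rfl e1').symm⟩, h.qr.mono e1' le_rfl⟩
  · simp only [anti_union_right]
    exact ⟨⟨⟨((h.rp.antiA mp le_rfl).mono le_rfl e3).symm, h.pq.mono e3' sI⟩,
      (h.fp.mono le_rfl e3').symm⟩, h.pr.mono e3' le_rfl⟩
  · exact (h.pq.ne mm (e1' (Or.inl rfl))).symm
  · exact (g0q.ne rfl (e1' (Or.inl rfl))).symm
  · exact (h.gp.ne (s0' rfl) mm).symm

theorem Core.false (hG : EHF G) {A B : Set V} {f p q r g : ℕ → V} {n m k n₀ t a b c d : ℕ}
    (h : Core G A B f p q r g n m k n₀ t) (h1 : FL G (g 0) f n a b) (hab : a < b)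
    (h2 : FL G (g t) p m c d) : False := by
  have tp := h.tpos
  have l1 := h2.le
  have l2 := h2.le'
  have l3 := h1.le'
  have cJ := h.ip.conn_seg tp le_rfl
  have mt : g t ∈ seg g 1 t := apply_mem_seg tp le_rfl
  rcases Nat.lt_or_eq_of_le l1 with hcd | rfl
  · refine h.inner hG h1 hab hcd l2 ∅ (Set.empty_subset _) (by simpa using cJ) ?_ ?_ h2.before
      h2.after
    · exact Or.inr ⟨g t, Or.inl mt, h2.adjA.symm⟩
    · exact Or.inr ⟨g t, Or.inl mt, h2.adjB.symm⟩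
  · by_cases c0 : c = 0
    · subst c0
      have h2' := h2.rev
      simp only [Nat.sub_zero] at h2'
      exact h.rev.last hG h1.rev (by omega) h2'
    by_cases cm : c = m
    · subst cm
      exact h.last hG h1 hab h2
    refine h.inner hG h1 hab (c := c - 1) (d := c + 1) (by omega) (by omega) {p c} ?_ ?_ ?_ ?_
      (fun i hi => h2.before i (by omega)) (fun i hi hi' => h2.after i (by omega) hi')
    · simpa using apply_mem_seg (by omega) (by omega)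
    · exact cJ.un (conn_singleton _) (Touch.of_adj mt rfl h2.adjA)
    · exact Or.inr ⟨p c, Or.inr rfl, (h.rp.ip.adj_pred (by omega) l2).symm⟩
    · exact Or.inr ⟨p c, Or.inr rfl, (h.rp.ip.adj_succ (by omega)).symm⟩

end Pool.Agent.Ehf
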