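import Pool.Agent.MP_3ad207_lc.H46.Paths

/-! Parity lemmas in even-hole-free graphs: two arcs, theta, zones and links, the K4 lemma. -/

set_option autoImplicit false

namespace Pool.Agent.Ehf

variable {V : Type*} {G : SimpleGraph V}

/-- two disjoint induced paths joined exactly by the two edges between their ends -/
theorem EHF.two_arcs (hG : EHF G) {u v u' v' : V} {n m : ℕ} {X Y : Set V} (h1 : IPc G u v n X)
    (h2 : IPc G u' v' m Y) (eu : G.Adj u u') (ev : G.Adj v v') (hd : Disjoint X Y)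
    (hc : ∀ x ∈ X, ∀ y ∈ Y, G.Adj x y → (x = u ∧ y = u') ∨ (x = v ∧ y = v')) (hpos : 0 < n + m) :
    Odd (n + m) := by
  by_cases h1' : n + m = 1
  · rw [h1']; exact odd_one
  obtain ⟨f, hf, f0, fn, fX⟩ := h1
  obtain ⟨g, hg, g0, gm, gY⟩ := h2
  have := hG (fun i => if i ≤ n then f i else g (n + m + 1 - i)) (n + m + 2) (by omega) (by
    intro i j hij hj
    by_cases a : j ≤ n
    · have b : i ≤ n := by omega
      simp only [a, b, if_true]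
      refine ⟨(hf i j hij a).1, ?_⟩
      rw [(hf i j hij a).2]; omega
    · by_cases b : i ≤ n
      · simp only [a, b, if_true, if_false]
        have hx := fX i b
        have hy := gY (n + m + 1 - j) (by omega)
        refine ⟨fun e => Set.disjoint_left.1 hd hx (e ▸ hy), ⟨fun e => ?_, fun e => ?_⟩⟩
        · rcases hc _ hx _ hy e with ⟨c1, c2⟩ | ⟨c1, c2⟩
          · have d1 := hf.inj b (Nat.zero_le _) (c1.trans f0.symm)
            have d2 := hg.inj (by omega) (Nat.zero_le _) (c2.trans g0.symm)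
            omega
          · have d1 := hf.inj b le_rfl (c1.trans fn.symm)
            have d2 := hg.inj (by omega) le_rfl (c2.trans gm.symm)
            omega
        · rcases e with e | ⟨e1, e2⟩
          · have d1 : i = n := by omega
            have d2 : n + m + 1 - j = m := by omega
            rw [d1, d2, fn, gm]; exact ev
          · have d2 : n + m + 1 - j = 0 := by omega
            rw [e1, d2, f0, g0]; exact eu
      · simp only [a, b, if_false]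
        refine ⟨hg.ne (by omega) (by omega) (by omega), ?_⟩
        rw [hg.adj_iff (by omega) (by omega)]; omega)
  rcases this with ⟨k, hk⟩
  exact ⟨k - 1, by omega⟩

/-- (P1) two induced paths between nonadjacent vertices with anticomplete interiors -/
theorem EHF.odd_add (hG : EHF G) {u v : V} {n m : ℕ} {X Y : Set V} (h1 : IP G u v n X)
    (h2 : IP G u v m Y) (hn : 2 ≤ n) (hm : 2 ≤ m) (hA : Anti G X Y) : Odd (n + m) := by
  obtain ⟨f, hf, f0, fn, fX⟩ := h1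
  obtain ⟨g, hg, g0, gm, gY⟩ := h2
  have a1 := hf.ipc_seg (Nat.zero_le n) le_rfl
  have a2 := hg.ipc_seg (i := 1) (j := m - 1) (by omega) (by omega)
  have := hG.two_arcs a1 a2 (by rw [f0, ← g0]; exact hg.adj_succ (by omega))
    (by rw [fn, ← gm]; exact hg.adj_pred (by omega) le_rfl) ?_ ?_ (by omega)
  · rcases this with ⟨k, hk⟩
    exact ⟨k + 1, by omega⟩
  · rw [Set.disjoint_left]
    rintro x ⟨i, -, hi, rfl⟩ ⟨j, j1, j2, e⟩
    by_cases c0 : i = 0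
    · subst c0
      exact hg.ne (by omega) (by omega) (by omega : j ≠ 0) (e.trans (f0.trans g0.symm))
    by_cases cn : i = n
    · subst cn
      exact hg.ne (by omega) (by omega) (by omega : j ≠ m) (e.trans (fn.trans gm.symm))
    exact hA.ne (fX i (by omega) (by omega)) (gY j (by omega) (by omega)) e.symm
  · rintro x ⟨i, -, hi, rfl⟩ y ⟨j, j1, j2, rfl⟩ e
    by_cases c0 : i = 0
    · subst c0
      rw [f0, ← g0, hg.adj_iff (by omega) (by omega)] at e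
      left; exact ⟨rfl, by congr 1; omega⟩
    by_cases cn : i = n
    · subst cn
      rw [fn, ← gm, hg.adj_iff (by omega) (by omega)] at e
      right; exact ⟨rfl, by congr 1; omega⟩
    exact (hA.not_adj (fX i (by omega) (by omega)) (gY j (by omega) (by omega)) e).elim

theorem EHF.odd_add' (hG : EHF G) {u v : V} {n m : ℕ} {X Y : Set V} (h1 : IP G u v n X)
    (h2 : IP G u v m Y) (hne : u ≠ v) (hna : ¬ G.Adj u v) (hA : Anti G X Y) : Odd (n + m) :=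
  hG.odd_add h1 h2 (h1.two_le hne hna) (h2.two_le hne hna) hA

theorem EHF.theta_ip (hG : EHF G) {u v : V} {a b c : ℕ} {X Y Z : Set V} (hne : u ≠ v)
    (hna : ¬ G.Adj u v) (h1 : IP G u v a X) (h2 : IP G u v b Y) (h3 : IP G u v c Z)
    (hXY : Anti G X Y) (hXZ : Anti G X Z) (hYZ : Anti G Y Z) : False := by
  have e1 := hG.odd_add' h1 h2 hne hna hXY
  have e2 := hG.odd_add' h1 h3 hne hna hXZ
  have e3 := hG.odd_add' h2 h3 hne hna hYZ
  rw [Nat.odd_iff] at e1 e2 e3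
  omega

/-- (THETA) -/
theorem EHF.theta (hG : EHF G) {u v : V} {X Y Z : Set V} (hne : u ≠ v) (hna : ¬ G.Adj u v)
    (cX : Conn G X) (cY : Conn G Y) (cZ : Conn G Z)
    (hXY : Anti G X Y) (hXZ : Anti G X Z) (hYZ : Anti G Y Z)
    (uX : u ∈ cN G X) (vX : v ∈ cN G X) (uY : u ∈ cN G Y) (vY : v ∈ cN G Y)
    (uZ : u ∈ cN G Z) (vZ : v ∈ cN G Z) : False := by
  obtain ⟨a, h1⟩ := cX.exists_ip uX vX
  obtain ⟨b, h2⟩ := cY.exists_ip uY vY
  obtain ⟨c, h3⟩ := cZ.exists_ip uZ vZ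
  exact hG.theta_ip hne hna h1 h2 h3 hXY hXZ hYZ

/-- (C4) common neighbours of two nonadjacent vertices are adjacent -/
theorem EHF.adj_of_common (hG : EHF G) {u v x y : V} (hne : u ≠ v) (hna : ¬ G.Adj u v)
    (ux : G.Adj u x) (vx : G.Adj v x) (uy : G.Adj u y) (vy : G.Adj v y) (hxy : x ≠ y) :
    G.Adj x y := by
  by_contra h
  have := hG.odd_add' (IP.of_common ux vx.symm hne hna) (IP.of_common uy vy.symm hne hna) hne hna
    (anti_singleton_singleton.2 ⟨hxy, h⟩)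
  exact absurd this (by decide)

/-- an induced path between two neighbours of `z` whose interior is anticomplete to `z` is odd -/
theorem EHF.odd_of_sector (hG : EHF G) {z u v : V} {n : ℕ} {X : Set V} (h : IP G u v n X)
    (hne : u ≠ v) (zu : G.Adj z u) (zv : G.Adj z v) (hA : Anti G {z} X) : Odd n := by
  by_cases e : G.Adj u v
  · rw [h.adj_iff.1 e]; exact odd_one
  · have := hG.odd_add' (IP.of_common zu.symm zv hne e) h hne e hA
    rw [Nat.odd_iff] at this ⊢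
    omega

/-- consecutive neighbours of an outside vertex on an induced path are at odd distance -/
theorem EHF.sector_odd (hG : EHF G) {f : ℕ → V} {n i j : ℕ} {z : V} (hf : IsIP G f n)
    (hij : i < j) (hj : j ≤ n) (zi : G.Adj z (f i)) (zj : G.Adj z (f j))
    (hz : ∀ k, i < k → k < j → z ≠ f k ∧ ¬ G.Adj z (f k)) : Odd (j - i) := by
  refine hG.odd_of_sector (hf.ip_seg hij.le hj) (hf.ne (by omega) hj hij.ne) zi zj ?_
  rintro x hx y ⟨k, k1, k2, rfl⟩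
  rw [Set.mem_singleton_iff] at hx
  subst hx
  exact hz k (by omega) (by omega)

/-! ### zones and links -/

/-- a link between the zones `B` and `B'`: an induced path from `p` to `p'` with vertex set inside
`L`; only `p` may touch `B` and only `p'` may touch `B'` -/
structure Lk (G : SimpleGraph V) (B B' : Set V) (p p' : V) (l : ℕ) (L : Set V) : Prop where
  path : IPc G p p' l L
  left : Anti G B (L \ {p})
  right : Anti G B' (L \ {p'})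

/-- two links are disjoint and only corresponding ports may be adjacent -/
def Sep2 (G : SimpleGraph V) (L M : Set V) (p p' q q' : V) : Prop :=
  Disjoint L M ∧ ∀ x ∈ L, ∀ y ∈ M, G.Adj x y → (x = p ∧ y = q) ∨ (x = p' ∧ y = q')

theorem Sep2.of_anti {L M : Set V} (h : Anti G L M) (p p' q q' : V) : Sep2 G L M p p' q q' :=
  ⟨h.disjoint, fun _ hx _ hy e => (h.not_adj hx hy e).elim⟩

theorem Sep2.symm {L M : Set V} {p p' q q' : V} (h : Sep2 G L M p p' q q') :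
    Sep2 G M L q q' p p' :=
  ⟨h.1.symm, fun x hx y hy e => by
    rcases h.2 y hy x hx e.symm with ⟨a, b⟩ | ⟨a, b⟩
    · exact Or.inl ⟨b, a⟩
    · exact Or.inr ⟨b, a⟩⟩

theorem Lk.symm {B B' L : Set V} {p p' : V} {l : ℕ} (h : Lk G B B' p p' l L) :
    Lk G B' B p' p l L := ⟨h.path.symm, h.right, h.left⟩

theorem Lk.mono {B B' C C' L : Set V} {p p' : V} {l : ℕ} (h : Lk G B B' p p' l L) (hB : C ⊆ B)
    (hB' : C' ⊆ B') : Lk G C C' p p' l L :=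
  ⟨h.path, h.left.mono hB le_rfl, h.right.mono hB' le_rfl⟩

theorem Lk.single (B B' : Set V) (p : V) : Lk G B B' p p 0 {p} :=
  ⟨IPc.refl rfl, by simpa using anti_empty_right, by simpa using anti_empty_right⟩

/-- a connected set touching two anticomplete sets contains a link between them -/
theorem Conn.exists_lk {Y B B' : Set V} (hY : Conn G Y) (hB : Touch G Y B) (hB' : Touch G Y B')
    (hA : Anti G B B') :
    ∃ p p' l L, L ⊆ Y ∧ Lk G B B' p p' l L ∧ Sees G p B ∧ Sees G p' B' ∧ Disjoint L B ∧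
      Disjoint L B' ∧ Conn G L := by
  obtain ⟨n, f, hf, fY, f0, fn, fA, fB⟩ := hY.extract hB hB' hA
  refine ⟨f 0, f n, n, seg f 0 n, seg_subset fun k _ hk => (fY k hk).1,
    ⟨by simpa using hf.ipc_seg (Nat.zero_le n) le_rfl, ?_, ?_⟩, f0, fn, ?_, ?_,
    hf.conn_seg (Nat.zero_le _) le_rfl⟩
  · refine Anti.symm (anti_iff.2 ?_)
    rintro x ⟨⟨k, -, hk, rfl⟩, hx⟩
    refine fA k (Nat.pos_of_ne_zero ?_) hk
    rintro rfl; exact hx rfl
  · refine Anti.symm (anti_iff.2 ?_)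
    rintro x ⟨⟨k, -, hk, rfl⟩, hx⟩
    refine fB k (lt_of_le_of_ne hk ?_)
    rintro rfl; exact hx rfl
  · rw [Set.disjoint_left]
    rintro x ⟨k, -, hk, rfl⟩
    exact (fY k hk).2.1
  · rw [Set.disjoint_left]
    rintro x ⟨k, -, hk, rfl⟩
    exact (fY k hk).2.2

/-- (H2) the hole through two zones and two links -/
theorem EHF.hole2 (hG : EHF G) {B B' L M : Set V} {p p' q q' : V} {l m d d' : ℕ}
    (h1 : Lk G B B' p p' l L) (h2 : Lk G B B' q q' m M) (hs : Sep2 G L M p p' q q')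
    (hA : Anti G B B') (hz : IP G p q d B) (hz' : IP G p' q' d' B') (hbig : 2 < d + d' + l + m) :
    Odd (d + d' + l + m) := by
  have pL := h1.path.left_mem
  have pL' := h1.path.right_mem
  have qM := h2.path.left_mem
  have qM' := h2.path.right_mem
  have hd : 0 < d := hz.pos fun e => Set.disjoint_left.1 hs.1 pL (e ▸ qM)
  have hd' : 0 < d' := hz'.pos fun e => Set.disjoint_left.1 hs.1 pL' (e ▸ qM')
  have adj1 := hz.adj_iff
  have adj2 := hz'.adj_iff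
  obtain ⟨f, hf, f0, fn, fB⟩ := hz
  obtain ⟨g, hg, g0, gn, gB⟩ := hz'.symm
  have a1 : IPc G p (f (d - 1)) (d - 1 - 0) (seg f 0 (d - 1)) := by
    rw [← f0]; exact hf.ipc_seg (Nat.zero_le _) (by omega)
  have a2 : IPc G q' (g (d' - 1)) (d' - 1 - 0) (seg g 0 (d' - 1)) := by
    rw [← g0]; exact hg.ipc_seg (Nat.zero_le _) (by omega)
  have s1 : ∀ x ∈ seg f 0 (d - 1), x = p ∨ ∃ k, 0 < k ∧ k < d ∧ f k = x ∧ x ∈ B := by
    rintro x ⟨k, -, hk, rfl⟩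
    rcases Nat.eq_zero_or_pos k with rfl | h
    · exact Or.inl f0
    · exact Or.inr ⟨k, h, by omega, rfl, fB k h (by omega)⟩
  have s2 : ∀ x ∈ seg g 0 (d' - 1), x = q' ∨ ∃ k, 0 < k ∧ k < d' ∧ g k = x ∧ x ∈ B' := by
    rintro x ⟨k, -, hk, rfl⟩
    rcases Nat.eq_zero_or_pos k with rfl | h
    · exact Or.inl g0
    · exact Or.inr ⟨k, h, by omega, rfl, gB k h (by omega)⟩
  have arc1 := h1.path.symm.concat a1 (by
    refine (h1.left.symm).mono le_rfl ?_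
    rintro x ⟨hx, hx'⟩
    rcases s1 x hx with e | ⟨k, -, -, -, e⟩
    · exact (hx' e).elim
    · exact e)
  have arc2 := h2.path.concat a2 (by
    refine (h2.right.symm).mono le_rfl ?_
    rintro x ⟨hx, hx'⟩
    rcases s2 x hx with e | ⟨k, -, -, -, e⟩
    · exact (hx' e).elim
    · exact e)
  have key : ∀ x ∈ L ∪ seg f 0 (d - 1), ∀ y ∈ M ∪ seg g 0 (d' - 1),
      x ≠ y ∧ (G.Adj x y → (x = p' ∧ y = g (d' - 1)) ∨ (x = f (d - 1) ∧ y = q)) := by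
    intro x hx y hy
    have hx' : x ∈ L ∨ ∃ k, 0 < k ∧ k < d ∧ f k = x ∧ x ∈ B := by
      rcases hx with hx | hx
      · exact Or.inl hx
      · rcases s1 x hx with e | e
        · exact Or.inl (e ▸ pL)
        · exact Or.inr e
    have hy' : y ∈ M ∨ ∃ k, 0 < k ∧ k < d' ∧ g k = y ∧ y ∈ B' := by
      rcases hy with hy | hy
      · exact Or.inl hy
      · rcases s2 y hy with e | e
        · exact Or.inl (e ▸ qM')
        · exact Or.inr e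
    rcases hx' with hx' | ⟨i, i0, i1, rfl, iB⟩ <;> rcases hy' with hy' | ⟨j, j0, j1, rfl, jB⟩
    · refine ⟨fun e => Set.disjoint_left.1 hs.1 hx' (e ▸ hy'), fun e => ?_⟩
      rcases hs.2 x hx' y hy' e with ⟨rfl, rfl⟩ | ⟨rfl, rfl⟩
      · right
        rw [adj1.1 e]; exact ⟨f0.symm, rfl⟩
      · left
        rw [adj2.1 e]; exact ⟨rfl, g0.symm⟩
    · by_cases c : x = p'
      · subst c
        refine ⟨?_, fun e => Or.inl ⟨rfl, ?_⟩⟩
        · rw [← gn]; exact hg.ne le_rfl (by omega) (by omega)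
        · rw [← gn, hg.adj_iff le_rfl (by omega)] at e
          congr 1; omega
      · have := h1.right _ jB x ⟨hx', c⟩
        exact ⟨this.1.symm, fun e => (this.2 e.symm).elim⟩
    · by_cases c : y = q
      · subst c
        refine ⟨?_, fun e => Or.inr ⟨?_, rfl⟩⟩
        · rw [← fn]; exact hf.ne (by omega) le_rfl (by omega)
        · rw [← fn, hf.adj_iff (by omega) le_rfl] at e
          congr 1; omega
      · have := h2.left _ iB y ⟨hy', c⟩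
        exact ⟨this.1, fun e => (this.2 e).elim⟩
    · have := hA _ iB _ jB
      exact ⟨this.1, fun e => (this.2 e).elim⟩
  have := hG.two_arcs arc1 arc2.symm
    (by rw [← gn]; exact hg.adj_pred hd' le_rfl)
    (by rw [← fn]; exact (hf.adj_pred hd le_rfl).symm)
    (Set.disjoint_left.2 fun x hx hy => (key x hx x hy).1 rfl)
    (fun x hx y hy e => (key x hx y hy).2 e) (by omega)
  rw [Nat.odd_iff] at this ⊢
  omega

/-- (T2) two zones and three links -/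
theorem EHF.t2 (hG : EHF G) {B B' L₁ L₂ L₃ : Set V} {p₁ p₂ p₃ q₁ q₂ q₃ : V}
    {l₁ l₂ l₃ d₁₂ d₁₃ d₂₃ e₁₂ e₁₃ e₂₃ : ℕ}
    (h1 : Lk G B B' p₁ q₁ l₁ L₁) (h2 : Lk G B B' p₂ q₂ l₂ L₂) (h3 : Lk G B B' p₃ q₃ l₃ L₃)
    (s12 : Sep2 G L₁ L₂ p₁ q₁ p₂ q₂) (s13 : Sep2 G L₁ L₃ p₁ q₁ p₃ q₃)
    (s23 : Sep2 G L₂ L₃ p₂ q₂ p₃ q₃) (hA : Anti G B B')
    (z12 : IP G p₁ p₂ d₁₂ B) (z13 : IP G p₁ p₃ d₁₃ B) (z23 : IP G p₂ p₃ d₂₃ B)
    (w12 : IP G q₁ q₂ e₁₂ B') (w13 : IP G q₁ q₃ e₁₃ B') (w23 : IP G q₂ q₃ e₂₃ B')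
    (b12 : 2 < d₁₂ + e₁₂ + l₁ + l₂) (b13 : 2 < d₁₃ + e₁₃ + l₁ + l₃)
    (b23 : 2 < d₂₃ + e₂₃ + l₂ + l₃) : Odd (d₁₂ + d₁₃ + d₂₃ + e₁₂ + e₁₃ + e₂₃) := by
  have o1 := hG.hole2 h1 h2 s12 hA z12 w12 b12
  have o2 := hG.hole2 h1 h3 s13 hA z13 w13 b13
  have o3 := hG.hole2 h2 h3 s23 hA z23 w23 b23
  rw [Nat.odd_iff] at o1 o2 o3 ⊢
  omega

/-- the hole through three zones and three joint vertices -/
theorem EHF.hole3 (hG : EHF G) {B₁ B₂ B₃ : Set V} {u₁₂ u₁₃ u₂₃ : V} {d₁ d₂ d₃ : ℕ}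
    (a12 : Anti G B₁ B₂) (a13 : Anti G B₁ B₃) (a23 : Anti G B₂ B₃)
    (j12 : Anti G {u₁₂} B₃) (j13 : Anti G {u₁₃} B₂) (j23 : Anti G {u₂₃} B₁)
    (n1 : u₁₂ ≠ u₁₃) (n2 : u₁₂ ≠ u₂₃) (n3 : u₁₃ ≠ u₂₃)
    (z1 : IP G u₁₂ u₁₃ d₁ B₁) (z2 : IP G u₁₂ u₂₃ d₂ B₂) (z3 : IP G u₁₃ u₂₃ d₃ B₃) :
    Odd (d₁ + d₂ + d₃) := by
  have hl : Lk G B₁ B₂ u₁₃ u₂₃ d₃ (insert u₁₃ (insert u₂₃ B₃)) := by
    refine ⟨z3.toIPc, ?_, ?_⟩
    · refine (j23.symm.union_right a13).mono le_rfl ?_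
      rintro x ⟨hx | hx | hx, hx'⟩
      · exact (hx' hx).elim
      · exact Or.inl hx
      · exact Or.inr hx
    · refine (j13.symm.union_right a23).mono le_rfl ?_
      rintro x ⟨hx | hx | hx, hx'⟩
      · exact Or.inl hx
      · exact (hx' hx).elim
      · exact Or.inr hx
  have hs : Sep2 G {u₁₂} (insert u₁₃ (insert u₂₃ B₃)) u₁₂ u₁₂ u₁₃ u₂₃ := by
    constructor
    · rw [Set.disjoint_left]
      rintro x rfl (hx | hx | hx)
      · exact n1 hx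
      · exact n2 hx
      · exact j12.notMem rfl hx
    · rintro x rfl y (hy | hy | hy) e
      · exact Or.inl ⟨rfl, hy⟩
      · exact Or.inr ⟨rfl, hy⟩
      · exact (j12.not_adj rfl hy e).elim
  have p1 := z1.pos n1
  have p2 := z2.pos n2
  have p3 := z3.pos n3
  have := hG.hole2 (Lk.single B₁ B₂ u₁₂) hl hs a12 z1 z2 (by omega)
  simpa using this

/-- the hole through four zones and four joint vertices -/
theorem EHF.hole4 (hG : EHF G) {B₁ B₂ B₃ B₄ : Set V} {u₁₂ u₂₃ u₃₄ u₁₄ : V} {d₁ d₂ d₃ d₄ : ℕ}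
    (a12 : Anti G B₁ B₂) (a13 : Anti G B₁ B₃) (a14 : Anti G B₁ B₄) (a23 : Anti G B₂ B₃)
    (a24 : Anti G B₂ B₄) (a34 : Anti G B₃ B₄)
    (j123 : Anti G {u₁₂} B₃) (j124 : Anti G {u₁₂} B₄) (j231 : Anti G {u₂₃} B₁)
    (j234 : Anti G {u₂₃} B₄) (j341 : Anti G {u₃₄} B₁) (j342 : Anti G {u₃₄} B₂)
    (j142 : Anti G {u₁₄} B₂) (j143 : Anti G {u₁₄} B₃)
    (o1 : Anti G {u₁₂} {u₃₄}) (o2 : Anti G {u₁₄} {u₂₃})
    (n1 : u₁₄ ≠ u₁₂) (n2 : u₁₂ ≠ u₂₃) (n3 : u₃₄ ≠ u₂₃) (n4 : u₁₄ ≠ u₃₄)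
    (z1 : IP G u₁₄ u₁₂ d₁ B₁) (z2 : IP G u₁₂ u₂₃ d₂ B₂) (z3 : IP G u₃₄ u₂₃ d₃ B₃)
    (z4 : IP G u₁₄ u₃₄ d₄ B₄) : Odd (d₁ + d₂ + d₃ + d₄) := by
  have hl1 : Lk G B₁ B₃ u₁₄ u₃₄ d₄ (insert u₁₄ (insert u₃₄ B₄)) := by
    refine ⟨z4.toIPc, ?_, ?_⟩
    · refine (j341.symm.union_right a14).mono le_rfl ?_
      rintro x ⟨hx | hx | hx, hx'⟩
      · exact (hx' hx).elim
      · exact Or.inl hx
      · exact Or.inr hx
    · refine (j143.symm.union_right a34).mono le_rfl ?_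
      rintro x ⟨hx | hx | hx, hx'⟩
      · exact Or.inl hx
      · exact (hx' hx).elim
      · exact Or.inr hx
  have hl2 : Lk G B₁ B₃ u₁₂ u₂₃ d₂ (insert u₁₂ (insert u₂₃ B₂)) := by
    refine ⟨z2.toIPc, ?_, ?_⟩
    · refine (j231.symm.union_right a12).mono le_rfl ?_
      rintro x ⟨hx | hx | hx, hx'⟩
      · exact (hx' hx).elim
      · exact Or.inl hx
      · exact Or.inr hx
    · refine (j123.symm.union_right a23.symm).mono le_rfl ?_
      rintro x ⟨hx | hx | hx, hx'⟩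
      · exact Or.inl hx
      · exact (hx' hx).elim
      · exact Or.inr hx
  have key : ∀ x ∈ insert u₁₄ (insert u₃₄ B₄), ∀ y ∈ insert u₁₂ (insert u₂₃ B₂),
      x ≠ y ∧ (G.Adj x y → (x = u₁₄ ∧ y = u₁₂) ∨ (x = u₃₄ ∧ y = u₂₃)) := by
    rintro x (rfl | rfl | hx) y (rfl | rfl | hy)
    · exact ⟨n1, fun _ => Or.inl ⟨rfl, rfl⟩⟩
    · exact ⟨o2.ne rfl rfl, fun e => (o2.not_adj rfl rfl e).elim⟩
    · exact ⟨j142.ne rfl hy, fun e => (j142.not_adj rfl hy e).elim⟩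
    · exact ⟨o1.symm.ne rfl rfl, fun e => (o1.symm.not_adj rfl rfl e).elim⟩
    · exact ⟨n3, fun _ => Or.inr ⟨rfl, rfl⟩⟩
    · exact ⟨j342.ne rfl hy, fun e => (j342.not_adj rfl hy e).elim⟩
    · exact ⟨j124.symm.ne hx rfl, fun e => (j124.symm.not_adj hx rfl e).elim⟩
    · exact ⟨j234.symm.ne hx rfl, fun e => (j234.symm.not_adj hx rfl e).elim⟩
    · exact ⟨a24.symm.ne hx hy, fun e => (a24.symm.not_adj hx hy e).elim⟩
  have hs : Sep2 G (insert u₁₄ (insert u₃₄ B₄)) (insert u₁₂ (insert u₂₃ B₂)) u₁₄ u₃₄ u₁₂ u₂₃ :=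
    ⟨Set.disjoint_left.2 fun x hx hy => (key x hx x hy).1 rfl,
      fun x hx y hy e => (key x hx y hy).2 e⟩
  have p1 := z1.pos n1
  have p2 := z2.pos n2
  have p3 := z3.pos n3
  have := hG.hole2 hl1 hl2 hs a13 z1 z3 (by omega)
  rw [Nat.odd_iff] at this ⊢
  omega

/-- three ports pairwise joined by induced paths through `B` -/
def Zone (G : SimpleGraph V) (B : Set V) (p q r : V) : Prop :=
  (∃ d, IP G p q d B) ∧ (∃ d, IP G p r d B) ∧ (∃ d, IP G q r d B)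

theorem Zone.of_conn {B : Set V} {p q r : V} (hB : Conn G B) (hp : p ∈ cN G B) (hq : q ∈ cN G B)
    (hr : r ∈ cN G B) : Zone G B p q r :=
  ⟨hB.exists_ip hp hq, hB.exists_ip hp hr, hB.exists_ip hq hr⟩

theorem Zone.of_sees {B : Set V} {p q r : V} (hB : Conn G B) (hp : Sees G p B) (hq : Sees G q B)
    (hr : Sees G r B) : Zone G B p q r :=
  Zone.of_conn hB (Or.inr hp) (Or.inr hq) (Or.inr hr)

theorem Zone.of_triangle (B : Set V) {p q r : V} (e1 : G.Adj p q) (e2 : G.Adj p r)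
    (e3 : G.Adj q r) : Zone G B p q r :=
  ⟨⟨1, IP.of_adj e1 B⟩, ⟨1, IP.of_adj e2 B⟩, ⟨1, IP.of_adj e3 B⟩⟩

/-- (K4+) four zones and six joint vertices; joints sharing a zone may be adjacent -/
theorem EHF.k4 (hG : EHF G) {B₁ B₂ B₃ B₄ : Set V} {u₁₂ u₁₃ u₁₄ u₂₃ u₂₄ u₃₄ : V}
    (a12 : Anti G B₁ B₂) (a13 : Anti G B₁ B₃) (a14 : Anti G B₁ B₄) (a23 : Anti G B₂ B₃)
    (a24 : Anti G B₂ B₄) (a34 : Anti G B₃ B₄)
    (j12 : Anti G {u₁₂} (B₃ ∪ B₄)) (j13 : Anti G {u₁₃} (B₂ ∪ B₄)) (j14 : Anti G {u₁₄} (B₂ ∪ B₃))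
    (j23 : Anti G {u₂₃} (B₁ ∪ B₄)) (j24 : Anti G {u₂₄} (B₁ ∪ B₃)) (j34 : Anti G {u₃₄} (B₁ ∪ B₂))
    (o1 : Anti G {u₁₂} {u₃₄}) (o2 : Anti G {u₁₃} {u₂₄}) (o3 : Anti G {u₁₄} {u₂₃})
    (n1 : u₁₂ ≠ u₁₃ ∧ u₁₂ ≠ u₁₄ ∧ u₁₃ ≠ u₁₄) (n2 : u₁₂ ≠ u₂₃ ∧ u₁₂ ≠ u₂₄ ∧ u₂₃ ≠ u₂₄)
    (n3 : u₁₃ ≠ u₂₃ ∧ u₁₃ ≠ u₃₄ ∧ u₂₃ ≠ u₃₄) (n4 : u₁₄ ≠ u₂₄ ∧ u₁₄ ≠ u₃₄ ∧ u₂₄ ≠ u₃₄)
    (z1 : Zone G B₁ u₁₂ u₁₃ u₁₄) (z2 : Zone G B₂ u₁₂ u₂₃ u₂₄) (z3 : Zone G B₃ u₁₃ u₂₃ u₃₄)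
    (z4 : Zone G B₄ u₁₄ u₂₄ u₃₄) : False := by
  obtain ⟨⟨a1, x1⟩, ⟨a2, x2⟩, ⟨a3, x3⟩⟩ := z1
  obtain ⟨⟨b1, y1⟩, ⟨b2, y2⟩, ⟨b3, y3⟩⟩ := z2
  obtain ⟨⟨c1, w1⟩, ⟨c2, w2⟩, ⟨c3, w3⟩⟩ := z3
  obtain ⟨⟨d1, t1⟩, ⟨d2, t2⟩, ⟨d3, t3⟩⟩ := z4
  rw [anti_union_right] at j12 j13 j14 j23 j24 j34
  have T1 := hG.hole3 a12 a13 a23 j12.1 j13.1 j23.1 n1.1 n2.1 n3.1 x1 y1 w1
  have T2 := hG.hole3 a12 a14 a24 j12.2 j14.1 j24.1 n1.2.1 n2.2.1 n4.1 x2 y2 t1
  have T3 := hG.hole3 a13 a14 a34 j13.2 j14.2 j34.1 n1.2.2 n3.2.1 n4.2.1 x3 w2 t2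
  have T4 := hG.hole3 a23 a24 a34 j23.2 j24.2 j34.2 n2.2.2 n3.2.2 n4.2.2 y3 w3 t3
  -- 1 2 3 4
  have Q1 := hG.hole4 a12 a13 a14 a23 a24 a34 j12.1 j12.2 j23.1 j23.2 j34.1 j34.2 j14.1 j14.2
    o1 o3 n1.2.1.symm n2.1 n3.2.2.symm n4.2.1 x2.symm y1 w3.symm t2
  -- 1 2 4 3
  have Q2 := hG.hole4 a12 a14 a13 a24 a23 a34.symm j12.2 j12.1 j24.1 j24.2 j34.1 j34.2 j13.1 j13.2
    o1 o2 n1.1.symm n2.2.1 n4.2.2.symm n3.2.1 x1.symm y2 t3.symm w2
  -- 1 3 2 4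
  have Q3 := hG.hole4 a13 a12 a14 a23.symm a34 a24 j13.1 j13.2 j23.1 j23.2 j24.1 j24.2 j14.2 j14.1
    o2 o3 n1.2.2.symm n3.1 n2.2.2.symm n4.1 x3.symm w1 y3.symm t1
  rw [Nat.odd_iff] at T1 T2 T3 T4 Q1 Q2 Q3
  omega

end Pool.Agent.Ehf
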