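import Pool.Agent.MP_3ad207_lc.H46.Basic

/-! Induced paths: reversal, segments, concatenation, existence, parity. -/

set_option autoImplicit false

namespace Pool.Agent.Ehf

variable {V : Type*} {G : SimpleGraph V}

theorem IsIP.ne {f : ℕ → V} {n i j : ℕ} (h : IsIP G f n) (hi : i ≤ n) (hj : j ≤ n) (hij : i ≠ j) :
    f i ≠ f j := by
  rcases Nat.lt_or_gt_of_ne hij with h' | h'
  · exact (h i j h' hj).1
  · exact (h j i h' hi).1.symm

theorem IsIP.inj {f : ℕ → V} {n i j : ℕ} (h : IsIP G f n) (hi : i ≤ n) (hj : j ≤ n)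
    (e : f i = f j) : i = j := by
  by_contra hij
  exact h.ne hi hj hij e

theorem IsIP.adj_iff {f : ℕ → V} {n i j : ℕ} (h : IsIP G f n) (hi : i ≤ n) (hj : j ≤ n) :
    G.Adj (f i) (f j) ↔ (j = i + 1 ∨ i = j + 1) := by
  rcases lt_trichotomy i j with h' | h' | h'
  · rw [(h i j h' hj).2]; omega
  · subst h'
    simp
  · rw [G.adj_comm, (h j i h' hi).2]; omega

theorem IsIP.adj_succ {f : ℕ → V} {n i : ℕ} (h : IsIP G f n) (hi : i < n) :
    G.Adj (f i) (f (i + 1)) := (h i (i + 1) (by omega) (by omega)).2.2 rfl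

theorem IsIP.adj_pred {f : ℕ → V} {n i : ℕ} (h : IsIP G f n) (h0 : 0 < i) (hi : i ≤ n) :
    G.Adj (f i) (f (i - 1)) := (h.adj_iff hi (by omega)).2 (by omega)

theorem IsIP.not_adj {f : ℕ → V} {n i j : ℕ} (h : IsIP G f n) (hij : i + 1 < j) (hj : j ≤ n) :
    ¬ G.Adj (f i) (f j) := by
  rw [h.adj_iff (by omega) hj]; omega

theorem isIP_of_forall {f : ℕ → V} {n : ℕ}
    (h : ∀ i j, i ≤ n → j ≤ n → (f i = f j → i = j) ∧ (G.Adj (f i) (f j) → j = i + 1 ∨ i = j + 1))
    (h' : ∀ i, i < n → G.Adj (f i) (f (i + 1))) : IsIP G f n := by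
  intro i j hij hj
  refine ⟨fun e => ?_, ⟨fun e => ?_, fun e => ?_⟩⟩
  · have := (h i j (by omega) hj).1 e; omega
  · have := (h i j (by omega) hj).2 e; omega
  · subst e; exact h' i (by omega)

theorem IsIP.rev {f : ℕ → V} {n : ℕ} (h : IsIP G f n) : IsIP G (fun i => f (n - i)) n := by
  intro i j hij hj
  refine ⟨h.ne (by omega) (by omega) (by omega), ?_⟩
  rw [h.adj_iff (by omega) (by omega)]; omega

theorem IsIP.shift {f : ℕ → V} {n : ℕ} (h : IsIP G f n) {a b : ℕ} (hb : b ≤ n) :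
    IsIP G (fun i => f (a + i)) (b - a) := by
  intro i j hij hj
  refine ⟨h.ne (by omega) (by omega) (by omega), ?_⟩
  rw [h.adj_iff (by omega) (by omega)]; omega

theorem IsIP.mono {f : ℕ → V} {n m : ℕ} (h : IsIP G f n) (hm : m ≤ n) : IsIP G f m :=
  fun i j hij hj => h i j hij (by omega)

/-! ### segments -/

theorem mem_seg {f : ℕ → V} {i j : ℕ} {x : V} :
    x ∈ seg f i j ↔ ∃ k, i ≤ k ∧ k ≤ j ∧ f k = x := Iff.rfl

theorem apply_mem_seg {f : ℕ → V} {i j k : ℕ} (h1 : i ≤ k) (h2 : k ≤ j) : f k ∈ seg f i j :=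
  ⟨k, h1, h2, rfl⟩

theorem seg_mono {f : ℕ → V} {i j i' j' : ℕ} (h1 : i' ≤ i) (h2 : j ≤ j') :
    seg f i j ⊆ seg f i' j' := by
  rintro x ⟨k, a, b, c⟩
  exact ⟨k, by omega, by omega, c⟩

theorem seg_subset {f : ℕ → V} {i j : ℕ} {X : Set V} (h : ∀ k, i ≤ k → k ≤ j → f k ∈ X) :
    seg f i j ⊆ X := by
  rintro x ⟨k, a, b, rfl⟩
  exact h k a b

theorem seg_eq_empty {f : ℕ → V} {i j : ℕ} (h : j < i) : seg f i j = ∅ := by
  ext x
  simp only [mem_seg, Set.mem_empty_iff_false, iff_false]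
  rintro ⟨k, a, b, -⟩
  omega

theorem seg_self (f : ℕ → V) (i : ℕ) : seg f i i = {f i} := by
  ext x
  simp only [mem_seg, Set.mem_singleton_iff]
  constructor
  · rintro ⟨k, a, b, c⟩
    have : k = i := by omega
    subst this; exact c.symm
  · rintro rfl
    exact ⟨i, le_rfl, le_rfl, rfl⟩

theorem IsIP.mem_seg_iff {f : ℕ → V} {n i j k : ℕ} (h : IsIP G f n) (hj : j ≤ n) (hk : k ≤ n) :
    f k ∈ seg f i j ↔ i ≤ k ∧ k ≤ j := by
  constructor
  · rintro ⟨l, a, b, c⟩
    have := h.inj (by omega) hk c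
    omega
  · rintro ⟨a, b⟩
    exact apply_mem_seg a b

theorem IsIP.anti_seg {f : ℕ → V} {n i j k l : ℕ} (h : IsIP G f n) (hjk : j + 1 < k)
    (hl : l ≤ n) : Anti G (seg f i j) (seg f k l) := by
  rintro x ⟨a, a1, a2, rfl⟩ y ⟨b, b1, b2, rfl⟩
  exact ⟨h.ne (by omega) (by omega) (by omega), h.not_adj (by omega) (by omega)⟩

theorem conn_seg_of_adj {f : ℕ → V} {i j : ℕ} (hij : i ≤ j)
    (h : ∀ k, i ≤ k → k < j → G.Adj (f k) (f (k + 1))) : Conn G (seg f i j) := by
  refine conn_of_root (apply_mem_seg le_rfl hij) ?_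
  rintro x ⟨k, a, b, rfl⟩
  induction k, a using Nat.le_induction with
  | base => exact RIn.refl _ _
  | succ k hk ih => exact (ih (by omega)).tail (h k hk (by omega)) (apply_mem_seg (by omega) b)

theorem IsIP.conn_seg {f : ℕ → V} {n i j : ℕ} (h : IsIP G f n) (hij : i ≤ j) (hj : j ≤ n) :
    Conn G (seg f i j) :=
  conn_seg_of_adj hij fun k _ hk => h.adj_succ (by omega)

theorem IsIP.ipc_seg {f : ℕ → V} {n i j : ℕ} (h : IsIP G f n) (hij : i ≤ j) (hj : j ≤ n) :
    IPc G (f i) (f j) (j - i) (seg f i j) := by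
  refine ⟨fun k => f (i + k), h.shift hj, rfl, ?_, fun k hk => apply_mem_seg (by omega) (by omega)⟩
  show f (i + (j - i)) = f j
  congr 1; omega

theorem IsIP.ip_seg {f : ℕ → V} {n i j : ℕ} (h : IsIP G f n) (hij : i ≤ j) (hj : j ≤ n) :
    IP G (f i) (f j) (j - i) (seg f (i + 1) (j - 1)) := by
  refine ⟨fun k => f (i + k), h.shift hj, rfl, ?_,
    fun k h0 hk => apply_mem_seg (by omega) (by omega)⟩
  show f (i + (j - i)) = f j
  congr 1; omega

/-! ### `IP` and `IPc` -/

theorem IPc.symm {u v : V} {n : ℕ} {X : Set V} (h : IPc G u v n X) : IPc G v u n X := by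
  obtain ⟨f, hf, h0, hn, hX⟩ := h
  exact ⟨fun i => f (n - i), hf.rev, by simpa using hn, by simpa using h0,
    fun i _ => hX _ (by omega)⟩

theorem IP.symm {u v : V} {n : ℕ} {X : Set V} (h : IP G u v n X) : IP G v u n X := by
  obtain ⟨f, hf, h0, hn, hX⟩ := h
  exact ⟨fun i => f (n - i), hf.rev, by simpa using hn, by simpa using h0,
    fun i _ _ => hX _ (by omega) (by omega)⟩

theorem IPc.mono {u v : V} {n : ℕ} {X Y : Set V} (h : IPc G u v n X) (hXY : X ⊆ Y) :
    IPc G u v n Y := by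
  obtain ⟨f, hf, h0, hn, hX⟩ := h
  exact ⟨f, hf, h0, hn, fun i hi => hXY (hX i hi)⟩

theorem IP.mono {u v : V} {n : ℕ} {X Y : Set V} (h : IP G u v n X) (hXY : X ⊆ Y) :
    IP G u v n Y := by
  obtain ⟨f, hf, h0, hn, hX⟩ := h
  exact ⟨f, hf, h0, hn, fun i hi hi' => hXY (hX i hi hi')⟩

theorem IPc.refl {u : V} {X : Set V} (h : u ∈ X) : IPc G u u 0 X :=
  ⟨fun _ => u, fun _ _ _ _ => by omega, rfl, rfl, fun _ _ => h⟩

theorem IP.of_adj {u v : V} (e : G.Adj u v) (X : Set V) : IP G u v 1 X := by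
  refine ⟨fun i => if i = 0 then u else v, ?_, by simp, by simp, fun i _ _ => by omega⟩
  intro i j hij hj
  have hi : i = 0 := by omega
  have hj' : j = 1 := by omega
  subst hi hj'
  simpa using ⟨e.ne, e⟩

theorem IP.of_common {u v x : V} (e1 : G.Adj u x) (e2 : G.Adj x v) (hne : u ≠ v)
    (hna : ¬ G.Adj u v) : IP G u v 2 {x} := by
  refine ⟨fun i => if i = 0 then u else if i = 1 then x else v, ?_, by simp, by simp, ?_⟩
  · intro i j hij hj
    have : (i = 0 ∧ j = 1) ∨ (i = 0 ∧ j = 2) ∨ (i = 1 ∧ j = 2) := by omega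
    rcases this with ⟨rfl, rfl⟩ | ⟨rfl, rfl⟩ | ⟨rfl, rfl⟩
    · simpa using ⟨e1.ne, e1⟩
    · simpa using ⟨hne, hna⟩
    · simpa using ⟨e2.ne, e2⟩
  · intro i h0 h2
    have : i = 1 := by omega
    subst this; simp

theorem IP.toIPc {u v : V} {n : ℕ} {X : Set V} (h : IP G u v n X) :
    IPc G u v n (insert u (insert v X)) := by
  obtain ⟨f, hf, h0, hn, hX⟩ := h
  refine ⟨f, hf, h0, hn, fun i hi => ?_⟩
  by_cases a : i = 0
  · subst a; exact Or.inl h0
  by_cases b : i = n
  · subst b; exact Or.inr (Or.inl hn)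
  exact Or.inr (Or.inr (hX i (by omega) (by omega)))

theorem IPc.toIP {u v : V} {n : ℕ} {X : Set V} (h : IPc G u v n X) :
    IP G u v n (X \ {u, v}) := by
  obtain ⟨f, hf, h0, hn, hX⟩ := h
  refine ⟨f, hf, h0, hn, fun i hi hi' => ⟨hX i hi'.le, ?_⟩⟩
  rintro (e | e)
  · exact hf.ne (by omega) (by omega) (by omega : i ≠ 0) (e.trans h0.symm)
  · exact hf.ne (by omega) (by omega) (by omega : i ≠ n) (e.trans hn.symm)

theorem IPc.toIP' {u v : V} {n : ℕ} {X : Set V} (h : IPc G u v n X) : IP G u v n X :=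
  h.toIP.mono Set.sdiff_subset

theorem IPc.left_mem {u v : V} {n : ℕ} {X : Set V} (h : IPc G u v n X) : u ∈ X := by
  obtain ⟨f, -, h0, -, hX⟩ := h
  exact h0 ▸ hX 0 (by omega)

theorem IPc.right_mem {u v : V} {n : ℕ} {X : Set V} (h : IPc G u v n X) : v ∈ X :=
  h.symm.left_mem

theorem IP.eq_of_zero {u v : V} {X : Set V} (h : IP G u v 0 X) : u = v := by
  obtain ⟨f, -, h0, hn, -⟩ := h
  exact h0.symm.trans hn

theorem IP.pos {u v : V} {n : ℕ} {X : Set V} (h : IP G u v n X) (hne : u ≠ v) : 0 < n := by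
  rcases Nat.eq_zero_or_pos n with rfl | h'
  · exact (hne h.eq_of_zero).elim
  · exact h'

theorem IP.ne {u v : V} {n : ℕ} {X : Set V} (h : IP G u v n X) (hn : 0 < n) : u ≠ v := by
  obtain ⟨f, hf, h0, hn', -⟩ := h
  rw [← h0, ← hn']
  exact hf.ne (by omega) le_rfl (by omega)

theorem IP.adj_iff {u v : V} {n : ℕ} {X : Set V} (h : IP G u v n X) : G.Adj u v ↔ n = 1 := by
  obtain ⟨f, hf, h0, hn', -⟩ := h
  rw [← h0, ← hn', hf.adj_iff (by omega) le_rfl]
  omega

theorem IP.two_le {u v : V} {n : ℕ} {X : Set V} (h : IP G u v n X) (hne : u ≠ v)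
    (hna : ¬ G.Adj u v) : 2 ≤ n := by
  have h1 := h.pos hne
  have h2 := h.adj_iff
  by_contra hc
  exact hna (h2.2 (by omega))

/-- concatenation of two closed induced paths with a common end -/
theorem IPc.concat {u x v : V} {n m : ℕ} {X Y : Set V} (h1 : IPc G u x n X) (h2 : IPc G x v m Y)
    (hA : Anti G (X \ {x}) (Y \ {x})) : IPc G u v (n + m) (X ∪ Y) := by
  obtain ⟨f, hf, f0, fn, fX⟩ := h1
  obtain ⟨g, hg, g0, gm, gY⟩ := h2
  have hfx : ∀ i, i < n → f i ∈ X \ {x} := fun i hi =>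
    ⟨fX i hi.le, fun e => hf.ne hi.le le_rfl hi.ne ((Set.mem_singleton_iff.1 e).trans fn.symm)⟩
  have hgx : ∀ j, 0 < j → j ≤ m → g j ∈ Y \ {x} := fun j h0 hj =>
    ⟨gY j hj, fun e => hg.ne hj (Nat.zero_le _) h0.ne' ((Set.mem_singleton_iff.1 e).trans g0.symm)⟩
  refine ⟨fun i => if i ≤ n then f i else g (i - n), ?_, by simpa using f0, ?_, ?_⟩
  · intro i j hij hj
    by_cases a : j ≤ n
    · have b : i ≤ n := by omega
      simp only [a, b, if_true]
      exact hf i j hij a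
    · by_cases b : i < n
      · simp only [a, b.le, if_true, if_false]
        have := hA _ (hfx i b) _ (hgx (j - n) (by omega) (by omega))
        refine ⟨this.1, ⟨fun e => (this.2 e).elim, fun e => by omega⟩⟩
      · have hgi : (if i ≤ n then f i else g (i - n)) = g (i - n) := by
          split_ifs with c
          · have : i = n := by omega
            subst this; simp [fn, g0]
          · rfl
        simp only [a, if_false]
        rw [hgi]
        have := hg (i - n) (j - n) (by omega) (by omega)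
        refine ⟨this.1, ?_⟩
        rw [this.2]; omega
  · by_cases a : m = 0
    · subst a; simp [fn, ← g0, gm]
    · have : ¬ (n + m ≤ n) := by omega
      simp only [this, if_false]
      rw [← gm]; congr 1; omega
  · intro i hi
    by_cases a : i ≤ n
    · simp only [a, if_true]; exact Or.inl (fX i a)
    · simp only [a, if_false]; exact Or.inr (gY _ (by omega))

/-- concatenation across an edge -/
theorem IPc.concat_adj {u x y v : V} {n m : ℕ} {X Y : Set V} (h1 : IPc G u x n X)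
    (h2 : IPc G y v m Y) (e : G.Adj x y) (hA : Anti G (X \ {x}) Y) (hB : Anti G X (Y \ {y})) :
    IPc G u v (n + 1 + m) (X ∪ Y) := by
  have hx := h1.right_mem
  have hy := h2.left_mem
  have hxy : IPc G x y 1 {x, y} := by
    have := (IP.of_adj e ∅).toIPc
    refine this.mono ?_
    intro z hz; simpa using hz
  have h3 : IPc G u y (n + 1) (X ∪ {x, y}) := by
    refine h1.concat hxy (hA.mono le_rfl ?_)
    rintro z ⟨hz | hz, hz'⟩
    · exact (hz' hz).elim
    · rw [Set.mem_singleton_iff] at hz; exact hz ▸ hy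
  have h4 := h3.concat h2 (hB.mono ?_ le_rfl)
  · refine h4.mono ?_
    rintro z ((hz | hz | hz) | hz)
    · exact Or.inl hz
    · exact Or.inl (hz ▸ hx)
    · rw [Set.mem_singleton_iff] at hz; exact Or.inr (hz ▸ hy)
    · exact Or.inr hz
  · rintro z ⟨hz | hz | hz, hz'⟩
    · exact hz
    · exact hz ▸ hx
    · exact (hz' hz).elim

/-! ### existence of induced paths -/

theorem RIn.exists_walk {X : Set V} {u v : V} (h : RIn G X u v) :
    ∃ (n : ℕ) (f : ℕ → V), f 0 = u ∧ f n = v ∧ (∀ i, i < n → G.Adj (f i) (f (i + 1))) ∧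
      ∀ i, 0 < i → i ≤ n → f i ∈ X := by
  induction h with
  | refl => exact ⟨0, fun _ => u, rfl, rfl, fun _ _ => by omega, fun _ _ _ => by omega⟩
  | @tail b c _ hb ih =>
    obtain ⟨n, f, f0, fn, fa, fX⟩ := ih
    refine ⟨n + 1, fun i => if i ≤ n then f i else c, by simpa using f0, by simp, ?_, ?_⟩
    · intro i hi
      by_cases a : i < n
      · have a1 : i ≤ n := by omega
        have a2 : i + 1 ≤ n := by omega
        simp only [a1, a2, if_true]; exact fa i a
      · have : i = n := by omega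
        subst this
        simp only [le_refl, if_true, Nat.not_succ_le_self, if_false]
        exact fn ▸ hb.1
    · intro i h0 hi
      by_cases a : i ≤ n
      · simp only [a, if_true]; exact fX i h0 a
      · simp only [a, if_false]; exact hb.2

/-- a walk can be shortened to an induced path using only vertices of the walk -/
theorem exists_isIP_of_walk (n : ℕ) : ∀ (f : ℕ → V), (∀ i, i < n → G.Adj (f i) (f (i + 1))) →
    ∃ (m : ℕ) (g : ℕ → V), m ≤ n ∧ IsIP G g m ∧ g 0 = f 0 ∧ g m = f n ∧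
      (∀ i, 0 < i → i ≤ m → ∃ k, 0 < k ∧ k ≤ n ∧ g i = f k) ∧
      (∀ i, i < m → ∃ k, k < n ∧ g i = f k) := by
  induction n using Nat.strong_induction_on with
  | _ n ih =>
    intro f fa
    by_cases h : IsIP G f n
    · exact ⟨n, f, le_rfl, h, rfl, rfl, fun i a b => ⟨i, a, b, rfl⟩, fun i a => ⟨i, a, rfl⟩⟩
    · unfold IsIP at h
      push Not at h
      obtain ⟨i, j, hij, hj, h⟩ := h
      by_cases e : f i = f j
      · -- remove the closed part
        obtain ⟨m, g, hm, hg, g0, gm, gX, gY⟩ := ih (n - (j - i)) (by omega)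
          (fun k => if k ≤ i then f k else f (k + (j - i))) (by
            intro k hk
            by_cases a : k < i
            · have a1 : k ≤ i := by omega
              have a2 : k + 1 ≤ i := by omega
              simp only [a1, a2, if_true]; exact fa k (by omega)
            · by_cases b : k = i
              · subst b
                simp only [le_refl, if_true, Nat.not_succ_le_self, if_false]
                rw [e, show k + 1 + (j - k) = j + 1 by omega]
                exact fa j (by omega)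
              · have a1 : ¬ k ≤ i := by omega
                have a2 : ¬ k + 1 ≤ i := by omega
                simp only [a1, a2, if_false]
                rw [show k + 1 + (j - i) = k + (j - i) + 1 by omega]
                exact fa _ (by omega))
        refine ⟨m, g, by omega, hg, by simpa using g0, ?_, ?_, ?_⟩
        · rw [gm]
          split_ifs with c
          · have : n - (j - i) = i := by omega
            rw [this, e]; congr 1; omega
          · congr 1; omega
        · intro k a b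
          obtain ⟨l, l0, l1, l2⟩ := gX k a b
          split_ifs at l2 with c
          · exact ⟨l, l0, by omega, l2⟩
          · exact ⟨l + (j - i), by omega, by omega, l2⟩
        · intro k a
          obtain ⟨l, l1, l2⟩ := gY k a
          split_ifs at l2 with c
          · exact ⟨l, by omega, l2⟩
          · exact ⟨l + (j - i), by omega, l2⟩
      · have h' := h e
        have hadj : G.Adj (f i) (f j) ∧ j ≠ i + 1 := by
          rcases h' with h' | h'
          · exact h'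
          · obtain ⟨h1, h2⟩ := h'
            subst h2
            exact (h1 (fa i (by omega))).elim
        obtain ⟨m, g, hm, hg, g0, gm, gX, gY⟩ := ih (n - (j - i - 1)) (by omega)
          (fun k => if k ≤ i then f k else f (k + (j - i - 1))) (by
            intro k hk
            by_cases a : k < i
            · have a1 : k ≤ i := by omega
              have a2 : k + 1 ≤ i := by omega
              simp only [a1, a2, if_true]; exact fa k (by omega)
            · by_cases b : k = i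
              · subst b
                simp only [le_refl, if_true, Nat.not_succ_le_self, if_false]
                rw [show k + 1 + (j - k - 1) = j by omega]
                exact hadj.1
              · have a1 : ¬ k ≤ i := by omega
                have a2 : ¬ k + 1 ≤ i := by omega
                simp only [a1, a2, if_false]
                rw [show k + 1 + (j - i - 1) = k + (j - i - 1) + 1 by omega]
                exact fa _ (by omega))
        refine ⟨m, g, by omega, hg, by simpa using g0, ?_, ?_, ?_⟩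
        · rw [gm]
          have c : ¬ (n - (j - i - 1) ≤ i) := by omega
          simp only [c, if_false]
          congr 1; omega
        · intro k a b
          obtain ⟨l, l0, l1, l2⟩ := gX k a b
          split_ifs at l2 with c
          · exact ⟨l, l0, by omega, l2⟩
          · exact ⟨l + (j - i - 1), by omega, by omega, l2⟩
        · intro k a
          obtain ⟨l, l1, l2⟩ := gY k a
          split_ifs at l2 with c
          · exact ⟨l, by omega, l2⟩
          · exact ⟨l + (j - i - 1), by omega, l2⟩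

theorem RIn.exists_isIP {X : Set V} {u v : V} (h : RIn G X u v) :
    ∃ (n : ℕ) (f : ℕ → V), IsIP G f n ∧ f 0 = u ∧ f n = v ∧ ∀ i, 0 < i → i ≤ n → f i ∈ X := by
  obtain ⟨n, f, f0, fn, fa, fX⟩ := h.exists_walk
  obtain ⟨m, g, -, hg, g0, gm, gX, -⟩ := exists_isIP_of_walk n f fa
  refine ⟨m, g, hg, g0.trans f0, gm.trans fn, fun i a b => ?_⟩
  obtain ⟨k, k0, k1, k2⟩ := gX i a b
  exact k2 ▸ fX k k0 k1

theorem Conn.exists_ipc {X : Set V} (hX : Conn G X) {u v : V} (hu : u ∈ X) (hv : v ∈ X) :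
    ∃ n, IPc G u v n X := by
  obtain ⟨n, f, hf, f0, fn, fX⟩ := (hX.rin hu hv).exists_isIP
  refine ⟨n, f, hf, f0, fn, fun i hi => ?_⟩
  rcases Nat.eq_zero_or_pos i with rfl | h
  · exact f0 ▸ hu
  · exact fX i h hi

/-- (P0) an induced path through a connected set between two vertices touching it -/
theorem Conn.exists_ip {X : Set V} (hX : Conn G X) {u v : V} (hu : u ∈ cN G X) (hv : v ∈ cN G X) :
    ∃ n, IP G u v n X := by
  have h1 : Conn G (insert u (insert v X)) :=
    (hX.ins hv).ins (cN_mono (Set.subset_insert _ _) hu)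
  obtain ⟨n, h⟩ := h1.exists_ipc (u := u) (v := v) (Or.inl rfl) (Or.inr (Or.inl rfl))
  refine ⟨n, h.toIP.mono ?_⟩
  rintro z ⟨hz | hz | hz, hz'⟩
  · exact (hz' (Or.inl hz)).elim
  · exact (hz' (Or.inr hz)).elim
  · exact hz

theorem Conn.exists_ip_sees {X : Set V} (hX : Conn G X) {u v : V} (hu : Sees G u X)
    (hv : Sees G v X) : ∃ n, IP G u v n X := hX.exists_ip (Or.inr hu) (Or.inr hv)

/-- a path inside a connected set from `P` to `Q` whose only vertex in `P` is the first and whose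
only vertex in `Q` is the last -/
theorem Conn.exists_min_path {Y P Q : Set V} (hY : Conn G Y) (hP : ∃ x ∈ Y, x ∈ P)
    (hQ : ∃ x ∈ Y, x ∈ Q) :
    ∃ (n : ℕ) (f : ℕ → V), IsIP G f n ∧ (∀ i, i ≤ n → f i ∈ Y) ∧ f 0 ∈ P ∧ f n ∈ Q ∧
      (∀ i, 0 < i → i ≤ n → f i ∉ P) ∧ (∀ i, i < n → f i ∉ Q) := by
  classical
  obtain ⟨x, hx, hxP⟩ := hP
  obtain ⟨y, hy, hyQ⟩ := hQ
  obtain ⟨n, f, hf, f0, fn, fY⟩ := hY.exists_ipc hx hy
  have hex : ∃ j, j ≤ n ∧ f j ∈ Q := ⟨n, le_rfl, fn ▸ hyQ⟩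
  let b := Nat.find hex
  have hb : b ≤ n ∧ f b ∈ Q := Nat.find_spec hex
  have hbmin : ∀ j, j < b → f j ∉ Q := fun j hj e => Nat.find_min hex hj ⟨by omega, e⟩
  let a := Nat.findGreatest (fun i => f i ∈ P) b
  have ha : f a ∈ P := Nat.findGreatest_spec (P := fun i => f i ∈ P) (Nat.zero_le b) (f0 ▸ hxP)
  have hab : a ≤ b := Nat.findGreatest_le b
  have hamax : ∀ i, a < i → i ≤ b → f i ∉ P := fun i h1 h2 =>
    Nat.findGreatest_is_greatest (P := fun i => f i ∈ P) h1 h2
  refine ⟨b - a, fun i => f (a + i), hf.shift hb.1, fun i hi => fY _ (by omega), ha, ?_,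
    fun i h0 hi => hamax _ (by omega) (by omega), fun i hi => hbmin _ (by omega)⟩
  show f (a + (b - a)) ∈ Q
  rw [show a + (b - a) = b by omega]
  exact hb.2

/-- minimal path inside a connected set touching two given sets -/
theorem Conn.exists_touch_path {Y A B : Set V} (hY : Conn G Y) (hA : Touch G Y A)
    (hB : Touch G Y B) :
    ∃ (n : ℕ) (f : ℕ → V), IsIP G f n ∧ (∀ i, i ≤ n → f i ∈ Y) ∧ f 0 ∈ cN G A ∧ f n ∈ cN G B ∧
      (∀ i, 0 < i → i ≤ n → f i ∉ cN G A) ∧ (∀ i, i < n → f i ∉ cN G B) :=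
  hY.exists_min_path (touch_iff.1 hA) (touch_iff.1 hB)

/-- (EXTRACT) a connected set touching two anticomplete sets contains such a set avoiding both -/
theorem Conn.extract {Y A B : Set V} (hY : Conn G Y) (hA : Touch G Y A) (hB : Touch G Y B)
    (hAB : Anti G A B) :
    ∃ (n : ℕ) (f : ℕ → V), IsIP G f n ∧ (∀ i, i ≤ n → f i ∈ Y ∧ f i ∉ A ∧ f i ∉ B) ∧
      Sees G (f 0) A ∧ Sees G (f n) B ∧
      (∀ i, 0 < i → i ≤ n → f i ∉ cN G A) ∧ (∀ i, i < n → f i ∉ cN G B) := by
  obtain ⟨n, f, hf, fY, f0, fn, fA, fB⟩ := hY.exists_touch_path hA hB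
  have h0A : f 0 ∉ A := by
    intro h
    rcases Nat.eq_zero_or_pos n with rfl | hn
    · exact anti_iff.1 hAB _ h fn
    · exact fA 1 (by omega) hn (Or.inr ⟨f 0, h, (hf.adj_succ hn).symm⟩)
  have hnB : f n ∉ B := by
    intro h
    rcases Nat.eq_zero_or_pos n with rfl | hn
    · exact anti_iff.1 hAB.symm _ h f0
    · exact fB (n - 1) (by omega) (Or.inr ⟨f n, h, (hf.adj_pred hn le_rfl).symm⟩)
  refine ⟨n, f, hf, fun i hi => ⟨fY i hi, ?_, ?_⟩, f0.resolve_left h0A, fn.resolve_left hnB, fA, fB⟩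
  · rcases Nat.eq_zero_or_pos i with rfl | h
    · exact h0A
    · exact fun e => fA i h hi (Or.inl e)
  · rcases Nat.lt_or_eq_of_le hi with h | rfl
    · exact fun e => fB i h (Or.inl e)
    · exact hnB

/-- set form of `extract` -/
theorem Conn.extract_set {Y A B : Set V} (hY : Conn G Y) (hA : Touch G Y A) (hB : Touch G Y B)
    (hAB : Anti G A B) :
    ∃ Z, Z ⊆ Y ∧ Conn G Z ∧ Disjoint Z A ∧ Disjoint Z B ∧ Touch G Z A ∧ Touch G Z B := by
  obtain ⟨n, f, hf, fY, f0, fn, -, -⟩ := hY.extract hA hB hAB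
  refine ⟨seg f 0 n, seg_subset fun k _ hk => (fY k hk).1, hf.conn_seg (Nat.zero_le _) le_rfl,
    ?_, ?_, Touch.of_sees (apply_mem_seg le_rfl (Nat.zero_le _)) f0,
    Touch.of_sees (apply_mem_seg (Nat.zero_le _) le_rfl) fn⟩
  · rw [Set.disjoint_left]
    rintro x ⟨k, -, hk, rfl⟩
    exact (fY k hk).2.1
  · rw [Set.disjoint_left]
    rintro x ⟨k, -, hk, rfl⟩
    exact (fY k hk).2.2

/-- first and last index with a property -/
theorem exists_first_last {p : ℕ → Prop} {n : ℕ} (h : ∃ i, i ≤ n ∧ p i) :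
    ∃ a b, a ≤ b ∧ b ≤ n ∧ p a ∧ p b ∧ (∀ i, i < a → ¬ p i) ∧ (∀ i, b < i → i ≤ n → ¬ p i) := by
  classical
  obtain ⟨i, hi, hp⟩ := h
  have hex : ∃ j, p j := ⟨i, hp⟩
  have h1 : Nat.find hex ≤ i := Nat.find_min' hex hp
  have h2 : i ≤ Nat.findGreatest p n := Nat.le_findGreatest hi hp
  exact ⟨Nat.find hex, Nat.findGreatest p n, by omega, Nat.findGreatest_le n, Nat.find_spec hex,
    Nat.findGreatest_spec hi hp, fun j hj => Nat.find_min hex hj,
    fun j a b => Nat.findGreatest_is_greatest a b⟩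

/-- (NC) a connected set has a non-cut vertex outside any connected proper subset -/
theorem Conn.exists_noncut [Finite V] {Y J : Set V} (hY : Conn G Y) (hJ : Conn G J) (hJY : J ⊆ Y)
    (hne : ¬ Y ⊆ J) : ∃ x ∈ Y, x ∉ J ∧ Conn G (Y \ {x}) := by
  classical
  -- a maximal connected proper subset containing `J`
  obtain ⟨Z, hZ, hmax⟩ : ∃ Z, (J ⊆ Z ∧ Z ⊆ Y ∧ Conn G Z ∧ ¬ Y ⊆ Z) ∧
      ∀ Z', (J ⊆ Z' ∧ Z' ⊆ Y ∧ Conn G Z' ∧ ¬ Y ⊆ Z') → Z ≤ Z' → Z' ≤ Z := by
    obtain ⟨Z, hZ⟩ := exists_maximal_of_wellFoundedGT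
      (fun Z : Set V => J ⊆ Z ∧ Z ⊆ Y ∧ Conn G Z ∧ ¬ Y ⊆ Z) ⟨J, le_rfl, hJY, hJ, hne⟩
    exact ⟨Z, hZ.1, fun Z' h1 h2 => hZ.2 h1 h2⟩
  obtain ⟨hJZ, hZY, hZ, hYZ⟩ := hZ
  obtain ⟨z, hz⟩ := hZ.nonempty
  obtain ⟨y, hy, hyZ⟩ := Set.not_subset.1 hYZ
  obtain ⟨n, f, hf, fY, f0, fn, fP, fQ⟩ :=
    hY.exists_min_path (P := Z) (Q := Zᶜ) ⟨z, hZY hz, hz⟩ ⟨y, hy, hyZ⟩
  have hn : 0 < n := by
    rcases Nat.eq_zero_or_pos n with rfl | h
    · exact (fn f0).elim
    · exact h
  have hx : f 1 ∉ Z := fP 1 (by omega) hn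
  have hc : Conn G (insert (f 1) Z) := hZ.ins (Or.inr ⟨f 0, f0, (hf.adj_succ hn).symm⟩)
  have hall : Y ⊆ insert (f 1) Z := by
    by_contra hcon
    have := hmax (insert (f 1) Z) ⟨hJZ.trans (Set.subset_insert _ _),
      Set.insert_subset (fY 1 hn) hZY, hc, hcon⟩ (Set.subset_insert _ _)
    exact hx (this (Or.inl rfl))
  refine ⟨f 1, fY 1 hn, fun e => hx (hJZ e), ?_⟩
  have : Y \ {f 1} = Z := by
    ext w
    constructor
    · rintro ⟨hw, hw'⟩
      exact (hall hw).resolve_left hw'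
    · intro hw
      exact ⟨hZY hw, fun e => hx ((Set.mem_singleton_iff.1 e) ▸ hw)⟩
  rw [this]; exact hZ

/-- a minimal subset with a given property -/
theorem exists_min_subset [Finite V] {p : Set V → Prop} {Y : Set V} (h : p Y) :
    ∃ Z, Z ⊆ Y ∧ p Z ∧ ∀ Z', Z' ⊆ Z → p Z' → Z ⊆ Z' := by
  obtain ⟨Z, hZ⟩ := exists_minimal_of_wellFoundedLT (fun Z : Set V => Z ⊆ Y ∧ p Z) ⟨Y, le_rfl, h⟩
  exact ⟨Z, hZ.1.1, hZ.1.2, fun Z' h1 h2 => hZ.2 ⟨h1.trans hZ.1.1, h2⟩ h1⟩

/-- a maximal superset with a given property -/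
theorem exists_max_superset [Finite V] {p : Set V → Prop} {Y : Set V} (h : p Y) :
    ∃ Z, Y ⊆ Z ∧ p Z ∧ ∀ Z', Z ⊆ Z' → p Z' → Z' ⊆ Z := by
  obtain ⟨Z, hZ⟩ := exists_maximal_of_wellFoundedGT (fun Z : Set V => Y ⊆ Z ∧ p Z) ⟨Y, le_rfl, h⟩
  exact ⟨Z, hZ.1.1, hZ.1.2, fun Z' h1 h2 => hZ.2 ⟨hZ.1.1.trans h1, h2⟩ h1⟩

end Pool.Agent.Ehf
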