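import Pool.Agent.MP_3ad207_lc.H46.Parity

/-! Interfaces: families, canonical sets, the table invariant, the tree set-up, and the statements
of the combinatorial lemmas. -/

set_option autoImplicit false

namespace Pool.Agent.Ehf

variable {V : Type*}

/-- a family of pairwise anticomplete connected sets, indexed by the finite set `s` -/
def AFam (G : SimpleGraph V) {ι : Type*} (s : Finset ι) (F : ι → Set V) : Prop :=
  (∀ i ∈ s, Conn G (F i)) ∧ ∀ i ∈ s, ∀ j ∈ s, i ≠ j → Anti G (F i) (F j)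

/-- at most `k` pairwise anticomplete connected subsets of `U` touch both `A` and `B` -/
def NuLe (G : SimpleGraph V) (U A B : Set V) (k : ℕ) : Prop :=
  ∀ s : Finset (Set V), AFam G s id → (∀ Y ∈ s, Y ⊆ U ∧ Touch G Y A ∧ Touch G Y B) → s.card ≤ k

/-- stable subsets of `X` have at most `k` vertices -/
def AlphaLe (G : SimpleGraph V) (X : Set V) (k : ℕ) : Prop :=
  ∀ s : Finset V, (s : Set V) ⊆ X → Stable G (s : Set V) → s.card ≤ k

/-- `G[X]` has no triangle -/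
def TriFree (G : SimpleGraph V) (X : Set V) : Prop :=
  ∀ a ∈ X, ∀ b ∈ X, ∀ c ∈ X, G.Adj a b → G.Adj a c → ¬ G.Adj b c

/-- a walk with all vertices in `U` -/
def WalkIn (G : SimpleGraph V) (U : Set V) (f : ℕ → V) (n : ℕ) : Prop :=
  (∀ i, i ≤ n → f i ∈ U) ∧ ∀ i, i < n → G.Adj (f i) (f (i + 1))

/-- vertices on shortest walks from `a` to `b` inside `U` -/
def Geo (G : SimpleGraph V) (U : Set V) (a b : V) : Set V :=
  {x | ∃ (n : ℕ) (f : ℕ → V), WalkIn G U f n ∧ f 0 = a ∧ f n = b ∧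
    (∀ (m : ℕ) (g : ℕ → V), WalkIn G U g m → g 0 = a → g m = b → n ≤ m) ∧ ∃ i, i ≤ n ∧ f i = x}

/-- maximal clique -/
def MaxClq (G : SimpleGraph V) (K : Set V) : Prop :=
  Clq G K ∧ ∀ K', Clq G K' → K ⊆ K' → K' ⊆ K

/-- `z` together with its neighbours in `S` -/
def ball (G : SimpleGraph V) (S : Set V) (z : V) : Set V := {y | y = z ∨ (y ∈ S ∧ G.Adj z y)}

/-- the vertices `z` such that `N[z] ∪ N[N(z) ∩ S]` separates `c` from `t` inside `U`
(with `S = ∅`: such that `N[z]` separates them) -/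
def SepSet (G : SimpleGraph V) (S U : Set V) (c t : V) : Set V :=
  {z | c ∉ cN G (ball G S z) ∧ t ∉ cN G (ball G S z) ∧ t ∉ comp G (U \ cN G (ball G S z)) c}

/-- canonical sets, by level -/
structure CanSys (G : SimpleGraph V) (S : Set V) where
  Can : ℕ → Set V → Prop
  mono : ∀ {k l X}, Can k X → k ≤ l → Can l X
  empty : Can 0 ∅
  univ : Can 0 Set.univ
  single : ∀ x, Can 0 {x}
  white : Can 0 S
  union : ∀ {k X Y}, Can k X → Can k Y → Can (k + 1) (X ∪ Y)
  diff : ∀ {k X Y}, Can k X → Can k Y → Can (k + 1) (X \ Y)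
  nbhd : ∀ {k X}, Can k X → Can (k + 1) (cN G X)
  cmp : ∀ {k U} (v : V), Can k U → Can (k + 1) (comp G U v)
  geo : ∀ {k U} (a b : V), Can k U → Can (k + 1) (Geo G U a b)
  clq : ∀ {K}, MaxClq G K → Can 1 K
  sep : ∀ {k T U} (c t : V), Can k T → Can k U → Can (k + 1) (SepSet G T U c t)

/-- the symmetric difference of the old stable set `S` and the optimum `I` -/
def HH (S I : Set V) : Set V := (I \ S) ∪ (S \ I)

/-- the tree set-up: blacks `I \ S`, whites `S \ I` -/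
structure Setup (G : SimpleGraph V) (S I : Set V) : Prop where
  ehf : EHF G
  stS : Stable G S
  stI : Stable G I
  conn : Conn G (HH S I)
  deg : ∀ w ∈ S \ I, ∃ a b, a ≠ b ∧ a ∈ I \ S ∧ b ∈ I \ S ∧ G.Adj w a ∧ G.Adj w b ∧
    ∀ y ∈ I \ S, G.Adj w y → y = a ∨ y = b

/-- the table invariant, abstractly; `K` bounds the level of the contexts -/
structure RSys (G : SimpleGraph V) (S I : Set V) (C : CanSys G S) (K : ℕ) where
  R : ℕ → Set V → Prop
  zero : R 0 ∅
  succ : ∀ {r P}, R r P → R (r + 1) P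
  mono : ∀ {r P Q}, R r P → Q ⊆ P → R r Q
  ctx : ∀ {r : ℕ} {P Cb Cw Wo : Set V}, P ⊆ HH S I → Cb ⊆ I \ S → Cw ⊆ S \ I →
    Disjoint Wo (HH S I) → C.Can K Cb → C.Can K Cw → C.Can K Wo →
    (∀ D, Conn G D → D ⊆ (cN G Cb ∪ Cw ∪ Wo)ᶜ → (D ∩ P).Nonempty → R r (D ∩ HH S I)) →
    R (r + 1) P

/-- the structural theorem that the algorithm needs -/
def MainStmt : Prop :=
  ∃ K : ℕ, ∀ (V : Type) [Fintype V] (G : SimpleGraph V) (S I : Set V), Setup G S I →
    ∀ (C : CanSys G S) (T : RSys G S I C K), T.R (2 * Fintype.card V + 2) (HH S I)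

/-! ### statements of the tools -/

/-- K(3,18) -/
def K3Stmt : Prop :=
  ∀ (V : Type) [Finite V] (G : SimpleGraph V), EHF G → ∀ (X₁ X₂ X₃ : Set V),
    Conn G X₁ → Conn G X₂ → Conn G X₃ → Anti G X₁ X₂ → Anti G X₁ X₃ → Anti G X₂ X₃ →
    ∀ (ι : Type) (s : Finset ι) (F : ι → Set V), AFam G s F →
      (∀ i ∈ s, Touch G (F i) X₁ ∧ Touch G (F i) X₂ ∧ Touch G (F i) X₃) → s.card ≤ 17

/-- transversal of several anticomplete families -/
def TRStmt : Prop :=
  ∃ L : ℕ → ℕ, ∀ (V : Type) [Finite V] (G : SimpleGraph V), EHF G →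
    ∀ (κ ι : Type) (K : Finset κ) (T : κ → Finset ι) (F : κ → ι → Set V),
      (∀ k ∈ K, AFam G (T k) (F k) ∧ L K.card ≤ (T k).card) →
      ∃ c : κ → ι, (∀ k ∈ K, c k ∈ T k) ∧ AFam G K fun k => F k (c k)

/-- diagonal selection for two anticomplete families with the same index set -/
def DiagStmt : Prop :=
  ∃ N : ℕ → ℕ, ∀ (V : Type) [Finite V] (G : SimpleGraph V), EHF G →
    ∀ (ι : Type) (s : Finset ι) (E F : ι → Set V) (t : ℕ), AFam G s E → AFam G s F →
      N t ≤ s.card → ∃ s' ⊆ s, s'.card = t ∧ ∀ i ∈ s', ∀ j ∈ s', i ≠ j → Anti G (E i) (F j)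

/-- a set of bounded stability number has a canonical superset avoiding a triangle-free set -/
def CoverStmt : Prop :=
  ∃ f : ℕ → ℕ, ∀ (V : Type) [Finite V] (G : SimpleGraph V), EHF G →
    ∀ (S : Set V) (C : CanSys G S) (X Z : Set V) (k : ℕ), AlphaLe G X k → TriFree G Z →
      Disjoint X Z → ∃ W, C.Can (f k) W ∧ X ⊆ W ∧ Disjoint W Z

/-- (EP) boundedly many anticomplete links can be killed by a canonical set -/
def EPStmt : Prop :=
  ∃ f : ℕ → ℕ, ∀ (V : Type) [Finite V] (G : SimpleGraph V), EHF G →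
    ∀ (S : Set V) (C : CanSys G S) (W₀ A B : Set V) (k n : ℕ), C.Can n W₀ →
      Disjoint W₀ (A ∪ B) → Anti G A B → TriFree G (A ∪ B) → NuLe G W₀ᶜ A B k →
      ∃ W, C.Can (n + f k) W ∧ Disjoint W (A ∪ B) ∧ NuLe G (W₀ ∪ W)ᶜ A B 0

variable {G : SimpleGraph V}

theorem AFam.mono {ι : Type*} {s t : Finset ι} {F : ι → Set V} (h : AFam G s F) (hts : t ⊆ s) :
    AFam G t F := ⟨fun i hi => h.1 i (hts hi), fun i hi j hj => h.2 i (hts hi) j (hts hj)⟩

theorem AFam.injOn {ι : Type*} {s : Finset ι} {F : ι → Set V} (h : AFam G s F) :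
    Set.InjOn F s := by
  intro i hi j hj e
  by_contra hne
  obtain ⟨x, hx⟩ := (h.1 i hi).nonempty
  exact (h.2 i hi j hj hne).notMem hx (e ▸ hx)

theorem NuLe.card_le {U A B : Set V} {k : ℕ} (h : NuLe G U A B k) {ι : Type*} {s : Finset ι}
    {F : ι → Set V} (hF : AFam G s F) (hT : ∀ i ∈ s, F i ⊆ U ∧ Touch G (F i) A ∧ Touch G (F i) B) :
    s.card ≤ k := by
  classical
  rw [← Finset.card_image_of_injOn hF.injOn]
  refine h _ ⟨?_, ?_⟩ ?_
  · intro Y hY
    obtain ⟨i, hi, rfl⟩ := Finset.mem_image.1 hY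
    exact hF.1 i hi
  · intro Y hY Z hZ hne
    obtain ⟨i, hi, rfl⟩ := Finset.mem_image.1 hY
    obtain ⟨j, hj, rfl⟩ := Finset.mem_image.1 hZ
    exact hF.2 i hi j hj fun e => hne (e ▸ rfl)
  · intro Y hY
    obtain ⟨i, hi, rfl⟩ := Finset.mem_image.1 hY
    exact hT i hi

theorem NuLe.mono {U U' A A' B B' : Set V} {k k' : ℕ} (h : NuLe G U A B k) (hU : U' ⊆ U)
    (hA : A' ⊆ A) (hB : B' ⊆ B) (hk : k ≤ k') : NuLe G U' A' B' k' := fun s hs hT =>
  (h s hs fun Y hY => ⟨(hT Y hY).1.trans hU, (hT Y hY).2.1.mono le_rfl hA,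
    (hT Y hY).2.2.mono le_rfl hB⟩).trans hk

theorem NuLe.symm {U A B : Set V} {k : ℕ} (h : NuLe G U A B k) : NuLe G U B A k :=
  fun s hs hT => h s hs fun Y hY => ⟨(hT Y hY).1, (hT Y hY).2.2, (hT Y hY).2.1⟩

theorem nuLe_zero {U A B : Set V} :
    NuLe G U A B 0 ↔ ∀ Y, Conn G Y → Y ⊆ U → Touch G Y A → ¬ Touch G Y B := by
  constructor
  · intro h Y hY hU hA hB
    have := h {Y} ⟨by simpa using hY, by simp⟩ (by simpa using ⟨hU, hA, hB⟩)
    simp at this
  · intro h s hs hT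
    rw [Nat.le_zero, Finset.card_eq_zero, Finset.eq_empty_iff_forall_notMem]
    intro Y hY
    exact h Y (hs.1 Y hY) (hT Y hY).1 (hT Y hY).2.1 (hT Y hY).2.2

/-- links may be assumed to avoid both sides -/
theorem NuLe.of_outside {U A B : Set V} {k : ℕ} (hAB : Anti G A B)
    (h : NuLe G (U \ (A ∪ B)) A B k) : NuLe G U A B k := by
  intro s hs hT
  have : ∀ Y ∈ s, ∃ Z, Z ⊆ Y ∧ Conn G Z ∧ Disjoint Z A ∧ Disjoint Z B ∧ Touch G Z A ∧
      Touch G Z B := fun Y hY => (hs.1 Y hY).extract_set (hT Y hY).2.1 (hT Y hY).2.2 hAB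
  choose! Z hZ using this
  refine h.card_le (F := Z) ⟨fun Y hY => (hZ Y hY).2.1, fun Y hY Y' hY' hne =>
    (hs.2 Y hY Y' hY' hne).mono (hZ Y hY).1 (hZ Y' hY').1⟩ fun Y hY => ⟨?_, (hZ Y hY).2.2.2.2⟩
  intro x hx
  refine ⟨(hT Y hY).1 ((hZ Y hY).1 hx), ?_⟩
  rintro (h' | h')
  · exact Set.disjoint_left.1 (hZ Y hY).2.2.1 hx h'
  · exact Set.disjoint_left.1 (hZ Y hY).2.2.2.1 hx h'

theorem AlphaLe.mono {X Y : Set V} {k l : ℕ} (h : AlphaLe G X k) (hYX : Y ⊆ X) (hk : k ≤ l) :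
    AlphaLe G Y l := fun s hs hst => (h s (hs.trans hYX) hst).trans hk

namespace CanSys

variable {S : Set V} (C : CanSys G S)

theorem union_max {k l : ℕ} {X Y : Set V} (hX : C.Can k X) (hY : C.Can l Y) :
    C.Can (max k l + 1) (X ∪ Y) :=
  C.union (C.mono hX (le_max_left _ _)) (C.mono hY (le_max_right _ _))

theorem inter {k : ℕ} {X Y : Set V} (hX : C.Can k X) (hY : C.Can k Y) : C.Can (k + 2) (X ∩ Y) := by
  have := C.diff (C.mono hX (Nat.le_succ k)) (C.diff hX hY)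
  rwa [Set.sdiff_sdiff_right_self] at this

theorem compl {k : ℕ} {X : Set V} (hX : C.Can k X) : C.Can (k + 1) Xᶜ := by
  rw [Set.compl_eq_univ_sdiff]
  exact C.diff (C.mono C.univ (Nat.zero_le _)) hX

theorem biUnion {ι : Type*} {k : ℕ} (s : Finset ι) {F : ι → Set V} (h : ∀ i ∈ s, C.Can k (F i)) :
    C.Can (k + s.card) (⋃ i ∈ s, F i) := by
  classical
  induction s using Finset.induction_on with
  | empty => simpa using C.mono C.empty (Nat.zero_le _)
  | insert a s ha ih =>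
    rw [Finset.card_insert_of_notMem ha, Finset.set_biUnion_insert]
    exact C.union (C.mono (h a (Finset.mem_insert_self _ _)) (Nat.le_add_right _ _))
      (ih fun i hi => h i (Finset.mem_insert_of_mem hi))

theorem finset (s : Finset V) : C.Can s.card (s : Set V) := by
  have := C.biUnion (k := 0) s (F := fun x => {x}) fun x _ => C.single x
  have e : (⋃ i ∈ s, ({i} : Set V)) = (s : Set V) := by ext x; simp
  rw [e, Nat.zero_add] at this
  exact this

end CanSys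

end Pool.Agent.Ehf
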